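import Pool.Agent.Lib.MP_06c6c1_co.Defs

set_option autoImplicit false

/-! # Task Greedy: finishing a colouring greedily -/

namespace MP06c

open Finset Classical

theorem greedy_mem_avail {V : Type} {m : ℕ} {G : SimpleGraph V}
    {M : V → V → Fin m → Fin m → Prop} {I : V → Option (Fin m)} {v : V} {i : Fin m} :
    i ∈ avail G M I v ↔ ∀ w j, G.Adj v w → I w = some j → ¬ M v w i j := by
  simp only [avail, Finset.mem_filter, Finset.mem_univ, true_and]

theorem greedy_finish_aux {V : Type} [Fintype V] {m : ℕ} (G : SimpleGraph V)
    {M : V → V → Fin m → Fin m → Prop} (hM : IsCover M) (n : ℕ) :
    ∀ I : V → Option (Fin m), (univ.filter (fun v => I v = none)).card = n → Valid G M I →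
    (∀ v, I v = none → ((nb G v).filter (fun u => I u = none)).card < (avail G M I v).card) →
    ∃ φ : V → Fin m, ∀ u v, G.Adj u v → ¬ M u v (φ u) (φ v) := by
  induction n with
  | zero =>
    intro I hcard hI _
    have hall : ∀ v, ∃ i, I v = some i := by
      intro v
      have : v ∉ univ.filter (fun v => I v = none) := by
        rw [Finset.card_eq_zero.1 hcard]
        exact Finset.notMem_empty v
      rw [Finset.mem_filter] at this
      exact Option.ne_none_iff_exists'.1 (fun h => this ⟨Finset.mem_univ v, h⟩)
    choose φ hφ using hall
    exact ⟨φ, fun u v huv => hI u v _ _ huv (hφ u) (hφ v)⟩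
  | succ n ih =>
    intro I hcard hI h
    have hne : (univ.filter (fun v => I v = none)).Nonempty := by
      rw [← Finset.card_pos, hcard]
      exact Nat.succ_pos n
    obtain ⟨v, hv⟩ := hne
    have hv0 : I v = none := (Finset.mem_filter.1 hv).2
    have hav : (avail G M I v).Nonempty := by
      rw [← Finset.card_pos]
      exact lt_of_le_of_lt (Nat.zero_le _) (h v hv0)
    obtain ⟨i, hi⟩ := hav
    have hi' : ∀ w j, G.Adj v w → I w = some j → ¬ M v w i j := greedy_mem_avail.1 hi
    have hself : Function.update I v (some i) v = some i := Function.update_self v _ I
    have hoff : ∀ u, u ≠ v → Function.update I v (some i) u = I u := fun u hu =>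
      Function.update_of_ne hu _ I
    apply ih (Function.update I v (some i))
    · -- the number of uncoloured vertices
      have : univ.filter (fun u => Function.update I v (some i) u = none)
          = (univ.filter (fun u => I u = none)).erase v := by
        ext u
        rw [Finset.mem_erase, Finset.mem_filter, Finset.mem_filter]
        constructor
        · rintro ⟨h1, h2⟩
          have huv : u ≠ v := by
            rintro rfl
            rw [hself] at h2
            exact absurd h2 (by simp)
          rw [hoff u huv] at h2
          exact ⟨huv, h1, h2⟩
        · rintro ⟨h1, h2, h3⟩
          rw [hoff u h1]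
          exact ⟨h2, h3⟩
      rw [this, Finset.card_erase_of_mem hv, hcard]
      rfl
    · -- validity
      intro u w a b huw hu hw
      by_cases huv : u = v
      · subst huv
        have hwu : w ≠ u := fun hc => G.loopless.irrefl u (hc ▸ huw)
        rw [hself] at hu
        rw [hoff w hwu] at hw
        have : i = a := Option.some.inj hu
        rw [← this]
        exact hi' w b huw hw
      · rw [hoff u huv] at hu
        by_cases hwv : w = v
        · subst hwv
          rw [hself] at hw
          have : i = b := Option.some.inj hw
          rw [← this]
          intro hc
          exact hi' u a huw.symm hu ((hM.symm u w a i).1 hc)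
        · rw [hoff w hwv] at hw
          exact hI u w a b huw hu hw
    · -- the counting condition
      intro u hu
      have huv : u ≠ v := by
        rintro rfl
        rw [hself] at hu
        exact absurd hu (by simp)
      rw [hoff u huv] at hu
      have h0 := h u hu
      by_cases hadj : G.Adj u v
      · have hmem : v ∈ (nb G u).filter (fun w => I w = none) := by
          rw [Finset.mem_filter]
          exact ⟨Finset.mem_filter.2 ⟨Finset.mem_univ v, hadj⟩, hv0⟩
        have hsub : (nb G u).filter (fun w => Function.update I v (some i) w = none)
            ⊆ ((nb G u).filter (fun w => I w = none)).erase v := by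
          intro w hw
          rw [Finset.mem_filter] at hw
          have hwv : w ≠ v := by
            rintro rfl
            rw [hself] at hw
            exact absurd hw.2 (by simp)
          rw [hoff w hwv] at hw
          exact Finset.mem_erase.2 ⟨hwv, Finset.mem_filter.2 hw⟩
        have hc1 := Finset.card_le_card hsub
        rw [Finset.card_erase_of_mem hmem] at hc1
        have hsub2 : (avail G M I u) \ (univ.filter (fun j => M u v j i))
            ⊆ avail G M (Function.update I v (some i)) u := by
          intro j hj
          rw [Finset.mem_sdiff] at hj
          obtain ⟨hj1, hj2⟩ := hj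
          have hj1' : ∀ w k, G.Adj u w → I w = some k → ¬ M u w j k := greedy_mem_avail.1 hj1
          refine greedy_mem_avail.2 ?_
          intro w k huw hwk
          by_cases hwv : w = v
          · subst hwv
            rw [hself] at hwk
            have : i = k := Option.some.inj hwk
            rw [← this]
            intro hc
            exact hj2 (Finset.mem_filter.2 ⟨Finset.mem_univ j, hc⟩)
          · rw [hoff w hwv] at hwk
            exact hj1' w k huw hwk
        have hle1 : (univ.filter (fun j => M u v j i)).card ≤ 1 := by
          rw [Finset.card_le_one]
          intro j hj k hk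
          exact hM.left u v j k i (Finset.mem_filter.1 hj).2 (Finset.mem_filter.1 hk).2
        have hc2 := Finset.card_le_card hsub2
        have hc3 := Finset.le_card_sdiff (univ.filter (fun j => M u v j i)) (avail G M I u)
        have hpos : 0 < ((nb G u).filter (fun w => I w = none)).card :=
          Finset.card_pos.2 ⟨v, hmem⟩
        omega
      · have hsub : (nb G u).filter (fun w => Function.update I v (some i) w = none)
            ⊆ (nb G u).filter (fun w => I w = none) := by
          intro w hw
          rw [Finset.mem_filter] at hw
          have hwv : w ≠ v := by
            rintro rfl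
            rw [hself] at hw
            exact absurd hw.2 (by simp)
          rw [hoff w hwv] at hw
          exact Finset.mem_filter.2 hw
        have hsub2 : avail G M I u ⊆ avail G M (Function.update I v (some i)) u := by
          intro j hj
          have hj1' : ∀ w k, G.Adj u w → I w = some k → ¬ M u w j k := greedy_mem_avail.1 hj
          refine greedy_mem_avail.2 ?_
          intro w k huw hwk
          have hwv : w ≠ v := by
            rintro rfl
            exact hadj huw
          rw [hoff w hwv] at hwk
          exact hj1' w k huw hwk
        exact lt_of_le_of_lt (Finset.card_le_card hsub)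
          (lt_of_lt_of_le h0 (Finset.card_le_card hsub2))

theorem greedy_finish {V : Type} [Fintype V] {m : ℕ} (G : SimpleGraph V)
    {M : V → V → Fin m → Fin m → Prop} (hM : IsCover M) (I : V → Option (Fin m))
    (hI : Valid G M I)
    (h : ∀ v, I v = none → ((nb G v).filter (fun u => I u = none)).card < (avail G M I v).card) :
    ∃ φ : V → Fin m, ∀ u v, G.Adj u v → ¬ M u v (φ u) (φ v) :=
  greedy_finish_aux G hM _ I rfl hI h

end MP06c
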