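import Pool.Agent.Lib.MP_06c6c1_co.Lll
import Pool.Agent.Lib.MP_06c6c1_co.Greedy

set_option autoImplicit false

/-!
# MP_06c6c1_co: the assembly (local lemma over valid colourings of some of the vertices)
-/

namespace MP06c

open Finset Classical

namespace AssembleAux

variable {V : Type} [Fintype V] {m : ℕ}

/-- closed neighbourhood of a set -/
noncomputable def clo (G : SimpleGraph V) (S : Finset V) : Finset V :=
  S.biUnion (fun x => insert x (nb G x))

theorem mem_clo {G : SimpleGraph V} {S : Finset V} {y : V} :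
    y ∈ clo G S ↔ ∃ x ∈ S, y = x ∨ G.Adj x y := by
  unfold clo nb
  simp

theorem self_clo {G : SimpleGraph V} {S : Finset V} {y : V} (h : y ∈ S) : y ∈ clo G S :=
  mem_clo.2 ⟨y, h, Or.inl rfl⟩

theorem adj_clo {G : SimpleGraph V} {S : Finset V} {x y : V} (h : x ∈ S) (hxy : G.Adj x y) :
    y ∈ clo G S :=
  mem_clo.2 ⟨x, h, Or.inr hxy⟩

theorem card_clo {G : SimpleGraph V} {Δ : ℕ} (hΔ : ∀ v, (nb G v).card ≤ Δ) (S : Finset V) :
    (clo G S).card ≤ S.card * (Δ + 1) := by
  unfold clo
  apply Finset.card_biUnion_le_card_mul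
  intro x _
  exact (Finset.card_insert_le _ _).trans (Nat.add_le_add_right (hΔ x) 1)

/-- the bad events -/
def Bad (G : SimpleGraph V) (M : V → V → Fin m → Fin m → Prop) (l t : ℕ) (v : V)
    (I : V → Option (Fin m)) : Prop :=
  I v = none ∧ ((avail G M I v).card < l ∨
    t ≤ ((nb G v).filter (fun u => I u = none ∧ l ≤ (avail G M I u).card)).card)

theorem avail_congr {G : SimpleGraph V} {M : V → V → Fin m → Fin m → Prop}
    {I I' : V → Option (Fin m)} {u : V} (h : ∀ x, G.Adj u x → I x = I' x) :
    avail G M I u = avail G M I' u := by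
  unfold avail
  ext i
  simp only [mem_filter, mem_univ, true_and]
  constructor
  · intro h1 w j hw hj
    exact h1 w j hw (by rw [h w hw]; exact hj)
  · intro h1 w j hw hj
    exact h1 w j hw (by rw [← h w hw]; exact hj)

theorem bad_congr {G : SimpleGraph V} {M : V → V → Fin m → Fin m → Prop} {l t : ℕ}
    {I I' : V → Option (Fin m)} {u : V} (h : ∀ x ∈ clo G (clo G {u}), I x = I' x) :
    Bad G M l t u I ↔ Bad G M l t u I' := by
  have hu : u ∈ clo G ({u} : Finset V) := self_clo (mem_singleton_self u)
  have h0 : I u = I' u := h u (self_clo hu)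
  have h1 : avail G M I u = avail G M I' u :=
    avail_congr fun x hx => h x (self_clo (adj_clo (mem_singleton_self u) hx))
  have h2 : (nb G u).filter (fun w => I w = none ∧ l ≤ (avail G M I w).card) =
      (nb G u).filter (fun w => I' w = none ∧ l ≤ (avail G M I' w).card) := by
    apply Finset.filter_congr
    intro w hw
    have hw' : G.Adj u w := by
      unfold nb at hw
      simpa using hw
    have hwc : w ∈ clo G ({u} : Finset V) := adj_clo (mem_singleton_self u) hw'
    rw [h w (self_clo hwc), avail_congr (I := I) (I' := I') fun x hx => h x (adj_clo hwc hx)]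
  unfold Bad
  rw [h0, h1, h2]

/-- uncolour the closed neighbourhood of `v` -/
noncomputable def res (G : SimpleGraph V) (v : V) (I : V → Option (Fin m)) :
    V → Option (Fin m) :=
  fun x => if x = v ∨ G.Adj v x then none else I x

theorem far {G : SimpleGraph V} {u v x : V} (hu : u ∉ clo G (clo G (clo G {v})))
    (hx : x ∈ clo G (clo G {u})) : ¬ (x = v ∨ G.Adj v x) := by
  intro h
  apply hu
  have h1 : x ∈ clo G ({v} : Finset V) := mem_clo.2 ⟨v, mem_singleton_self v, h⟩
  obtain ⟨w, hw, hxw⟩ := mem_clo.1 hx
  obtain ⟨u', hu', hwu⟩ := mem_clo.1 hw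
  rw [mem_singleton] at hu'
  subst hu'
  have h2 : w ∈ clo G (clo G ({v} : Finset V)) :=
    mem_clo.2 ⟨x, h1, hxw.imp (fun h => h.symm) (fun h => h.symm)⟩
  exact mem_clo.2 ⟨w, h2, hwu.imp (fun h => h.symm) (fun h => h.symm)⟩

theorem bad_res {G : SimpleGraph V} {M : V → V → Fin m → Fin m → Prop} {l t : ℕ} {u v : V}
    (hu : u ∉ clo G (clo G (clo G {v}))) (I : V → Option (Fin m)) :
    Bad G M l t u (res G v I) ↔ Bad G M l t u I := by
  apply bad_congr
  intro x hx
  unfold res
  rw [if_neg (far hu hx)]

theorem res_res {G : SimpleGraph V} {v : V} (I : V → Option (Fin m)) :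
    res G v (res G v I) = res G v I := by
  funext x
  unfold res
  split_ifs <;> rfl

/-- the weight -/
noncomputable def wv (G : SimpleGraph V) (M : V → V → Fin m → Fin m → Prop) (lam : ℝ)
    (I : V → Option (Fin m)) : ℝ :=
  if Valid G M I then wt lam I else 0

theorem wt_pos {lam : ℝ} (hl : 0 < lam) (I : V → Option (Fin m)) : 0 < wt lam I := by
  unfold wt
  apply Finset.prod_pos
  intro v _
  split_ifs
  · exact one_pos
  · exact hl

theorem wv_nonneg {G : SimpleGraph V} {M : V → V → Fin m → Fin m → Prop} {lam : ℝ}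
    (hl : 0 < lam) (I : V → Option (Fin m)) : 0 ≤ wv G M lam I := by
  unfold wv
  split_ifs
  · exact (wt_pos hl I).le
  · exact le_rfl

/-- the fibres of `res` -/
theorem fibre_loc {G : SimpleGraph V} {M : V → V → Fin m → Fin m → Prop} {v : V}
    {K : V → Option (Fin m)} (hK : res G v K = K) (I : V → Option (Fin m)) :
    I ∈ Loc G M v K ↔ Valid G M I ∧ I v = none ∧ res G v I = K := by
  unfold Loc
  simp only [mem_filter, mem_univ, true_and]
  constructor
  · rintro ⟨h1, h2, h3⟩
    refine ⟨h1, h2, ?_⟩
    rw [← hK]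
    funext x
    unfold res
    by_cases h : x = v ∨ G.Adj v x
    · rw [if_pos h, if_pos h]
    · rw [if_neg h, if_neg h]
      push Not at h
      exact h3 x h.1 h.2
  · rintro ⟨h1, h2, h3⟩
    refine ⟨h1, h2, ?_⟩
    intro x hx hx'
    rw [← h3]
    unfold res
    rw [if_neg (by
      push Not
      exact ⟨hx, hx'⟩)]

end AssembleAux

open AssembleAux in
theorem assemble {V : Type} [Fintype V] {m : ℕ} (G : SimpleGraph V)
    {M : V → V → Fin m → Fin m → Prop} (hM : IsCover M) (Δ : ℕ) (hΔ : ∀ v, (nb G v).card ≤ Δ)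
    {lam : ℝ} (hl : 0 < lam) (l t : ℕ) (htl : t ≤ l) (p1 p2 : ℝ) (h10 : 0 ≤ p1) (h20 : 0 ≤ p2)
    (h1 : ∀ (v : V) (J : V → Option (Fin m)),
      ∑ I ∈ (Loc G M v J).filter (fun I => (avail G M I v).card < l), wt lam I ≤
        p1 * ∑ I ∈ Loc G M v J, wt lam I)
    (h2 : ∀ (v : V) (J : V → Option (Fin m)), ∑ I ∈ (Loc G M v J).filter (fun I =>
        t ≤ ((nb G v).filter (fun u => I u = none ∧ l ≤ (avail G M I u).card)).card), wt lam I ≤
        p2 * ∑ I ∈ Loc G M v J, wt lam I)
    (hp : 4 * (p1 + p2) * ((Δ : ℝ) + 1) ^ 3 ≤ 1) :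
    ∃ φ : V → Fin m, ∀ u v, G.Adj u v → ¬ M u v (φ u) (φ v) := by
  have key : ∀ (v : V) (S : Finset V), Disjoint S (clo G (clo G (clo G {v}))) →
      ∑ x ∈ univ.filter (fun x => Bad G M l t v x ∧ ∀ u ∈ S, ¬ Bad G M l t u x), wv G M lam x ≤
        (p1 + p2) * ∑ x ∈ univ.filter (fun x => ∀ u ∈ S, ¬ Bad G M l t u x), wv G M lam x := by
    intro v S hS
    have hgood : ∀ I : V → Option (Fin m), (∀ u ∈ S, ¬ Bad G M l t u (res G v I)) ↔
        ∀ u ∈ S, ¬ Bad G M l t u I := by
      intro I
      refine forall₂_congr fun u hu => ?_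
      rw [bad_res (Finset.disjoint_left.1 hS hu)]
    rw [← Finset.sum_fiberwise (univ.filter (fun x => Bad G M l t v x ∧
      ∀ u ∈ S, ¬ Bad G M l t u x)) (res G v), ← Finset.sum_fiberwise (univ.filter (fun x =>
      ∀ u ∈ S, ¬ Bad G M l t u x)) (res G v), Finset.mul_sum]
    refine Finset.sum_le_sum fun K _ => ?_
    by_cases hK : res G v K = K ∧ ∀ u ∈ S, ¬ Bad G M l t u K
    · obtain ⟨hK1, hK2⟩ := hK
      have e1 : ∑ x ∈ (univ.filter (fun x => Bad G M l t v x ∧
          ∀ u ∈ S, ¬ Bad G M l t u x)).filter (fun x => res G v x = K), wv G M lam x ≤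
          ∑ x ∈ (Loc G M v K).filter (fun x => Bad G M l t v x), wt lam x := by
        rw [← Finset.sum_filter_add_sum_filter_not ((univ.filter (fun x => Bad G M l t v x ∧
          ∀ u ∈ S, ¬ Bad G M l t u x)).filter (fun x => res G v x = K)) (fun x => Valid G M x)]
        have e2 : ∑ x ∈ ((univ.filter (fun x => Bad G M l t v x ∧
            ∀ u ∈ S, ¬ Bad G M l t u x)).filter (fun x => res G v x = K)).filter
            (fun x => ¬ Valid G M x), wv G M lam x = 0 := by
          apply Finset.sum_eq_zero
          intro x hx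
          unfold wv
          rw [if_neg (Finset.mem_filter.1 hx).2]
        rw [e2, add_zero]
        have e3 : ∀ x ∈ ((univ.filter (fun x => Bad G M l t v x ∧
            ∀ u ∈ S, ¬ Bad G M l t u x)).filter (fun x => res G v x = K)).filter
            (fun x => Valid G M x), wv G M lam x = wt lam x := by
          intro x hx
          unfold wv
          rw [if_pos (Finset.mem_filter.1 hx).2]
        rw [Finset.sum_congr rfl e3]
        apply Finset.sum_le_sum_of_subset_of_nonneg
        · intro x hx
          simp only [Finset.mem_filter, Finset.mem_univ, true_and] at hx ⊢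
          exact ⟨(fibre_loc hK1 x).2 ⟨hx.2, hx.1.1.1.1, hx.1.2⟩, hx.1.1.1⟩
        · intro x _ _
          exact (wt_pos hl x).le
      have e4 : ∑ x ∈ (Loc G M v K).filter (fun x => Bad G M l t v x), wt lam x ≤
          (p1 + p2) * ∑ I ∈ Loc G M v K, wt lam I := by
        have e5 : (Loc G M v K).filter (fun x => Bad G M l t v x) ⊆
            (Loc G M v K).filter (fun I => (avail G M I v).card < l) ∪
            (Loc G M v K).filter (fun I =>
              t ≤ ((nb G v).filter (fun u => I u = none ∧ l ≤ (avail G M I u).card)).card) := by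
          intro x hx
          rw [Finset.mem_filter] at hx
          rw [Finset.mem_union, Finset.mem_filter, Finset.mem_filter]
          exact hx.2.2.imp (fun h => ⟨hx.1, h⟩) (fun h => ⟨hx.1, h⟩)
        calc ∑ x ∈ (Loc G M v K).filter (fun x => Bad G M l t v x), wt lam x ≤
              ∑ x ∈ (Loc G M v K).filter (fun I => (avail G M I v).card < l) ∪
                (Loc G M v K).filter (fun I =>
                t ≤ ((nb G v).filter (fun u => I u = none ∧ l ≤ (avail G M I u).card)).card),
                wt lam x :=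
              Finset.sum_le_sum_of_subset_of_nonneg e5 fun x _ _ => (wt_pos hl x).le
          _ ≤ ∑ x ∈ (Loc G M v K).filter (fun I => (avail G M I v).card < l), wt lam x +
                ∑ x ∈ (Loc G M v K).filter (fun I =>
                t ≤ ((nb G v).filter (fun u => I u = none ∧ l ≤ (avail G M I u).card)).card),
                wt lam x := by
              rw [← Finset.sum_union_inter]
              have : 0 ≤ ∑ x ∈ (Loc G M v K).filter (fun I => (avail G M I v).card < l) ∩
                (Loc G M v K).filter (fun I =>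
                t ≤ ((nb G v).filter (fun u => I u = none ∧ l ≤ (avail G M I u).card)).card),
                wt lam x := Finset.sum_nonneg fun x _ => (wt_pos hl x).le
              linarith
          _ ≤ _ := by
              have := h1 v K
              have := h2 v K
              linarith
      have e6 : ∑ I ∈ Loc G M v K, wt lam I ≤
          ∑ x ∈ (univ.filter (fun x => ∀ u ∈ S, ¬ Bad G M l t u x)).filter
            (fun x => res G v x = K), wv G M lam x := by
        have e7 : ∀ x ∈ Loc G M v K, wt lam x = wv G M lam x := by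
          intro x hx
          unfold wv
          rw [if_pos ((fibre_loc hK1 x).1 hx).1]
        rw [Finset.sum_congr rfl e7]
        apply Finset.sum_le_sum_of_subset_of_nonneg
        · intro x hx
          obtain ⟨-, -, h3⟩ := (fibre_loc hK1 x).1 hx
          simp only [Finset.mem_filter, Finset.mem_univ, true_and]
          refine ⟨(hgood x).1 ?_, h3⟩
          rw [h3]
          exact hK2
        · intro x _ _
          exact wv_nonneg hl x
      exact e1.trans (e4.trans (mul_le_mul_of_nonneg_left e6 (by linarith)))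
    · have e1 : (univ.filter (fun x => Bad G M l t v x ∧
          ∀ u ∈ S, ¬ Bad G M l t u x)).filter (fun x => res G v x = K) = ∅ := by
        rw [Finset.filter_eq_empty_iff]
        intro x hx hxK
        simp only [Finset.mem_filter, Finset.mem_univ, true_and] at hx
        apply hK
        constructor
        · rw [← hxK, res_res]
        · rw [← hxK]
          exact (hgood x).2 hx.2
      rw [e1, Finset.sum_empty]
      exact mul_nonneg (by linarith) (Finset.sum_nonneg fun x _ => wv_nonneg hl x)
  have hcard : ∀ v, (clo G (clo G (clo G ({v} : Finset V)))).card ≤ (Δ + 1) ^ 3 := by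
    intro v
    have a1 := card_clo hΔ ({v} : Finset V)
    have a2 := card_clo hΔ (clo G ({v} : Finset V))
    have a3 := card_clo hΔ (clo G (clo G ({v} : Finset V)))
    rw [Finset.card_singleton, one_mul] at a1
    calc (clo G (clo G (clo G ({v} : Finset V)))).card ≤ _ := a3
      _ ≤ ((Δ + 1) * (Δ + 1)) * (Δ + 1) :=
        Nat.mul_le_mul_right _ (a2.trans (Nat.mul_le_mul_right _ a1))
      _ = (Δ + 1) ^ 3 := by ring
  have hpos : 0 < ∑ x, wv G M lam x := by
    have h3 : 0 < wv G M lam (fun _ => none) := by
      unfold wv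
      rw [if_pos (by
        intro u v i j _ h _
        exact absurd h (by simp))]
      exact wt_pos hl _
    exact h3.trans_le (Finset.single_le_sum (f := fun x => wv G M lam x)
      (fun x _ => wv_nonneg hl x) (Finset.mem_univ _))
  have hp' : 4 * (p1 + p2) * (((Δ + 1) ^ 3 : ℕ) : ℝ) ≤ 1 := by
    push_cast
    exact hp
  have hp4 : 4 * (p1 + p2) ≤ 1 := by
    have h3 : (1 : ℝ) ≤ ((Δ : ℝ) + 1) ^ 3 := one_le_pow₀ (by
      have : (0 : ℝ) ≤ Δ := Nat.cast_nonneg _
      linarith)
    have h4 : 0 ≤ 4 * (p1 + p2) := by linarith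
    nlinarith
  obtain ⟨I, hI, hbad⟩ := lll (wv G M lam) (wv_nonneg hl) hpos (Bad G M l t)
    (fun v => clo G (clo G (clo G {v}))) ((Δ + 1) ^ 3) hcard (p1 + p2) (by linarith) hp' hp4 key
  have hval : Valid G M I := by
    by_contra h
    unfold wv at hI
    rw [if_neg h] at hI
    exact lt_irrefl _ hI
  have hav : ∀ u, I u = none → l ≤ (avail G M I u).card := by
    intro u hu
    by_contra h
    push Not at h
    exact hbad u ⟨hu, Or.inl h⟩
  apply greedy_finish G hM I hval
  intro v hv
  have h3 : (nb G v).filter (fun u => I u = none) =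
      (nb G v).filter (fun u => I u = none ∧ l ≤ (avail G M I u).card) := by
    apply Finset.filter_congr
    intro u _
    exact ⟨fun h => ⟨h, hav u h⟩, fun h => h.1⟩
  rw [h3]
  have h4 : ¬ t ≤ ((nb G v).filter (fun u => I u = none ∧ l ≤ (avail G M I u).card)).card :=
    fun h => hbad v ⟨hv, Or.inr h⟩
  have h5 := hav v hv
  omega

end MP06c
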