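import Pool.Agent.Lib.MP_06c6c1_co.Defs

set_option autoImplicit false

/-!
# Lower bound of the hard-core sum by averaging over subsets
-/

namespace MP06c

open Finset Classical

theorem choose_bound {lam : ℝ} (hl : 0 ≤ lam) (y r : ℕ) (hr : r ≤ y)
    (hrl : (r : ℝ) ≤ lam * y) (j : ℕ) (hj : j ≤ r) :
    (((y - j).choose (r - j) : ℕ) : ℝ) ≤ (y.choose r : ℕ) * lam ^ j := by
  induction j with
  | zero => simp
  | succ j ih =>
    have h1 := ih (by omega)
    obtain ⟨a, ha⟩ : ∃ a, y - j = a + 1 := ⟨y - j - 1, by omega⟩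
    obtain ⟨b, hb⟩ : ∃ b, r - j = b + 1 := ⟨r - j - 1, by omega⟩
    have ha' : y - (j + 1) = a := by omega
    have hb' : r - (j + 1) = b := by omega
    rw [ha', hb']
    rw [ha, hb] at h1
    have h2 : ((a + 1 : ℕ) : ℝ) * (a.choose b : ℕ) = ((a + 1).choose (b + 1) : ℕ) * ((b + 1 : ℕ) : ℝ) := by
      exact_mod_cast Nat.add_one_mul_choose_eq a b
    have hkey : ((a.choose b : ℕ) : ℝ) ≤ lam * ((a + 1).choose (b + 1) : ℕ) := by
      by_cases hlam : lam ≤ 1
      · have h3 : ((b + 1 : ℕ) : ℝ) ≤ lam * ((a + 1 : ℕ) : ℝ) := by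
          have e1 : ((b + 1 : ℕ) : ℝ) = r - j := by
            rw [← hb, Nat.cast_sub (by omega)]
          have e2 : ((a + 1 : ℕ) : ℝ) = y - j := by
            rw [← ha, Nat.cast_sub (by omega)]
          rw [e1, e2]
          have hj0 : (0 : ℝ) ≤ j := Nat.cast_nonneg j
          nlinarith [mul_nonneg hj0 (sub_nonneg.mpr hlam)]
        have ha0 : (0 : ℝ) < ((a + 1 : ℕ) : ℝ) := by positivity
        have hc0 : (0 : ℝ) ≤ ((a + 1).choose (b + 1) : ℕ) := Nat.cast_nonneg _
        have h4 : ((a + 1 : ℕ) : ℝ) * (a.choose b : ℕ) ≤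
            ((a + 1 : ℕ) : ℝ) * (lam * ((a + 1).choose (b + 1) : ℕ)) := by
          rw [h2]
          calc (((a + 1).choose (b + 1) : ℕ) : ℝ) * ((b + 1 : ℕ) : ℝ)
              ≤ ((a + 1).choose (b + 1) : ℕ) * (lam * ((a + 1 : ℕ) : ℝ)) :=
                mul_le_mul_of_nonneg_left h3 hc0
            _ = ((a + 1 : ℕ) : ℝ) * (lam * ((a + 1).choose (b + 1) : ℕ)) := by ring
        exact le_of_mul_le_mul_left h4 ha0
      · push Not at hlam
        have h3 : ((a.choose b : ℕ) : ℝ) ≤ ((a + 1).choose (b + 1) : ℕ) := by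
          rw [Nat.choose_succ_succ]
          push_cast
          have : (0 : ℝ) ≤ (a.choose (b + 1) : ℕ) := Nat.cast_nonneg _
          linarith
        have hc0 : (0 : ℝ) ≤ ((a + 1).choose (b + 1) : ℕ) := Nat.cast_nonneg _
        nlinarith
    calc ((a.choose b : ℕ) : ℝ) ≤ lam * ((a + 1).choose (b + 1) : ℕ) := hkey
      _ ≤ lam * ((y.choose r : ℕ) * lam ^ j) := mul_le_mul_of_nonneg_left h1 hl
      _ = (y.choose r : ℕ) * lam ^ (j + 1) := by ring

theorem count_le {V : Type} (A T : Finset V) (hT : T ⊆ A) {lam : ℝ} (hl : 0 ≤ lam)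
    (r : ℕ) (hr : r ≤ A.card) (hrl : (r : ℝ) ≤ lam * A.card) :
    (((A.powersetCard r).filter (fun R => T ⊆ R)).card : ℝ) ≤
      (A.card.choose r : ℕ) * lam ^ T.card := by
  by_cases h : T.card ≤ r
  · refine le_trans ?_ (choose_bound hl A.card r hr hrl T.card h)
    have h1 : ((A.powersetCard r).filter (fun R => T ⊆ R)).card ≤
        ((A \ T).powersetCard (r - T.card)).card := by
      apply Finset.card_le_card_of_injOn (fun R => R \ T)
      · intro R hR
        simp only [Finset.coe_filter, Finset.mem_powersetCard, Set.mem_ofPred_eq] at hR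
        simp only [Finset.mem_coe, Finset.mem_powersetCard]
        refine ⟨Finset.sdiff_subset_sdiff hR.1.1 (subset_refl _), ?_⟩
        rw [Finset.card_sdiff_of_subset hR.2, hR.1.2]
      · intro R hR R' hR' he
        simp only [Finset.coe_filter, Finset.mem_powersetCard, Set.mem_ofPred_eq] at hR hR'
        have he' : R \ T = R' \ T := he
        rw [← Finset.sdiff_union_of_subset hR.2, he', Finset.sdiff_union_of_subset hR'.2]
    rw [Finset.card_powersetCard, Finset.card_sdiff_of_subset hT] at h1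
    exact_mod_cast h1
  · have h0 : (A.powersetCard r).filter (fun R => T ⊆ R) = ∅ := by
      rw [Finset.filter_eq_empty_iff]
      intro R hR hTR
      rw [Finset.mem_powersetCard] at hR
      have := Finset.card_le_card hTR
      omega
    rw [h0, Finset.card_empty, Nat.cast_zero]
    positivity

/-- The elaborated form of the clique count in the statements is the number of `s`-cliques. -/
theorem card_cliques {V : Type} (F : SimpleGraph V) (A : Finset V) (s : ℕ) :
    ((A.powersetCard s).filter (fun T => F.IsClique (T : Set V))).card =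
      ((A.powersetCard s).filter (fun T : Finset V => F.IsClique (T : Set V))).card := by
  have h : ((A.powersetCard s).filter (fun T => F.IsClique (T : Set V))) =
      (((A.powersetCard s).filter (fun T : Finset V => F.IsClique (T : Set V))).image
        (fun T : Finset V => (T : Set V))) := by
    ext T
    rw [Finset.mem_filter, Finset.mem_image]
    constructor
    · rintro ⟨h1, h2⟩
      simp only [Finset.bind_def, Finset.mem_sup, Finset.pure_def, Finset.mem_singleton] at h1
      obtain ⟨a, ha, rfl⟩ := h1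
      exact ⟨a, Finset.mem_filter.mpr ⟨ha, h2⟩, rfl⟩
    · rintro ⟨a, ha, rfl⟩
      rw [Finset.mem_filter] at ha
      refine ⟨?_, ha.2⟩
      simp only [Finset.bind_def, Finset.mem_sup, Finset.pure_def, Finset.mem_singleton]
      exact ⟨a, ha.1, rfl⟩
  rw [h, Finset.card_image_of_injective _ Finset.coe_injective]

theorem avg_lower {V : Type} (F : SimpleGraph V) (A : Finset V) {lam : ℝ} (hl : 0 ≤ lam)
    (r : ℕ) (hr : r ≤ A.card) (hrl : (r : ℝ) ≤ lam * A.card) (s : ℕ) (hs : 1 ≤ s)
    (hcl : (((A.powersetCard s).filter (fun T => F.IsClique (T : Set V))).card : ℝ) * lam ^ s ≤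
      1 / 2) (N : ℝ) (hN0 : 0 ≤ N)
    (hN : ∀ R : Finset V, R ⊆ A → R.card = r →
      (∀ T : Finset V, T ⊆ R → T.card = s → ¬ F.IsClique (T : Set V)) → N ≤ (ind F R).card) :
    N / 2 ≤ ZZ F A lam := by
  have _ := hs
  rw [card_cliques] at hcl
  set P := A.powersetCard r with hP
  set K := (A.powersetCard s).filter (fun T : Finset V => F.IsClique (T : Set V)) with hK
  have hPc : P.card = A.card.choose r := Finset.card_powersetCard r A
  have hPpos : (0 : ℝ) < (A.card.choose r : ℕ) := by exact_mod_cast Nat.choose_pos hr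
  -- the upper bound
  have hupper : (∑ R ∈ P, ((ind F R).card : ℝ)) ≤ (A.card.choose r : ℕ) * ZZ F A lam := by
    have h1 : ∀ R ∈ P, ((ind F R).card : ℝ) = ∑ T ∈ ind F A, if T ⊆ R then (1 : ℝ) else 0 := by
      intro R hR
      rw [hP, Finset.mem_powersetCard] at hR
      have h2 : ind F R = (ind F A).filter (fun T => T ⊆ R) := by
        ext T
        simp only [ind, Finset.mem_filter, Finset.mem_powerset]
        constructor
        · rintro ⟨h3, h4⟩
          exact ⟨⟨h3.trans hR.1, h4⟩, h3⟩
        · rintro ⟨⟨_, h4⟩, h5⟩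
          exact ⟨h5, h4⟩
      rw [h2, Finset.card_filter]
      push_cast
      rfl
    rw [Finset.sum_congr rfl h1, Finset.sum_comm]
    unfold ZZ
    rw [Finset.mul_sum]
    refine Finset.sum_le_sum fun T hT => ?_
    have hTA : T ⊆ A := by
      simp only [ind, Finset.mem_filter, Finset.mem_powerset] at hT
      exact hT.1
    have h3 := count_le A T hTA hl r hr hrl
    rw [Finset.card_filter] at h3
    push_cast at h3
    exact h3
  -- the bad sets
  set B := P.filter (fun R : Finset V => ∃ T ∈ K, T ⊆ R) with hB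
  have hBc : (B.card : ℝ) ≤ (A.card.choose r : ℕ) * (1 / 2) := by
    have h1 : B ⊆ K.biUnion (fun T : Finset V => P.filter (fun R : Finset V => T ⊆ R)) := by
      intro R hR
      rw [hB, Finset.mem_filter] at hR
      obtain ⟨hRP, T, hTK, hTR⟩ := hR
      rw [Finset.mem_biUnion]
      exact ⟨T, hTK, Finset.mem_filter.mpr ⟨hRP, hTR⟩⟩
    have h2 : B.card ≤ ∑ T ∈ K, (P.filter (fun R => T ⊆ R)).card :=
      (Finset.card_le_card h1).trans Finset.card_biUnion_le
    have h3 : (B.card : ℝ) ≤ ∑ T ∈ K, ((P.filter (fun R => T ⊆ R)).card : ℝ) := by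
      exact_mod_cast h2
    refine h3.trans ?_
    have h4 : ∀ T ∈ K, ((P.filter (fun R => T ⊆ R)).card : ℝ) ≤
        (A.card.choose r : ℕ) * lam ^ s := by
      intro T hT
      rw [hK, Finset.mem_filter, Finset.mem_powersetCard] at hT
      have := count_le A T hT.1.1 hl r hr hrl
      rwa [hT.1.2] at this
    refine (Finset.sum_le_sum h4).trans ?_
    rw [Finset.sum_const, nsmul_eq_mul]
    calc (K.card : ℝ) * ((A.card.choose r : ℕ) * lam ^ s)
        = (A.card.choose r : ℕ) * ((K.card : ℝ) * lam ^ s) := by ring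
      _ ≤ (A.card.choose r : ℕ) * (1 / 2) := mul_le_mul_of_nonneg_left hcl hPpos.le
  -- the lower bound
  have hlower : N * ((A.card.choose r : ℕ) / 2) ≤ ∑ R ∈ P, ((ind F R).card : ℝ) := by
    have h1 : ∑ R ∈ P.filter (fun R : Finset V => ¬ ∃ T ∈ K, T ⊆ R), N ≤
        ∑ R ∈ P, ((ind F R).card : ℝ) := by
      refine le_trans (Finset.sum_le_sum ?_)
        (Finset.sum_le_sum_of_subset_of_nonneg (Finset.filter_subset _ _)
          (fun R _ _ => Nat.cast_nonneg _))
      intro R hR
      rw [Finset.mem_filter, hP, Finset.mem_powersetCard] at hR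
      refine hN R hR.1.1 hR.1.2 fun T hTR hTs hTc => hR.2 ⟨T, ?_, hTR⟩
      rw [hK, Finset.mem_filter, Finset.mem_powersetCard]
      exact ⟨⟨hTR.trans hR.1.1, hTs⟩, hTc⟩
    refine le_trans ?_ h1
    rw [Finset.sum_const, nsmul_eq_mul]
    have h2 : ((P.filter (fun R : Finset V => ¬ ∃ T ∈ K, T ⊆ R)).card : ℝ) =
        (A.card.choose r : ℕ) - B.card := by
      have h3 := Finset.card_filter_add_card_filter_not (s := P) (fun R : Finset V => ∃ T ∈ K, T ⊆ R)
      rw [hPc] at h3
      have h4 : (B.card : ℝ) + ((P.filter (fun R : Finset V => ¬ ∃ T ∈ K, T ⊆ R)).card : ℝ) =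
          (A.card.choose r : ℕ) := by exact_mod_cast h3
      linarith
    rw [h2, mul_comm N]
    apply mul_le_mul_of_nonneg_right _ hN0
    linarith
  have h := hlower.trans hupper
  have h' : (A.card.choose r : ℕ) * (N / 2) ≤ (A.card.choose r : ℕ) * ZZ F A lam := by
    calc ((A.card.choose r : ℕ) : ℝ) * (N / 2) = N * ((A.card.choose r : ℕ) / 2) := by ring
      _ ≤ _ := h
  exact le_of_mul_le_mul_left h' hPpos

end MP06c
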