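import Pool.Agent.Lib.MP_06c6c1_co.Defs

set_option autoImplicit false

/-!
# MP_06c6c1_co: cliques are at most the copies of a graph
-/

namespace MP06c

open Finset Classical

namespace Cliquesaux

/-- The copy of `F` on the set `T`, placed by `e`. -/
def copyOn {n : ℕ} (F : SimpleGraph (Fin n)) {V : Type} (G : SimpleGraph V) (T : Finset V)
    (hT : G.IsClique (T : Set V)) (e : Fin n ≃ {x // x ∈ T}) : G.Subgraph where
  verts := (T : Set V)
  Adj u w := ∃ a b, F.Adj a b ∧ (e a : V) = u ∧ (e b : V) = w
  adj_sub := by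
    rintro u w ⟨a, b, hab, rfl, rfl⟩
    apply hT (e a).2 (e b).2
    intro h
    exact hab.ne (e.injective (Subtype.ext h))
  edge_vert := by
    rintro u w ⟨a, b, hab, rfl, rfl⟩
    exact (e a).2
  symm := ⟨by
    rintro u w ⟨a, b, hab, rfl, rfl⟩
    exact ⟨b, a, hab.symm, rfl, rfl⟩⟩

theorem copyOn_iso {n : ℕ} (F : SimpleGraph (Fin n)) {V : Type} (G : SimpleGraph V)
    (T : Finset V) (hT : G.IsClique (T : Set V)) (e : Fin n ≃ {x // x ∈ T}) :
    Nonempty (F ≃g (copyOn F G T hT e).coe) := by
  refine ⟨⟨e, ?_⟩⟩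
  intro a b
  constructor
  · rintro ⟨a', b', hab, h1, h2⟩
    have h1' : a' = a := e.injective (Subtype.ext h1)
    have h2' : b' = b := e.injective (Subtype.ext h2)
    subst h1' h2'
    exact hab
  · intro hab
    exact ⟨a, b, hab, rfl, rfl⟩

theorem finite_subgraph {V : Type} [Fintype V] (G : SimpleGraph V) : Finite G.Subgraph := by
  apply Finite.of_injective (fun H : G.Subgraph => ((H.verts, H.Adj) : Set V × (V → V → Prop)))
  intro H H' h
  simp only [Prod.mk.injEq] at h
  exact SimpleGraph.Subgraph.ext h.1 h.2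

end Cliquesaux

/-- The statement with an explicit binder type. -/
theorem cliques_le_copies' {n : ℕ} (F : SimpleGraph (Fin n)) {V : Type} [Fintype V]
    (G : SimpleGraph V) (v : V) :
    (((nb G v).powersetCard n).filter (fun T : Finset V => G.IsClique (T : Set V))).card ≤
      ({H : G.Subgraph | H.verts ⊆ G.neighborSet v ∧ Nonempty (F ≃g H.coe)} :
          Set G.Subgraph).ncard := by
  have := Cliquesaux.finite_subgraph G
  have key : ∀ T : Finset V,
      T ∈ ((nb G v).powersetCard n).filter (fun T : Finset V => G.IsClique (T : Set V)) →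
      ∃ H : G.Subgraph, H ∈ ({H : G.Subgraph | H.verts ⊆ G.neighborSet v ∧
        Nonempty (F ≃g H.coe)} : Set G.Subgraph) ∧ H.verts = (T : Set V) := by
    intro T hT
    rw [mem_filter, mem_powersetCard] at hT
    obtain ⟨⟨hsub, hcard⟩, hcl⟩ := hT
    have e : Fin n ≃ {x // x ∈ T} := (T.equivFinOfCardEq hcard).symm
    refine ⟨Cliquesaux.copyOn F G T hcl e, ⟨?_, Cliquesaux.copyOn_iso F G T hcl e⟩, rfl⟩
    intro x hx
    have hx' : x ∈ nb G v := hsub hx
    rw [nb, mem_filter] at hx'
    exact hx'.2
  choose! f hf using key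
  rw [← Set.ncard_coe_finset]
  refine Set.ncard_le_ncard_of_injOn f (fun T hT => (hf T hT).1) ?_ (Set.toFinite _)
  intro T hT T' hT' h
  have h1 := (hf T hT).2
  have h2 := (hf T' hT').2
  rw [h, h2] at h1
  exact (Finset.coe_injective h1).symm

/-- The elaborated form of the Spec (sets instead of finsets) has the same cardinality. -/
theorem card_clique_form {V : Type} (G : SimpleGraph V) (A : Finset V) (n : ℕ) :
    ((A.powersetCard n).filter (fun T => G.IsClique (T : Set V))).card =
      ((A.powersetCard n).filter (fun T : Finset V => G.IsClique (T : Set V))).card := by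
  symm
  apply Finset.card_bij (fun (T : Finset V) _ => (T : Set V))
  · intro T hT
    rw [mem_filter] at hT ⊢
    refine ⟨?_, hT.2⟩
    simp only [Finset.bind_def, Finset.pure_def, Finset.mem_sup, Finset.mem_singleton]
    exact ⟨T, hT.1, rfl⟩
  · intro T _ T' _ h
    exact Finset.coe_injective h
  · intro T hT
    rw [mem_filter] at hT
    simp only [Finset.bind_def, Finset.pure_def, Finset.mem_sup, Finset.mem_singleton] at hT
    obtain ⟨⟨S, hS, rfl⟩, hc⟩ := hT
    exact ⟨S, by rw [mem_filter]; exact ⟨hS, hc⟩, rfl⟩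

theorem cliques_le_copies {n : ℕ} (F : SimpleGraph (Fin n)) {V : Type} [Fintype V]
    (G : SimpleGraph V) (v : V) :
    (((nb G v).powersetCard n).filter (fun T => G.IsClique (T : Set V))).card ≤
      ({H : G.Subgraph | H.verts ⊆ G.neighborSet v ∧ Nonempty (F ≃g H.coe)} :
          Set G.Subgraph).ncard := by
  rw [card_clique_form]
  exact cliques_le_copies' F G v

end MP06c
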