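import Pool.Agent.Lib.MP_06c6c1_co.Greedy
import Pool.Agent.Lib.MP_06c6c1_co.Cliques

set_option autoImplicit false

/-!
# MP_06c6c1_co: elementary facts for the final theorems
-/

namespace MP06c

open Finset Classical

/-- Number of copies of `F` in the neighbourhood of `v`. -/
noncomputable def cop {n : ℕ} (F : SimpleGraph (Fin n)) {V : Type} (G : SimpleGraph V) (v : V) :
    ℕ :=
  ({H : G.Subgraph | H.verts ⊆ G.neighborSet v ∧ Nonempty (F ≃g H.coe)} : Set G.Subgraph).ncard

theorem nb_card {V : Type} [Fintype V] (G : SimpleGraph V) (v : V) :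
    (nb G v).card = (G.neighborSet v).ncard := by
  rw [← Set.ncard_coe_finset]
  congr 1
  ext u
  simp [nb]

theorem gfacts {n Δ : ℕ} (hn : 1 ≤ n) (hΔ : 0 < Δ) {k : ℝ} (hk : 1 / 2 ≤ k)
    (hk2 : k < (Δ : ℝ) ^ n) :
    1 < (Δ : ℝ) * k ^ (-(1 : ℝ) / (n : ℝ)) ∧ (Δ : ℝ) * k ^ (-(1 : ℝ) / (n : ℝ)) ≤ 2 * Δ ∧
      k = ((Δ : ℝ) / ((Δ : ℝ) * k ^ (-(1 : ℝ) / (n : ℝ)))) ^ n := by
  have hk0 : 0 < k := by linarith
  have hΔ' : (0 : ℝ) < Δ := by exact_mod_cast hΔ
  have hn0 : n ≠ 0 := by omega
  set x : ℝ := k ^ ((n : ℝ)⁻¹) with hx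
  have hx0 : 0 < x := Real.rpow_pos_of_pos hk0 _
  have hxn : x ^ n = k := Real.rpow_inv_natCast_pow hk0.le hn0
  have hinv : k ^ (-(1 : ℝ) / (n : ℝ)) = x⁻¹ := by
    rw [hx, ← Real.rpow_neg hk0.le]
    congr 1
    ring
  rw [hinv]
  have h1 : x < Δ := by
    by_contra hc
    push Not at hc
    have := pow_le_pow_left₀ hΔ'.le hc n
    linarith
  have h2 : 1 / 2 ≤ x := by
    by_contra hc
    push Not at hc
    have h3 : x ^ n ≤ x := by
      calc x ^ n ≤ x ^ 1 := pow_le_pow_of_le_one hx0.le (by linarith) hn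
        _ = x := pow_one x
    linarith
  refine ⟨?_, ?_, ?_⟩
  · rw [← div_eq_mul_inv, lt_div_iff₀ hx0]
    linarith
  · have h4 : x⁻¹ ≤ 2 := by
      rw [inv_le_comm₀ hx0 (by norm_num)]
      linarith
    nlinarith
  · rw [← div_eq_mul_inv, div_div_cancel₀ hΔ'.ne']
    exact hxn.symm

theorem greedy_case {V : Type} [Fintype V] {m : ℕ} (G : SimpleGraph V)
    {M : V → V → Fin m → Fin m → Prop} (hM : IsCover M) (hm : ∀ v, (nb G v).card < m) :
    ∃ φ : V → Fin m, ∀ u v, G.Adj u v → ¬ M u v (φ u) (φ v) := by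
  refine greedy_finish G hM (fun _ => none) ?_ ?_
  · intro u v i j _ h
    simp at h
  · intro v _
    have h1 : avail G M (fun _ => none) v = univ := by
      ext i
      simp [avail]
    rw [h1, Finset.card_univ, Fintype.card_fin]
    exact lt_of_le_of_lt (Finset.card_filter_le _ _) (hm v)

theorem two_le {n : ℕ} (F : SimpleGraph (Fin n)) {Δ : ℕ} {k : ℝ} (hk2 : k < (Δ : ℝ) ^ n)
    {V : Type} [Fintype V] (G : SimpleGraph V) {v : V} (hv : (nb G v).card = Δ)
    (hc : (cop F G v : ℝ) ≤ k) : 2 ≤ n := by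
  have h0 := cliques_le_copies' F G v
  have h1 : ((((nb G v).powersetCard n).filter (fun T : Finset V => G.IsClique (T : Set V))).card : ℝ) ≤
      cop F G v := by exact_mod_cast h0
  by_contra hn
  push Not at hn
  interval_cases n
  · have : (((nb G v).powersetCard 0).filter (fun T : Finset V => G.IsClique (T : Set V))).card = 1 := by
      rw [Finset.filter_true_of_mem]
      · simp
      · intro T hT
        simp only [Finset.powersetCard_zero, Finset.mem_singleton] at hT
        subst hT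
        simp
    rw [this] at h1
    simp only [pow_zero] at hk2
    push_cast at h1
    linarith
  · have : (((nb G v).powersetCard 1).filter (fun T : Finset V => G.IsClique (T : Set V))).card = Δ := by
      rw [Finset.filter_true_of_mem]
      · simp [hv]
      · intro T hT
        rw [Finset.mem_powersetCard] at hT
        obtain ⟨x, rfl⟩ := Finset.card_eq_one.1 hT.2
        simp
    rw [this] at h1
    simp only [pow_one] at hk2
    linarith

end MP06c
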