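import Pool.Agent.Lib.MP_06c6c1_co.Defs

set_option autoImplicit false

namespace MP06c

open Finset Classical

namespace Block

lemma exp_neg_le {y : ℝ} (hy : 0 ≤ y) : Real.exp (-y) ≤ 1 - y + y ^ 2 / 2 := by
  have h1 := Real.quadratic_le_exp_of_nonneg hy
  have h2 : 0 < Real.exp y := Real.exp_pos y
  have h3 : 0 < 1 - y + y ^ 2 / 2 := by nlinarith [sq_nonneg (y - 1)]
  rw [Real.exp_neg, inv_le_iff_one_le_mul₀ h2]
  have h4 : (1 - y + y ^ 2 / 2) * (1 + y + y ^ 2 / 2) = 1 + y ^ 4 / 4 := by ring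
  have h5 := mul_le_mul_of_nonneg_left h1 h3.le
  have h6 : 0 ≤ y ^ 4 / 4 := by positivity
  linarith

end Block

theorem block {V : Type} (F : SimpleGraph V) (A : Finset V) {lam eps sig kap : ℝ} (hl : 0 ≤ lam)
    (he : 0 ≤ eps) (hs : 0 ≤ sig) (hk : kap * ZZ F A lam ≤ sig + SS F A lam)
    (D : ℝ) (hD : (A.card : ℝ) ≤ D)
    (hone : 1 ≤ ZZ F A lam)
    (hsec : ∑ T ∈ ind F A, (T.card : ℝ) ^ 2 * lam ^ T.card ≤
      (lam * A.card + (lam * A.card) ^ 2) * ZZ F A lam) :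
    ∑ T ∈ ind F A, lam ^ T.card * phi eps sig T.card ≤
      Real.exp (-(eps * kap) + eps ^ 2 * (sig ^ 2 + lam * D + (lam * D) ^ 2) / 2) *
        ZZ F A lam := by
  have hphi : ∀ n : ℕ, phi eps sig n ≤
      1 - eps * ((if n = 0 then sig else 0) + n) +
        eps ^ 2 / 2 * ((if n = 0 then sig ^ 2 else 0) + (n : ℝ) ^ 2) := by
    intro n
    have hx : 0 ≤ (if n = 0 then sig else 0) + (n : ℝ) := by
      split_ifs <;> positivity
    refine (Block.exp_neg_le (mul_nonneg he hx)).trans (le_of_eq ?_)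
    by_cases hn : n = 0
    · subst hn; simp; ring
    · simp [hn]; ring
  have hempty : (∅ : Finset V) ∈ ind F A := by simp [ind]
  have hs1 : ∀ s : ℝ, ∑ T ∈ ind F A, lam ^ T.card * (if T.card = 0 then s else 0) = s := by
    intro s
    rw [sum_eq_single_of_mem _ hempty]
    · simp
    · intro T _ hT
      have : T.card ≠ 0 := fun h => hT (card_eq_zero.1 h)
      simp [this]
  have hZ0 : 0 ≤ ZZ F A lam := zero_le_one.trans hone
  have hA0 : (0 : ℝ) ≤ A.card := Nat.cast_nonneg _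
  have e1 : ∑ T ∈ ind F A, lam ^ T.card * phi eps sig T.card ≤
      ZZ F A lam - eps * (sig + SS F A lam) +
        eps ^ 2 / 2 * (sig ^ 2 + ∑ T ∈ ind F A, (T.card : ℝ) ^ 2 * lam ^ T.card) := by
    have e2 : ∀ T ∈ ind F A, lam ^ T.card * phi eps sig T.card ≤
        lam ^ T.card - eps * (lam ^ T.card * (if T.card = 0 then sig else 0) +
          (T.card : ℝ) * lam ^ T.card) + eps ^ 2 / 2 *
          (lam ^ T.card * (if T.card = 0 then sig ^ 2 else 0) + (T.card : ℝ) ^ 2 * lam ^ T.card) := by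
      intro T _
      refine (mul_le_mul_of_nonneg_left (hphi T.card) (pow_nonneg hl T.card)).trans (le_of_eq ?_)
      ring
    refine (sum_le_sum e2).trans (le_of_eq ?_)
    rw [sum_add_distrib, sum_sub_distrib, ← mul_sum, ← mul_sum, sum_add_distrib, sum_add_distrib,
      hs1, hs1]
    rfl
  have e3 : lam * A.card + (lam * A.card) ^ 2 ≤ lam * D + (lam * D) ^ 2 := by
    have h1 : lam * A.card ≤ lam * D := mul_le_mul_of_nonneg_left hD hl
    have h2 : 0 ≤ lam * A.card := mul_nonneg hl hA0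
    nlinarith
  have e4 : ∑ T ∈ ind F A, (T.card : ℝ) ^ 2 * lam ^ T.card ≤
      (lam * D + (lam * D) ^ 2) * ZZ F A lam :=
    hsec.trans (mul_le_mul_of_nonneg_right e3 hZ0)
  have e5 : sig ^ 2 ≤ sig ^ 2 * ZZ F A lam := by nlinarith [sq_nonneg sig]
  have e6 : eps ^ 2 / 2 * (sig ^ 2 + ∑ T ∈ ind F A, (T.card : ℝ) ^ 2 * lam ^ T.card) ≤
      eps ^ 2 / 2 * ((sig ^ 2 + lam * D + (lam * D) ^ 2) * ZZ F A lam) := by
    refine mul_le_mul_of_nonneg_left ?_ (by positivity)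
    nlinarith
  have e7 : eps * (kap * ZZ F A lam) ≤ eps * (sig + SS F A lam) :=
    mul_le_mul_of_nonneg_left hk he
  have e8 := Real.add_one_le_exp
    (-(eps * kap) + eps ^ 2 * (sig ^ 2 + lam * D + (lam * D) ^ 2) / 2)
  have e9 := mul_le_mul_of_nonneg_right e8 hZ0
  have e10 : (-(eps * kap) + eps ^ 2 * (sig ^ 2 + lam * D + (lam * D) ^ 2) / 2 + 1) *
      ZZ F A lam = ZZ F A lam - eps * (kap * ZZ F A lam) + eps ^ 2 / 2 *
        ((sig ^ 2 + lam * D + (lam * D) ^ 2) * ZZ F A lam) := by ring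
  rw [e10] at e9
  linarith

end MP06c
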