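import Mathlib

set_option autoImplicit false

/-!
# Definitions for MP_06c6c1_co (correspondence colouring of locally sparse graphs)

* `IsCover M`: symmetric matching cover with colours `Fin m`.
* a colouring of some of the vertices is a function `I : V → Option (Fin m)`.
* `Valid G M I`: no edge of `G` has both ends coloured with matched colours.
* `wt lam I = lam ^ (number of coloured vertices)`.
* `avail G M I v`: the colours of `v` which are not matched to the colour of a coloured neighbour.
* `ind F A`: the independent sets of `F` inside `A`; `ZZ` and `SS` are the hard-core sums.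
-/

namespace MP06c

open Finset Classical

/-- Symmetric matching cover. -/
structure IsCover {V : Type} {m : ℕ} (M : V → V → Fin m → Fin m → Prop) : Prop where
  symm : ∀ u v i j, M u v i j ↔ M v u j i
  right : ∀ u v i j j', M u v i j → M u v i j' → j = j'
  left : ∀ u v i i' j, M u v i j → M u v i' j → i = i'

/-- No edge with matched colours. -/
def Valid {V : Type} {m : ℕ} (G : SimpleGraph V) (M : V → V → Fin m → Fin m → Prop)
    (I : V → Option (Fin m)) : Prop :=
  ∀ u v i j, G.Adj u v → I u = some i → I v = some j → ¬ M u v i j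

/-- Weight of a colouring of some vertices. -/
noncomputable def wt {V : Type} [Fintype V] {m : ℕ} (lam : ℝ) (I : V → Option (Fin m)) : ℝ :=
  ∏ v, if I v = none then 1 else lam

/-- Colours available at `v`. -/
noncomputable def avail {V : Type} {m : ℕ} (G : SimpleGraph V) (M : V → V → Fin m → Fin m → Prop)
    (I : V → Option (Fin m)) (v : V) : Finset (Fin m) :=
  univ.filter (fun i => ∀ w j, G.Adj v w → I w = some j → ¬ M v w i j)

/-- Neighbours of `v` as a finset. -/
noncomputable def nb {V : Type} [Fintype V] (G : SimpleGraph V) (v : V) : Finset V :=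
  univ.filter (fun u => G.Adj v u)

/-- Valid colourings leaving `v` uncoloured and agreeing with `J` off the closed neighbourhood. -/
noncomputable def Loc {V : Type} [Fintype V] {m : ℕ} (G : SimpleGraph V)
    (M : V → V → Fin m → Fin m → Prop) (v : V) (J : V → Option (Fin m)) :
    Finset (V → Option (Fin m)) :=
  univ.filter (fun I => Valid G M I ∧ I v = none ∧ ∀ x, x ≠ v → ¬ G.Adj v x → I x = J x)

/-- Independent sets of `F` contained in `A`. -/
noncomputable def ind {V : Type} (F : SimpleGraph V) (A : Finset V) : Finset (Finset V) :=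
  A.powerset.filter (fun T => ∀ x ∈ T, ∀ y ∈ T, ¬ F.Adj x y)

/-- Hard-core sum. -/
noncomputable def ZZ {V : Type} (F : SimpleGraph V) (A : Finset V) (lam : ℝ) : ℝ :=
  ∑ T ∈ ind F A, lam ^ T.card

/-- Hard-core sum weighted by the size. -/
noncomputable def SS {V : Type} (F : SimpleGraph V) (A : Finset V) (lam : ℝ) : ℝ :=
  ∑ T ∈ ind F A, (T.card : ℝ) * lam ^ T.card

/-! ## Definitions of the second layer -/

/-- The neighbours of `v` whose colour is matched to the colour `c` of `v`. -/
noncomputable def blk {V : Type} [Fintype V] {m : ℕ} (G : SimpleGraph V)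
    (M : V → V → Fin m → Fin m → Prop) (v : V) (c : Fin m) (I : V → Option (Fin m)) : Finset V :=
  univ.filter (fun u => G.Adj v u ∧ ∃ i, I u = some i ∧ M v u c i)

/-- Uncolour the block of `c`. -/
noncomputable def strip {V : Type} [Fintype V] {m : ℕ} (G : SimpleGraph V)
    (M : V → V → Fin m → Fin m → Prop) (v : V) (c : Fin m) (I : V → Option (Fin m)) :
    V → Option (Fin m) :=
  fun u => if u ∈ blk G M v c I then none else I u

/-- Uncoloured neighbours of `v` at which the partner of `c` is available. -/
noncomputable def Ab {V : Type} [Fintype V] {m : ℕ} (G : SimpleGraph V)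
    (M : V → V → Fin m → Fin m → Prop) (v : V) (c : Fin m) (I : V → Option (Fin m)) : Finset V :=
  univ.filter (fun u => G.Adj v u ∧ I u = none ∧ ∃ i, M v u c i ∧ i ∈ avail G M I u)

/-- Conflict graph of the colour `c` of `v`. -/
def Fb {V : Type} {m : ℕ} (G : SimpleGraph V) {M : V → V → Fin m → Fin m → Prop}
    (hM : IsCover M) (v : V) (c : Fin m) : SimpleGraph V where
  Adj u w := G.Adj u w ∧ ∃ i j, M v u c i ∧ M v w c j ∧ M u w i j
  symm := ⟨by
    rintro u w ⟨h1, i, j, h2, h3, h4⟩
    exact ⟨h1.symm, j, i, h3, h2, (hM.symm u w i j).1 h4⟩⟩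
  loopless := ⟨fun u h => G.loopless.irrefl u h.1⟩

/-- The test function of the block. -/
noncomputable def phi (eps sig : ℝ) (n : ℕ) : ℝ :=
  Real.exp (-(eps * ((if n = 0 then sig else 0) + n)))

/-- Homomorphisms from `K_{n,n}` into `Y`. -/
noncomputable def Knn {V : Type} (G : SimpleGraph V) (Y : Finset V) (n : ℕ) :
    Finset ((Fin n → V) × (Fin n → V)) :=
  ((Fintype.piFinset (fun _ : Fin n => Y)) ×ˢ (Fintype.piFinset (fun _ : Fin n => Y))).filter
    (fun p => ∀ i j, G.Adj (p.1 i) (p.2 j))

/-- Injective homomorphisms from `F` into `Y`. -/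
noncomputable def injH {n : ℕ} (F : SimpleGraph (Fin n)) {V : Type} (G : SimpleGraph V)
    (Y : Finset V) : Finset (Fin n → V) :=
  (Fintype.piFinset (fun _ : Fin n => Y)).filter
    (fun f => Function.Injective f ∧ ∀ a b, F.Adj a b → G.Adj (f a) (f b))

end MP06c
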