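import Pool.Agent.Lib.MP_06c6c1_co.Defs

set_option autoImplicit false

namespace MP06c

open Finset Classical

/-- Greedy independent set. -/
theorem ramsey_greedy {V : Type} (F : SimpleGraph V) (D : ℕ) (hD : 1 ≤ D) (t : ℕ) :
    ∀ R : Finset V, (∀ x ∈ R, (R.filter (fun y => F.Adj x y)).card < D) → t * D ≤ R.card →
      ∃ T : Finset V, T ⊆ R ∧ T.card = t ∧ ∀ x ∈ T, ∀ y ∈ T, ¬ F.Adj x y := by
  induction t with
  | zero =>
    intro R _ _
    exact ⟨∅, empty_subset _, rfl, by simp⟩
  | succ t ih =>
    intro R hdeg hR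
    have hne : R.Nonempty := by
      rw [← card_pos]
      have : 1 * 1 ≤ (t + 1) * D := Nat.mul_le_mul (by omega) hD
      omega
    obtain ⟨x, hx⟩ := hne
    set R' : Finset V := R.filter (fun y => ¬ F.Adj x y ∧ y ≠ x) with hR'
    have hsub : R' ⊆ R := filter_subset _ _
    have hcard : R.card ≤ R'.card + D := by
      have h1 : R ⊆ R' ∪ insert x (R.filter (fun y => F.Adj x y)) := by
        intro y hy
        rw [mem_union, mem_insert, mem_filter, mem_filter]
        by_cases h : F.Adj x y
        · exact Or.inr (Or.inr ⟨hy, h⟩)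
        · by_cases h' : y = x
          · exact Or.inr (Or.inl h')
          · exact Or.inl ⟨hy, h, h'⟩
      have h2 := card_le_card h1
      have h3 := card_union_le R' (insert x (R.filter (fun y => F.Adj x y)))
      have h4 := card_insert_le x (R.filter (fun y => F.Adj x y))
      have h5 := hdeg x hx
      omega
    obtain ⟨T, hT, hTc, hTi⟩ := ih R'
      (fun y hy => lt_of_le_of_lt (card_le_card (filter_subset_filter _ hsub)) (hdeg y (hsub hy)))
      (by rw [Nat.succ_mul] at hR; omega)
    have hxT : x ∉ T := by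
      intro h
      have := hT h
      rw [hR', mem_filter] at this
      exact this.2.2 rfl
    refine ⟨insert x T, ?_, ?_, ?_⟩
    · intro y hy
      rcases mem_insert.1 hy with rfl | hy
      · exact hx
      · exact hsub (hT hy)
    · rw [card_insert_of_notMem hxT, hTc]
    · have hadj : ∀ y ∈ T, ¬ F.Adj x y := by
        intro y hy
        have := hT hy
        rw [hR', mem_filter] at this
        exact this.2.1
      intro y hy z hz
      rcases mem_insert.1 hy with h1 | h1
      · rcases mem_insert.1 hz with h2 | h2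
        · rw [h1, h2]
          exact F.loopless.irrefl x
        · rw [h1]
          exact hadj z h2
      · rcases mem_insert.1 hz with h2 | h2
        · rw [h2]
          exact fun h => hadj y h1 h.symm
        · exact hTi y h1 z h2

theorem ramsey_aux {V : Type} (F : SimpleGraph V) (t : ℕ) (s : ℕ) :
    ∀ R : Finset V, t ^ s ≤ R.card →
      (∀ T : Finset V, T ⊆ R → T.card = s + 1 → ¬ F.IsClique (T : Set V)) →
      ∃ T : Finset V, T ⊆ R ∧ T.card = t ∧ ∀ x ∈ T, ∀ y ∈ T, ¬ F.Adj x y := by
  induction s with
  | zero =>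
    intro R hR hfree
    rw [pow_zero] at hR
    obtain ⟨x, hx⟩ := card_pos.1 (show 0 < R.card by omega)
    exact absurd (by simp) (hfree {x} (singleton_subset_iff.2 hx) (by simp))
  | succ s ih =>
    intro R hR hfree
    rcases Nat.eq_zero_or_pos t with rfl | ht
    · exact ⟨∅, empty_subset _, rfl, by simp⟩
    by_cases hbig : ∃ x ∈ R, t ^ s ≤ (R.filter (fun y => F.Adj x y)).card
    · obtain ⟨x, hx, hxc⟩ := hbig
      obtain ⟨T, hT, hTc, hTi⟩ := ih (R.filter (fun y => F.Adj x y)) hxc (by
        intro T hT hTc hcl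
        have hxT : x ∉ T := by
          intro h
          have := hT h
          rw [mem_filter] at this
          exact F.loopless.irrefl x this.2
        refine hfree (insert x T) ?_ (by rw [card_insert_of_notMem hxT, hTc]) ?_
        · intro y hy
          rcases mem_insert.1 hy with rfl | hy
          · exact hx
          · exact (mem_filter.1 (hT hy)).1
        · rw [coe_insert, SimpleGraph.isClique_insert]
          exact ⟨hcl, fun y hy _ => (mem_filter.1 (hT hy)).2⟩)
      exact ⟨T, hT.trans (filter_subset _ _), hTc, hTi⟩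
    · push Not at hbig
      refine ramsey_greedy F (t ^ s) (Nat.one_le_pow _ _ ht) t R hbig ?_
      rw [pow_succ, mul_comm] at hR
      exact hR

theorem ramsey {V : Type} (F : SimpleGraph V) (s t : ℕ) (hs : 1 ≤ s) (R : Finset V)
    (hR : t ^ (s - 1) ≤ R.card)
    (hfree : ∀ T : Finset V, T ⊆ R → T.card = s → ¬ F.IsClique (T : Set V)) :
    ∃ T : Finset V, T ⊆ R ∧ T.card = t ∧ ∀ x ∈ T, ∀ y ∈ T, ¬ F.Adj x y :=
  ramsey_aux F t (s - 1) R hR (by rwa [Nat.sub_add_cancel hs])

end MP06c
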