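import Pool.Agent.Lib.MP_06c6c1_co.Defs

set_option autoImplicit false

/-!
# The fibre lemma for MP_06c6c1_co

Colourings in `Loc` correspond to pairs (stripped colouring, independent set of the block).
-/

namespace MP06c

open Finset Classical

namespace FibreAux

theorem mem_blk {V : Type} [Fintype V] {m : ℕ} {G : SimpleGraph V}
    {M : V → V → Fin m → Fin m → Prop} {v : V} {c : Fin m} {I : V → Option (Fin m)} {u : V} :
    u ∈ blk G M v c I ↔ G.Adj v u ∧ ∃ i, I u = some i ∧ M v u c i := by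
  simp [blk]

theorem mem_Ab {V : Type} [Fintype V] {m : ℕ} {G : SimpleGraph V}
    {M : V → V → Fin m → Fin m → Prop} {v : V} {c : Fin m} {I : V → Option (Fin m)} {u : V} :
    u ∈ Ab G M v c I ↔ G.Adj v u ∧ I u = none ∧ ∃ i, M v u c i ∧ i ∈ avail G M I u := by
  simp [Ab]

theorem mem_avail {V : Type} {m : ℕ} {G : SimpleGraph V}
    {M : V → V → Fin m → Fin m → Prop} {I : V → Option (Fin m)} {u : V} {i : Fin m} :
    i ∈ avail G M I u ↔ ∀ w j, G.Adj u w → I w = some j → ¬ M u w i j := by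
  simp [avail]

theorem mem_Loc {V : Type} [Fintype V] {m : ℕ} {G : SimpleGraph V}
    {M : V → V → Fin m → Fin m → Prop} {v : V} {J I : V → Option (Fin m)} :
    I ∈ Loc G M v J ↔ Valid G M I ∧ I v = none ∧ ∀ x, x ≠ v → ¬ G.Adj v x → I x = J x := by
  simp [Loc]

theorem mem_ind {V : Type} {F : SimpleGraph V} {A T : Finset V} :
    T ∈ ind F A ↔ T ⊆ A ∧ ∀ x ∈ T, ∀ y ∈ T, ¬ F.Adj x y := by
  simp [ind]

/-- Colour the vertices of `T` by the partners of `c`. -/
noncomputable def fill {V : Type} {m : ℕ} (M : V → V → Fin m → Fin m → Prop) (v : V) (c : Fin m)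
    (ω : V → Option (Fin m)) (T : Finset V) : V → Option (Fin m) :=
  fun u => if u ∈ T then (if h : ∃ i, M v u c i then some h.choose else none) else ω u

section

variable {V : Type} [Fintype V] {m : ℕ} {G : SimpleGraph V}
  {M : V → V → Fin m → Fin m → Prop} {v : V} {c : Fin m}

theorem strip_of_mem {I : V → Option (Fin m)} {u : V} (h : u ∈ blk G M v c I) :
    strip G M v c I u = none := by
  simp [strip, h]

theorem strip_of_not_mem {I : V → Option (Fin m)} {u : V} (h : u ∉ blk G M v c I) :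
    strip G M v c I u = I u := by
  simp [strip, h]

theorem of_strip {I : V → Option (Fin m)} {u : V} {i : Fin m}
    (h : strip G M v c I u = some i) : I u = some i := by
  by_cases hu : u ∈ blk G M v c I
  · rw [strip_of_mem hu] at h; cases h
  · rwa [strip_of_not_mem hu] at h

theorem strip_mem_Loc {J I : V → Option (Fin m)} (hI : I ∈ Loc G M v J) :
    strip G M v c I ∈ Loc G M v J := by
  obtain ⟨h1, h2, h3⟩ := mem_Loc.1 hI
  refine mem_Loc.2 ⟨?_, ?_, ?_⟩
  · intro u w i j huw hu hw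
    exact h1 u w i j huw (of_strip hu) (of_strip hw)
  · by_cases hv : v ∈ blk G M v c I
    · exact strip_of_mem hv
    · rw [strip_of_not_mem hv]; exact h2
  · intro x hx hvx
    have hx' : x ∉ blk G M v c I := fun h => hvx (mem_blk.1 h).1
    rw [strip_of_not_mem hx']
    exact h3 x hx hvx

theorem blk_strip_self (I : V → Option (Fin m)) : blk G M v c (strip G M v c I) = ∅ := by
  apply Finset.eq_empty_of_forall_notMem
  intro u hu
  obtain ⟨h1, i, h2, h3⟩ := mem_blk.1 hu
  have h4 := of_strip h2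
  have h5 : u ∈ blk G M v c I := mem_blk.2 ⟨h1, i, h4, h3⟩
  rw [strip_of_mem h5] at h2
  cases h2

theorem blk_mem_ind (hM : IsCover M) {J I : V → Option (Fin m)} (hI : I ∈ Loc G M v J) :
    blk G M v c I ∈ ind (Fb G hM v c) (Ab G M v c (strip G M v c I)) := by
  obtain ⟨h1, h2, h3⟩ := mem_Loc.1 hI
  refine mem_ind.2 ⟨?_, ?_⟩
  · intro u hu
    obtain ⟨h4, i, h5, h6⟩ := mem_blk.1 hu
    refine mem_Ab.2 ⟨h4, strip_of_mem hu, i, h6, mem_avail.2 ?_⟩
    intro w j huw hw
    exact h1 u w i j huw h5 (of_strip hw)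
  · intro x hx y hy hxy
    obtain ⟨h4, i, h5, h6⟩ := mem_blk.1 hx
    obtain ⟨h7, j, h8, h9⟩ := mem_blk.1 hy
    obtain ⟨h10, i', j', h11, h12, h13⟩ := hxy
    have e1 : i' = i := hM.right _ _ _ _ _ h11 h6
    have e2 : j' = j := hM.right _ _ _ _ _ h12 h9
    subst e1 e2
    exact h1 x y i' j' h10 h5 h8 h13

omit [Fintype V] in
theorem fill_of_partner (hM : IsCover M) {ω : V → Option (Fin m)} {T : Finset V} {u : V}
    (hu : u ∈ T) {i : Fin m} (hi : M v u c i) : fill M v c ω T u = some i := by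
  have h : ∃ i, M v u c i := ⟨i, hi⟩
  simp only [fill, hu, if_true, h, dif_pos]
  rw [hM.right _ _ _ _ _ h.choose_spec hi]

omit [Fintype V] in
theorem fill_of_not_mem {ω : V → Option (Fin m)} {T : Finset V} {u : V} (hu : u ∉ T) :
    fill M v c ω T u = ω u := by
  simp [fill, hu]

theorem fill_strip_blk (hM : IsCover M) (I : V → Option (Fin m)) :
    fill M v c (strip G M v c I) (blk G M v c I) = I := by
  funext u
  by_cases hu : u ∈ blk G M v c I
  · obtain ⟨_, i, h5, h6⟩ := mem_blk.1 hu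
    rw [fill_of_partner hM hu h6, h5]
  · rw [fill_of_not_mem hu, strip_of_not_mem hu]

theorem fill_mem_Loc (hM : IsCover M) {J ω : V → Option (Fin m)} {T : Finset V}
    (hω : ω ∈ Loc G M v J) (hT : T ∈ ind (Fb G hM v c) (Ab G M v c ω)) :
    fill M v c ω T ∈ Loc G M v J := by
  obtain ⟨h1, h2, h3⟩ := mem_Loc.1 hω
  obtain ⟨hTA, hTi⟩ := mem_ind.1 hT
  have key : ∀ u w i j, u ∈ T → w ∉ T → G.Adj u w → fill M v c ω T u = some i →
      ω w = some j → ¬ M u w i j := by
    intro u w i j hu hw huw hui hwj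
    obtain ⟨_, _, i', h6, h7⟩ := mem_Ab.1 (hTA hu)
    rw [fill_of_partner hM hu h6] at hui
    cases hui
    exact mem_avail.1 h7 w j huw hwj
  refine mem_Loc.2 ⟨?_, ?_, ?_⟩
  · intro u w i j huw hu hw
    by_cases huT : u ∈ T
    · by_cases hwT : w ∈ T
      · obtain ⟨_, _, i', h6, _⟩ := mem_Ab.1 (hTA huT)
        obtain ⟨_, _, j', h8, _⟩ := mem_Ab.1 (hTA hwT)
        rw [fill_of_partner hM huT h6] at hu
        rw [fill_of_partner hM hwT h8] at hw
        cases hu
        cases hw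
        intro hm
        exact hTi u huT w hwT ⟨huw, _, _, h6, h8, hm⟩
      · rw [fill_of_not_mem hwT] at hw
        exact key u w i j huT hwT huw hu hw
    · by_cases hwT : w ∈ T
      · rw [fill_of_not_mem huT] at hu
        intro hm
        exact key w u j i hwT huT huw.symm hw hu ((hM.symm _ _ _ _).1 hm)
      · rw [fill_of_not_mem hwT] at hw
        rw [fill_of_not_mem huT] at hu
        exact h1 u w i j huw hu hw
  · have hv : v ∉ T := fun h => G.loopless.irrefl v (mem_Ab.1 (hTA h)).1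
    rw [fill_of_not_mem hv]
    exact h2
  · intro x hx hvx
    have hxT : x ∉ T := fun h => hvx (mem_Ab.1 (hTA h)).1
    rw [fill_of_not_mem hxT]
    exact h3 x hx hvx

theorem blk_fill (hM : IsCover M) {ω : V → Option (Fin m)} {T : Finset V}
    (hb : blk G M v c ω = ∅) (hT : T ∈ ind (Fb G hM v c) (Ab G M v c ω)) :
    blk G M v c (fill M v c ω T) = T := by
  obtain ⟨hTA, hTi⟩ := mem_ind.1 hT
  ext u
  constructor
  · intro hu
    obtain ⟨h1, i, h2, h3⟩ := mem_blk.1 hu
    by_contra huT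
    rw [fill_of_not_mem huT] at h2
    have h4 : u ∈ blk G M v c ω := mem_blk.2 ⟨h1, i, h2, h3⟩
    rw [hb] at h4
    exact absurd h4 (Finset.notMem_empty _)
  · intro hu
    obtain ⟨h1, _, i, h6, _⟩ := mem_Ab.1 (hTA hu)
    exact mem_blk.2 ⟨h1, i, fill_of_partner hM hu h6, h6⟩

theorem strip_fill (hM : IsCover M) {ω : V → Option (Fin m)} {T : Finset V}
    (hb : blk G M v c ω = ∅) (hT : T ∈ ind (Fb G hM v c) (Ab G M v c ω)) :
    strip G M v c (fill M v c ω T) = ω := by
  have hbf := blk_fill hM hb hT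
  obtain ⟨hTA, hTi⟩ := mem_ind.1 hT
  funext u
  by_cases hu : u ∈ T
  · rw [strip_of_mem (by rw [hbf]; exact hu)]
    exact (mem_Ab.1 (hTA hu)).2.1.symm
  · rw [strip_of_not_mem (by rw [hbf]; exact hu), fill_of_not_mem hu]

theorem wt_eq (lam : ℝ) (I : V → Option (Fin m)) :
    wt lam I = wt lam (strip G M v c I) * lam ^ (blk G M v c I).card := by
  have h1 : lam ^ (blk G M v c I).card = ∏ u, if u ∈ blk G M v c I then lam else 1 := by
    rw [Finset.prod_ite_mem, Finset.univ_inter, Finset.prod_const]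
  rw [h1]
  unfold wt
  rw [← Finset.prod_mul_distrib]
  refine Finset.prod_congr rfl fun u _ => ?_
  by_cases hu : u ∈ blk G M v c I
  · obtain ⟨_, i, h5, _⟩ := mem_blk.1 hu
    simp [strip_of_mem hu, hu, h5]
  · simp [strip_of_not_mem hu, hu]

end

end FibreAux

open FibreAux

theorem fibre {V : Type} [Fintype V] {m : ℕ} (G : SimpleGraph V)
    {M : V → V → Fin m → Fin m → Prop} (hM : IsCover M) (v : V) (J : V → Option (Fin m))
    (c : Fin m) (lam : ℝ) (g : (V → Option (Fin m)) → ℝ) (ψ : ℕ → ℝ) :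
    ∑ I ∈ Loc G M v J, wt lam I * (g (strip G M v c I) * ψ (blk G M v c I).card) =
      ∑ ω ∈ (Loc G M v J).filter (fun ω => blk G M v c ω = ∅), wt lam ω * g ω *
        ∑ T ∈ ind (Fb G hM v c) (Ab G M v c ω), lam ^ T.card * ψ T.card := by
  simp only [Finset.mul_sum]
  rw [Finset.sum_sigma']
  refine Finset.sum_bij' (fun I _ => ⟨strip G M v c I, blk G M v c I⟩)
    (fun p _ => fill M v c p.1 p.2) ?_ ?_ ?_ ?_ ?_
  · intro I hI
    rw [Finset.mem_sigma, Finset.mem_filter]
    exact ⟨⟨strip_mem_Loc hI, blk_strip_self I⟩, blk_mem_ind hM hI⟩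
  · rintro ⟨ω, T⟩ hp
    rw [Finset.mem_sigma, Finset.mem_filter] at hp
    exact fill_mem_Loc hM hp.1.1 hp.2
  · intro I _
    exact fill_strip_blk hM I
  · rintro ⟨ω, T⟩ hp
    rw [Finset.mem_sigma, Finset.mem_filter] at hp
    exact Sigma.ext (strip_fill hM hp.1.2 hp.2) (heq_of_eq (blk_fill hM hp.1.2 hp.2))
  · intro I _
    rw [wt_eq (G := G) (M := M) (v := v) (c := c) lam I]
    ring

end MP06c
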