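import Pool.Agent.Lib.MP_06c6c1_co.Defs

set_option autoImplicit false

namespace MP06c

open Finset Classical

theorem mem_ind_iff' {V : Type} {F : SimpleGraph V} {A T : Finset V} :
    T ∈ ind F A ↔ T ⊆ A ∧ ∀ x ∈ T, ∀ y ∈ T, ¬ F.Adj x y := by
  unfold ind
  rw [Finset.mem_filter, Finset.mem_powerset]

namespace GraphAaux

variable {V : Type}

/-- Weight of the independent sets containing `x`. -/
noncomputable def PP (F : SimpleGraph V) (A : Finset V) (lam : ℝ) (x : V) : ℝ :=
  ∑ T ∈ (ind F A).filter (fun T => x ∈ T), lam ^ T.card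

/-- Weight of the independent sets avoiding the closed neighbourhood of `x`. -/
noncomputable def QQ (F : SimpleGraph V) (A : Finset V) (lam : ℝ) (x : V) : ℝ :=
  ∑ T ∈ (ind F A).filter (fun T => x ∉ T ∧ ∀ y ∈ T, ¬ F.Adj x y), lam ^ T.card

/-- Weight of the independent sets avoiding the neighbourhood of `x`. -/
noncomputable def WW (F : SimpleGraph V) (A : Finset V) (lam : ℝ) (x : V) : ℝ :=
  ∑ T ∈ (ind F A).filter (fun T => ∀ y ∈ T, ¬ F.Adj x y), lam ^ T.card

theorem PP_eq (F : SimpleGraph V) (A : Finset V) (lam : ℝ) (x : V) (hx : x ∈ A) :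
    PP F A lam x = lam * QQ F A lam x := by
  unfold PP QQ
  rw [Finset.mul_sum]
  symm
  apply Finset.sum_bij (fun (T : Finset V) _ => insert x T)
  · intro T hT
    rw [Finset.mem_filter, mem_ind_iff'] at hT ⊢
    obtain ⟨⟨h1, h2⟩, h3, h4⟩ := hT
    refine ⟨⟨Finset.insert_subset hx h1, ?_⟩, Finset.mem_insert_self _ _⟩
    intro a ha b hb
    rw [Finset.mem_insert] at ha hb
    rcases ha with rfl | ha
    · rcases hb with rfl | hb
      · exact F.loopless.irrefl _
      · exact h4 b hb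
    · rcases hb with rfl | hb
      · intro h5
        exact h4 a ha h5.symm
      · exact h2 a ha b hb
  · intro T hT S hS h
    rw [Finset.mem_filter] at hT hS
    have h1 := congrArg (fun U : Finset V => U.erase x) h
    simpa [Finset.erase_insert hT.2.1, Finset.erase_insert hS.2.1] using h1
  · intro S hS
    rw [Finset.mem_filter, mem_ind_iff'] at hS
    obtain ⟨⟨h1, h2⟩, h3⟩ := hS
    refine ⟨S.erase x, ?_, Finset.insert_erase h3⟩
    rw [Finset.mem_filter, mem_ind_iff']
    refine ⟨⟨(Finset.erase_subset _ _).trans h1, ?_⟩, Finset.notMem_erase _ _, ?_⟩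
    · intro a ha b hb
      exact h2 a (Finset.mem_of_mem_erase ha) b (Finset.mem_of_mem_erase hb)
    · intro y hy
      exact h2 x h3 y (Finset.mem_of_mem_erase hy)
  · intro T hT
    rw [Finset.mem_filter] at hT
    rw [Finset.card_insert_of_notMem hT.2.1, pow_succ]
    ring

theorem WW_eq (F : SimpleGraph V) (A : Finset V) (lam : ℝ) (x : V) :
    WW F A lam x = PP F A lam x + QQ F A lam x := by
  unfold PP QQ WW
  rw [← Finset.sum_filter_add_sum_filter_not ((ind F A).filter (fun T => ∀ y ∈ T, ¬ F.Adj x y))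
    (fun T => x ∈ T)]
  congr 1
  · apply Finset.sum_congr _ (fun _ _ => rfl)
    ext T
    simp only [Finset.mem_filter]
    constructor
    · rintro ⟨⟨h1, _⟩, h3⟩
      exact ⟨h1, h3⟩
    · rintro ⟨h1, h3⟩
      exact ⟨⟨h1, fun y hy => (mem_ind_iff'.1 h1).2 x h3 y hy⟩, h3⟩
  · apply Finset.sum_congr _ (fun _ _ => rfl)
    ext T
    simp only [Finset.mem_filter]
    tauto

theorem QQ_le (F : SimpleGraph V) (A : Finset V) {lam : ℝ} (hl : 0 ≤ lam) (x : V) :
    QQ F A lam x ≤ ZZ F A lam := by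
  unfold QQ ZZ
  exact Finset.sum_le_sum_of_subset_of_nonneg (Finset.filter_subset _ _)
    (fun _ _ _ => by positivity)

theorem WW_ge (F : SimpleGraph V) (A : Finset V) {lam : ℝ} (hl : 0 ≤ lam) (x : V) :
    ZZ F A lam - ∑ y ∈ A.filter (fun y => F.Adj x y), PP F A lam y ≤ WW F A lam x := by
  have h1 : ZZ F A lam = WW F A lam x +
      ∑ T ∈ (ind F A).filter (fun T => ¬ ∀ y ∈ T, ¬ F.Adj x y), lam ^ T.card := by
    unfold ZZ WW
    rw [Finset.sum_filter_add_sum_filter_not]
  have h2 : ∑ T ∈ (ind F A).filter (fun T => ¬ ∀ y ∈ T, ¬ F.Adj x y), lam ^ T.card ≤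
      ∑ y ∈ A.filter (fun y => F.Adj x y), PP F A lam y := by
    unfold PP
    calc _ ≤ ∑ T ∈ ind F A, ∑ y ∈ A.filter (fun y => F.Adj x y),
          (if y ∈ T then lam ^ T.card else 0) := by
          rw [Finset.sum_filter]
          apply Finset.sum_le_sum
          intro T hT
          by_cases h : ∀ y ∈ T, ¬ F.Adj x y
          · rw [if_neg (not_not.2 h)]
            exact Finset.sum_nonneg (fun z _ => by split_ifs <;> positivity)
          · rw [if_pos h]
            push Not at h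
            obtain ⟨y, hy, hxy⟩ := h
            have hyA : y ∈ A.filter (fun y => F.Adj x y) :=
              Finset.mem_filter.2 ⟨(mem_ind_iff'.1 hT).1 hy, hxy⟩
            calc lam ^ T.card = (if y ∈ T then lam ^ T.card else 0) := by rw [if_pos hy]
              _ ≤ _ := Finset.single_le_sum
                (f := fun y => if y ∈ T then lam ^ T.card else 0)
                (fun z _ => by split_ifs <;> positivity) hyA
      _ = _ := by
          rw [Finset.sum_comm]
          apply Finset.sum_congr rfl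
          intro y _
          rw [Finset.sum_filter]
  linarith

theorem SS_eq (F : SimpleGraph V) (A : Finset V) (lam : ℝ) :
    SS F A lam = ∑ x ∈ A, PP F A lam x := by
  unfold SS PP
  simp only [Finset.sum_filter]
  rw [Finset.sum_comm]
  apply Finset.sum_congr rfl
  intro T hT
  have h1 : ∑ x ∈ A, (if x ∈ T then lam ^ T.card else 0) =
      ∑ x ∈ A.filter (fun x => x ∈ T), lam ^ T.card := by
    rw [Finset.sum_filter]
  have h2 : A.filter (fun x => x ∈ T) = T := by
    ext x
    rw [Finset.mem_filter]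
    exact ⟨fun h => h.2, fun h => ⟨(mem_ind_iff'.1 hT).1 h, h⟩⟩
  rw [h1, h2, Finset.sum_const, nsmul_eq_mul]

theorem one_le_ZZ' (F : SimpleGraph V) (A : Finset V) {lam : ℝ} (hl : 0 ≤ lam) :
    1 ≤ ZZ F A lam := by
  unfold ZZ
  have h0 : (∅ : Finset V) ∈ ind F A := by
    rw [mem_ind_iff']
    simp
  calc (1 : ℝ) = lam ^ (∅ : Finset V).card := by simp
    _ ≤ _ := Finset.single_le_sum (f := fun T : Finset V => lam ^ T.card)
      (fun T _ => by positivity) h0

theorem ZZ_le_exp (F : SimpleGraph V) (A : Finset V) {lam : ℝ} (hl : 0 ≤ lam) :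
    ZZ F A lam ≤ Real.exp (lam * A.card) := by
  have h1 : ZZ F A lam ≤ (lam + 1) ^ A.card := by
    rw [← Finset.sum_pow_mul_eq_add_pow]
    unfold ZZ ind
    simp only [one_pow, mul_one]
    exact Finset.sum_le_sum_of_subset_of_nonneg (Finset.filter_subset _ _)
      (fun _ _ _ => by positivity)
  calc _ ≤ _ := h1
    _ ≤ (Real.exp lam) ^ A.card :=
        pow_le_pow_left₀ (by positivity) (Real.add_one_le_exp lam) _
    _ = _ := by rw [← Real.exp_nat_mul, mul_comm]

theorem PP_ge (F : SimpleGraph V) (A : Finset V) {lam : ℝ} (hl : 0 ≤ lam) (x : V) (hx : x ∈ A) :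
    lam / (1 + lam) * ZZ F A lam *
      (1 - lam * ((A.filter (fun y => F.Adj x y)).card : ℝ)) ≤ PP F A lam x := by
  have h1 := PP_eq F A lam x hx
  have h2 := WW_eq F A lam x
  have h3 := WW_ge F A hl x
  have h4 : ∑ y ∈ A.filter (fun y => F.Adj x y), PP F A lam y ≤
      ((A.filter (fun y => F.Adj x y)).card : ℝ) * (lam * ZZ F A lam) := by
    rw [← nsmul_eq_mul, ← Finset.sum_const]
    apply Finset.sum_le_sum
    intro y hy
    rw [PP_eq F A lam y (Finset.mem_filter.1 hy).1]
    exact mul_le_mul_of_nonneg_left (QQ_le F A hl y) hl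
  have h5 : (1 + lam) * QQ F A lam x = WW F A lam x := by
    rw [h2, h1]
    ring
  have h6 : ZZ F A lam * (1 - lam * ((A.filter (fun y => F.Adj x y)).card : ℝ)) ≤
      (1 + lam) * QQ F A lam x := by
    rw [h5]
    nlinarith
  have h7 : (0 : ℝ) < 1 + lam := by linarith
  rw [h1, div_mul_eq_mul_div, div_mul_eq_mul_div, div_le_iff₀ h7]
  nlinarith [mul_le_mul_of_nonneg_left h6 hl]

theorem SS_ge (F : SimpleGraph V) (A : Finset V) {lam : ℝ} (hl : 0 ≤ lam) :
    lam / (1 + lam) * ZZ F A lam *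
      (A.card - lam * ∑ x ∈ A, ((A.filter (fun y => F.Adj x y)).card : ℝ)) ≤ SS F A lam := by
  rw [SS_eq]
  calc _ = ∑ x ∈ A, lam / (1 + lam) * ZZ F A lam *
      (1 - lam * ((A.filter (fun y => F.Adj x y)).card : ℝ)) := by
        rw [← Finset.mul_sum, Finset.sum_sub_distrib, ← Finset.mul_sum]
        simp
    _ ≤ _ := Finset.sum_le_sum (fun x hx => PP_ge F A hl x hx)

end GraphAaux

open GraphAaux in
theorem graphA {V : Type} (F : SimpleGraph V) (A : Finset V) (Δ h kap : ℝ)
    (hh : 100 ≤ h) (hΔ : h ^ 64 ≤ Δ) (hA : (A.card : ℝ) ≤ Δ) (hkap : kap ≤ Real.log h / 2)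
    (hE : ∑ x ∈ A, ((A.filter (fun y => F.Adj x y)).card : ℝ) ≤ 2 * Δ ^ 2 / h ^ 16)
    (hS : SS F A (h ^ 8 / (4 * Δ)) < kap * ZZ F A (h ^ 8 / (4 * Δ))) :
    ZZ F A (h ^ 8 / (4 * Δ)) ≤ 2 * h ^ 2 := by
  have hh0 : (0 : ℝ) < h := by linarith
  have hh1 : (1 : ℝ) ≤ h := by linarith
  have h64 : (1 : ℝ) ≤ h ^ 64 := one_le_pow₀ hh1
  have hΔ0 : 0 < Δ := by linarith
  set lam : ℝ := h ^ 8 / (4 * Δ) with hlam
  have hl : 0 < lam := by positivity
  have hl1 : lam ≤ 1 := by
    rw [hlam, div_le_one (by positivity)]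
    have h1 : h ^ 8 ≤ h ^ 64 := pow_le_pow_right₀ hh1 (by norm_num)
    linarith
  have hZ1 := one_le_ZZ' F A hl.le
  have hZe := ZZ_le_exp F A hl.le
  rcases le_or_gt (Δ / h ^ 8) (A.card : ℝ) with hc | hc
  · have h1 := SS_ge F A hl.le
    have h2 : lam * ∑ x ∈ A, ((A.filter (fun y => F.Adj x y)).card : ℝ) ≤ Δ / h ^ 8 / 2 := by
      calc _ ≤ lam * (2 * Δ ^ 2 / h ^ 16) := mul_le_mul_of_nonneg_left hE hl.le
        _ = _ := by
          rw [hlam]
          field_simp
          ring
    have h3 : (A.card : ℝ) / 2 ≤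
        A.card - lam * ∑ x ∈ A, ((A.filter (fun y => F.Adj x y)).card : ℝ) := by linarith
    have h4 : lam / (1 + lam) * ZZ F A lam * ((A.card : ℝ) / 2) < kap * ZZ F A lam :=
      lt_of_le_of_lt ((mul_le_mul_of_nonneg_left h3 (by positivity)).trans h1) hS
    have h5 : lam / (1 + lam) * ((A.card : ℝ) / 2) < kap := by
      have hZ0 : 0 < ZZ F A lam := by linarith
      refine lt_of_mul_lt_mul_right ?_ hZ0.le
      linarith
    have hlog : 0 ≤ Real.log h := Real.log_nonneg hh1
    have h6 : lam * A.card ≤ 2 * Real.log h := by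
      have h7 : (0 : ℝ) < 1 + lam := by linarith
      have h8 : lam / (1 + lam) * ((A.card : ℝ) / 2) < Real.log h / 2 := lt_of_lt_of_le h5 hkap
      rw [div_mul_eq_mul_div, div_lt_iff₀ h7] at h8
      nlinarith
    calc _ ≤ _ := hZe
      _ ≤ Real.exp (2 * Real.log h) := Real.exp_le_exp.2 h6
      _ = h ^ 2 := by
        rw [mul_comm, Real.exp_mul, Real.exp_log hh0]
        norm_num
      _ ≤ _ := by nlinarith
  · have h1 : lam * A.card ≤ 1 / 4 := by
      calc _ ≤ lam * (Δ / h ^ 8) := mul_le_mul_of_nonneg_left hc.le hl.le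
        _ = _ := by
          rw [hlam]
          field_simp
    calc _ ≤ _ := hZe
      _ ≤ Real.exp 1 := Real.exp_le_exp.2 (by linarith)
      _ ≤ 2 * h ^ 2 := by
        have := Real.exp_one_lt_d9
        nlinarith

end MP06c
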