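import Pool.Agent.Lib.MP_06c6c1_co.Defs

set_option autoImplicit false

namespace MP06c

open Finset Classical

namespace Second

lemma mem_ind {V : Type} (F : SimpleGraph V) (A T : Finset V) :
    T ∈ ind F A ↔ T ⊆ A ∧ ∀ x ∈ T, ∀ y ∈ T, ¬ F.Adj x y := by
  simp [ind]

lemma erase_mem_ind {V : Type} (F : SimpleGraph V) (A T : Finset V) (x : V) (hT : T ∈ ind F A) :
    T.erase x ∈ ind F A := by
  rw [mem_ind] at hT ⊢
  exact ⟨(erase_subset _ _).trans hT.1, fun a ha b hb =>
    hT.2 a (mem_of_mem_erase ha) b (mem_of_mem_erase hb)⟩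

lemma sum_mem_le {V : Type} (F : SimpleGraph V) (A : Finset V) {lam : ℝ} (hl : 0 ≤ lam) (x : V)
    (P : Finset V → Prop) :
    ∑ T ∈ (ind F A).filter (fun T => x ∈ T ∧ P (T.erase x)), lam ^ T.card ≤
      lam * ∑ T ∈ (ind F A).filter P, lam ^ T.card := by
  rw [mul_sum]
  have hinj : Set.InjOn (fun T : Finset V => T.erase x)
      ((ind F A).filter (fun T => x ∈ T ∧ P (T.erase x)) : Set (Finset V)) := by
    intro S hS T hT h
    have hS' := (mem_filter.1 (mem_coe.1 hS)).2.1
    have hT' := (mem_filter.1 (mem_coe.1 hT)).2.1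
    have h' : S.erase x = T.erase x := h
    rw [← insert_erase hS', ← insert_erase hT', h']
  have e : ∑ T ∈ (ind F A).filter (fun T => x ∈ T ∧ P (T.erase x)), lam ^ T.card =
      ∑ S ∈ ((ind F A).filter (fun T => x ∈ T ∧ P (T.erase x))).image (fun T => T.erase x),
        lam * lam ^ S.card := by
    rw [sum_image hinj]
    refine sum_congr rfl fun T hT => ?_
    have hx := (mem_filter.1 hT).2.1
    rw [← pow_succ', card_erase_add_one hx]
  rw [e]
  refine sum_le_sum_of_subset_of_nonneg ?_ (fun _ _ _ => by positivity)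
  intro S hS
  obtain ⟨T, hT, rfl⟩ := mem_image.1 hS
  obtain ⟨h1, h2, h3⟩ := mem_filter.1 hT
  exact mem_filter.2 ⟨erase_mem_ind F A T x h1, h3⟩

end Second

open Second

theorem one_le_ZZ {V : Type} (F : SimpleGraph V) (A : Finset V) {lam : ℝ} (hl : 0 ≤ lam) :
    1 ≤ ZZ F A lam := by
  unfold ZZ
  have h : (∅ : Finset V) ∈ ind F A := by
    rw [mem_ind]
    simp
  have := single_le_sum (f := fun T : Finset V => lam ^ T.card) (fun T _ => by positivity) h
  simpa using this

theorem second_moment {V : Type} (F : SimpleGraph V) (A : Finset V) {lam : ℝ} (hl : 0 ≤ lam) :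
    ∑ T ∈ ind F A, (T.card : ℝ) ^ 2 * lam ^ T.card ≤
      (lam * A.card + (lam * A.card) ^ 2) * ZZ F A lam := by
  have hZ : ∀ P : Finset V → Prop, ∑ T ∈ (ind F A).filter P, lam ^ T.card ≤ ZZ F A lam := by
    intro P
    exact sum_le_sum_of_subset_of_nonneg (filter_subset _ _) (fun _ _ _ => by positivity)
  have hone : ∀ x : V, ∑ T ∈ (ind F A).filter (fun T => x ∈ T), lam ^ T.card ≤
      lam * ZZ F A lam := by
    intro x
    have h1 := sum_mem_le F A hl x (fun _ => True)
    refine le_trans (le_of_eq (sum_congr ?_ fun _ _ => rfl))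
      (h1.trans (mul_le_mul_of_nonneg_left (hZ _) hl))
    ext T
    simp only [mem_filter, and_true]
  have htwo : ∀ x y : V, x ≠ y →
      ∑ T ∈ (ind F A).filter (fun T => x ∈ T ∧ y ∈ T), lam ^ T.card ≤ lam ^ 2 * ZZ F A lam := by
    intro x y hxy
    have h1 := sum_mem_le F A hl x (fun T => y ∈ T)
    refine le_trans (le_of_eq (sum_congr ?_ fun _ _ => rfl)) (h1.trans ?_)
    · ext T
      simp only [mem_filter, mem_erase]
      constructor
      · rintro ⟨a, b, c⟩; exact ⟨a, b, fun h => hxy h.symm, c⟩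
      · rintro ⟨a, b, -, c⟩; exact ⟨a, b, c⟩
    · have h3 := mul_le_mul_of_nonneg_left (hone y) hl
      refine le_trans (le_of_eq ?_) (h3.trans (le_of_eq (by ring)))
      congr 1
      refine sum_congr ?_ fun _ _ => rfl
      ext T
      simp only [mem_filter]
  have hcard : ∀ T ∈ ind F A, (T.card : ℝ) ^ 2 * lam ^ T.card =
      ∑ x ∈ A, ∑ y ∈ A, if x ∈ T ∧ y ∈ T then lam ^ T.card else 0 := by
    intro T hT
    have hsub := ((mem_ind F A T).1 hT).1
    have h1 : (T.card : ℝ) = ∑ x ∈ A, if x ∈ T then (1 : ℝ) else 0 := by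
      rw [← sum_filter, sum_const, nsmul_eq_mul, mul_one]
      congr 2
      ext x
      simp only [mem_filter]
      exact ⟨fun h => ⟨hsub h, h⟩, fun h => h.2⟩
    rw [pow_two]
    nth_rewrite 1 [h1]
    nth_rewrite 1 [h1]
    rw [sum_mul_sum, sum_mul]
    refine sum_congr rfl fun x _ => ?_
    rw [sum_mul]
    refine sum_congr rfl fun y _ => ?_
    by_cases hx : x ∈ T <;> by_cases hy : y ∈ T <;> simp [hx, hy]
  rw [sum_congr rfl hcard, sum_comm]
  have hin : ∀ x ∈ A, ∑ T ∈ ind F A, ∑ y ∈ A, (if x ∈ T ∧ y ∈ T then lam ^ T.card else 0) ≤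
      lam * ZZ F A lam + A.card * (lam ^ 2 * ZZ F A lam) := by
    intro x hx
    rw [sum_comm]
    have hy : ∀ y ∈ A, ∑ T ∈ ind F A, (if x ∈ T ∧ y ∈ T then lam ^ T.card else 0) ≤
        (if y = x then lam * ZZ F A lam else 0) + lam ^ 2 * ZZ F A lam := by
      intro y _
      rw [← sum_filter]
      have hZ0 : 0 ≤ ZZ F A lam := zero_le_one.trans (one_le_ZZ F A hl)
      by_cases h : y = x
      · subst h
        rw [if_pos rfl]
        have h2 : (ind F A).filter (fun T => y ∈ T ∧ y ∈ T) = (ind F A).filter (fun T => y ∈ T) := by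
          refine filter_congr fun T _ => ?_
          simp
        rw [h2]
        have := hone y
        nlinarith [mul_nonneg (pow_nonneg hl 2) hZ0]
      · rw [if_neg h, zero_add]
        exact htwo x y (fun h' => h h'.symm)
    refine (sum_le_sum hy).trans (le_of_eq ?_)
    rw [sum_add_distrib, sum_ite_eq' A x, if_pos hx, sum_const, nsmul_eq_mul]
  refine (sum_le_sum hin).trans (le_of_eq ?_)
  rw [sum_const, nsmul_eq_mul]
  ring

end MP06c
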