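import Pool.Agent.Lib.MP_06c6c1_co.Defs

set_option autoImplicit false

namespace MP06c

open Finset Classical

theorem mem_blk {V : Type} [Fintype V] {m : ℕ} (G : SimpleGraph V)
    (M : V → V → Fin m → Fin m → Prop) (v : V) (c : Fin m) (I : V → Option (Fin m)) (u : V) :
    u ∈ blk G M v c I ↔ G.Adj v u ∧ ∃ i, I u = some i ∧ M v u c i := by
  simp [blk]

theorem blk_strip_ne {V : Type} [Fintype V] {m : ℕ} (G : SimpleGraph V)
    {M : V → V → Fin m → Fin m → Prop} (hM : IsCover M) (v : V) (c c' : Fin m) (hc : c' ≠ c)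
    (I : V → Option (Fin m)) :
    blk G M v c' (strip G M v c I) = blk G M v c' I := by
  ext u
  rw [mem_blk, mem_blk]
  constructor
  · rintro ⟨h1, i, h2, h3⟩
    refine ⟨h1, i, ?_, h3⟩
    unfold strip at h2
    split_ifs at h2
    exact h2
  · rintro ⟨h1, i, h2, h3⟩
    refine ⟨h1, i, ?_, h3⟩
    unfold strip
    rw [if_neg, h2]
    intro hu
    obtain ⟨-, j, h4, h5⟩ := (mem_blk G M v c I u).1 hu
    rw [h2] at h4
    obtain rfl : i = j := Option.some.inj h4
    exact hc (hM.left v u c' c i h3 h5)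

theorem blk_sum_le {V : Type} [Fintype V] {m : ℕ} (G : SimpleGraph V)
    {M : V → V → Fin m → Fin m → Prop} (hM : IsCover M) (v : V) (I : V → Option (Fin m)) :
    ∑ c : Fin m, (blk G M v c I).card ≤ (nb G v).card := by
  rw [← card_biUnion]
  · refine card_le_card ?_
    intro u hu
    rw [mem_biUnion] at hu
    obtain ⟨c, -, hc⟩ := hu
    have := ((mem_blk G M v c I u).1 hc).1
    simpa [nb] using this
  · intro c _ c' _ hne
    refine Finset.disjoint_left.2 ?_
    intro u hu hu'
    obtain ⟨-, i, h2, h3⟩ := (mem_blk G M v c I u).1 hu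
    obtain ⟨-, j, h4, h5⟩ := (mem_blk G M v c' I u).1 hu'
    rw [h2] at h4
    obtain rfl : i = j := Option.some.inj h4
    exact hne (hM.left v u c c' i h3 h5)

theorem mem_avail_iff_blk {V : Type} [Fintype V] {m : ℕ} (G : SimpleGraph V)
    (M : V → V → Fin m → Fin m → Prop) (v : V) (I : V → Option (Fin m)) (c : Fin m) :
    c ∈ avail G M I v ↔ blk G M v c I = ∅ := by
  rw [Finset.eq_empty_iff_forall_notMem]
  simp only [avail, mem_filter, mem_univ, true_and, mem_blk, not_and, not_exists]
  constructor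
  · intro h u hu i hi
    exact h u i hu hi
  · intro h w j hw hj
    exact h w hw j hj

end MP06c
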