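import Pool.Agent.Lib.MP_06c6c1_co.Block
import Pool.Agent.Lib.MP_06c6c1_co.Fibre
import Pool.Agent.Lib.MP_06c6c1_co.Second
import Pool.Agent.Lib.MP_06c6c1_co.Strip

set_option autoImplicit false

namespace MP06c

open Finset Classical

namespace TailAvail

lemma wt_nonneg {V : Type} [Fintype V] {m : ℕ} {lam : ℝ} (hl : 0 ≤ lam)
    (I : V → Option (Fin m)) : 0 ≤ wt lam I := by
  unfold wt
  refine prod_nonneg fun v _ => ?_
  split_ifs
  · exact zero_le_one
  · exact hl

lemma phi_nonneg (eps sig : ℝ) (n : ℕ) : 0 ≤ phi eps sig n := (Real.exp_pos _).le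

lemma prod_step {V : Type} [Fintype V] {m : ℕ} (G : SimpleGraph V)
    {M : V → V → Fin m → Fin m → Prop} (hM : IsCover M) (v : V) (J : V → Option (Fin m))
    {lam eps sig kap : ℝ} (hl : 0 ≤ lam) (he : 0 ≤ eps) (hs : 0 ≤ sig) (Δ : ℕ)
    (hΔ : (nb G v).card ≤ Δ)
    (hk : ∀ (F : SimpleGraph V) (A : Finset V), F ≤ G → A ⊆ nb G v →
      kap * ZZ F A lam ≤ sig + SS F A lam) (C : Finset (Fin m)) :
    ∑ I ∈ Loc G M v J, wt lam I * ∏ c ∈ C, phi eps sig (blk G M v c I).card ≤
      Real.exp (-(eps * kap) + eps ^ 2 * (sig ^ 2 + lam * Δ + (lam * Δ) ^ 2) / 2) ^ C.card *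
        ∑ I ∈ Loc G M v J, wt lam I := by
  induction C using Finset.induction_on with
  | empty => simp
  | insert c C hc ih =>
    set r := Real.exp (-(eps * kap) + eps ^ 2 * (sig ^ 2 + lam * Δ + (lam * Δ) ^ 2) / 2) with hr
    have hr0 : 0 ≤ r := (Real.exp_pos _).le
    set g : (V → Option (Fin m)) → ℝ := fun ω => ∏ c' ∈ C, phi eps sig (blk G M v c' ω).card
      with hg
    have hg0 : ∀ ω, 0 ≤ g ω := fun ω => prod_nonneg fun _ _ => phi_nonneg _ _ _
    have hgs : ∀ I, g (strip G M v c I) = g I := by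
      intro I
      refine prod_congr rfl fun c' hc' => ?_
      have hne : c' ≠ c := fun h => hc (h ▸ hc')
      rw [blk_strip_ne G hM v c c' hne I]
    have f1 := fibre G hM v J c lam g (phi eps sig)
    have f2 := fibre G hM v J c lam g (fun _ => 1)
    have e1 : ∑ I ∈ Loc G M v J, wt lam I * ∏ c' ∈ insert c C, phi eps sig (blk G M v c' I).card =
        ∑ I ∈ Loc G M v J, wt lam I * (g (strip G M v c I) * phi eps sig (blk G M v c I).card) := by
      refine sum_congr rfl fun I _ => ?_
      rw [prod_insert hc, hgs, mul_comm (g I)]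
    have e2 : ∑ I ∈ Loc G M v J, wt lam I * g I =
        ∑ ω ∈ (Loc G M v J).filter (fun ω => blk G M v c ω = ∅), wt lam ω * g ω *
          ∑ T ∈ ind (Fb G hM v c) (Ab G M v c ω), lam ^ T.card * 1 := by
      rw [← f2]
      refine sum_congr rfl fun I _ => ?_
      rw [hgs, mul_one]
    have e3 : ∀ ω : V → Option (Fin m),
        ∑ T ∈ ind (Fb G hM v c) (Ab G M v c ω), lam ^ T.card * phi eps sig T.card ≤
          r * ∑ T ∈ ind (Fb G hM v c) (Ab G M v c ω), lam ^ T.card * 1 := by
      intro ω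
      have hle : Fb G hM v c ≤ G := fun a b hab => hab.1
      have hsub : Ab G M v c ω ⊆ nb G v := by
        intro u hu
        simp only [Ab, nb, mem_filter, mem_univ, true_and] at hu ⊢
        exact hu.1
      have hcard : ((Ab G M v c ω).card : ℝ) ≤ (Δ : ℝ) := by
        exact_mod_cast (card_le_card hsub).trans hΔ
      have := block (Fb G hM v c) (Ab G M v c ω) (eps := eps) (sig := sig) (kap := kap) hl he hs
        (hk _ _ hle hsub) (Δ : ℝ) hcard (one_le_ZZ _ _ hl) (second_moment _ _ hl)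
      simpa [ZZ] using this
    calc ∑ I ∈ Loc G M v J, wt lam I * ∏ c' ∈ insert c C, phi eps sig (blk G M v c' I).card
        = ∑ ω ∈ (Loc G M v J).filter (fun ω => blk G M v c ω = ∅), wt lam ω * g ω *
            ∑ T ∈ ind (Fb G hM v c) (Ab G M v c ω), lam ^ T.card * phi eps sig T.card := by
          rw [e1, f1]
      _ ≤ ∑ ω ∈ (Loc G M v J).filter (fun ω => blk G M v c ω = ∅), wt lam ω * g ω *
            (r * ∑ T ∈ ind (Fb G hM v c) (Ab G M v c ω), lam ^ T.card * 1) := by
          refine sum_le_sum fun ω _ => ?_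
          exact mul_le_mul_of_nonneg_left (e3 ω) (mul_nonneg (wt_nonneg hl ω) (hg0 ω))
      _ = r * ∑ I ∈ Loc G M v J, wt lam I * g I := by
          rw [e2, mul_sum]
          refine sum_congr rfl fun ω _ => ?_
          ring
      _ ≤ r * (r ^ C.card * ∑ I ∈ Loc G M v J, wt lam I) :=
          mul_le_mul_of_nonneg_left ih hr0
      _ = r ^ (insert c C).card * ∑ I ∈ Loc G M v J, wt lam I := by
          rw [card_insert_of_notMem hc, pow_succ]; ring

end TailAvail

open TailAvail

theorem tail_avail {V : Type} [Fintype V] {m : ℕ} (G : SimpleGraph V)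
    {M : V → V → Fin m → Fin m → Prop} (hM : IsCover M) (v : V) (J : V → Option (Fin m))
    {lam eps sig kap : ℝ} (hl : 0 ≤ lam) (he : 0 ≤ eps) (hs : 0 ≤ sig) (Δ : ℕ)
    (hΔ : (nb G v).card ≤ Δ)
    (hk : ∀ (F : SimpleGraph V) (A : Finset V), F ≤ G → A ⊆ nb G v →
      kap * ZZ F A lam ≤ sig + SS F A lam) (l : ℕ) :
    ∑ I ∈ (Loc G M v J).filter (fun I => (avail G M I v).card < l), wt lam I ≤
      Real.exp (eps * (sig * l + Δ) -
        m * (eps * kap - eps ^ 2 * (sig ^ 2 + lam * Δ + (lam * Δ) ^ 2) / 2)) *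
        ∑ I ∈ Loc G M v J, wt lam I := by
  have h1 := prod_step G hM v J (eps := eps) (sig := sig) (kap := kap) hl he hs Δ hΔ hk
    (univ : Finset (Fin m))
  rw [card_univ, Fintype.card_fin, ← Real.exp_nat_mul] at h1
  have h2 : Real.exp (-(eps * (sig * l + Δ))) *
      ∑ I ∈ (Loc G M v J).filter (fun I => (avail G M I v).card < l), wt lam I ≤
      ∑ I ∈ Loc G M v J, wt lam I * ∏ c : Fin m, phi eps sig (blk G M v c I).card := by
    rw [mul_sum]
    refine (sum_le_sum (fun I hI => ?_)).trans (sum_le_sum_of_subset_of_nonneg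
      (filter_subset (fun I => (avail G M I v).card < l) _) (fun I _ _ => mul_nonneg
        (wt_nonneg hl I) (prod_nonneg fun _ _ => phi_nonneg _ _ _)))
    rw [mul_comm]
    refine mul_le_mul_of_nonneg_left ?_ (wt_nonneg hl I)
    have hlt : (avail G M I v).card < l := (mem_filter.1 hI).2
    have hprod : ∏ c : Fin m, phi eps sig (blk G M v c I).card =
        Real.exp (-(eps * (sig * (avail G M I v).card +
          ∑ c : Fin m, ((blk G M v c I).card : ℝ)))) := by
      unfold phi
      rw [← Real.exp_sum]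
      congr 1
      rw [sum_neg_distrib, ← mul_sum, sum_add_distrib]
      congr 3
      have hav : avail G M I v = univ.filter (fun c => (blk G M v c I).card = 0) := by
        ext c
        rw [mem_avail_iff_blk G M v I c]
        simp
      rw [hav, ← sum_filter, sum_const, nsmul_eq_mul, mul_comm]
    rw [hprod]
    apply Real.exp_le_exp.2
    have hb : ∑ c : Fin m, ((blk G M v c I).card : ℝ) ≤ (Δ : ℝ) := by
      exact_mod_cast (blk_sum_le G hM v I).trans hΔ
    have ha : ((avail G M I v).card : ℝ) ≤ l := by exact_mod_cast hlt.le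
    have : sig * (avail G M I v).card + ∑ c : Fin m, ((blk G M v c I).card : ℝ) ≤
        sig * l + Δ := add_le_add (mul_le_mul_of_nonneg_left ha hs) hb
    have := mul_le_mul_of_nonneg_left this he
    linarith
  have h3 := h2.trans h1
  have h4 := mul_le_mul_of_nonneg_left h3 (Real.exp_pos (eps * (sig * l + Δ))).le
  rw [← mul_assoc, ← Real.exp_add, add_neg_cancel, Real.exp_zero, one_mul, ← mul_assoc,
    ← Real.exp_add] at h4
  refine h4.trans (le_of_eq ?_)
  congr 2
  ring

end MP06c
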