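import Pool.Agent.Lib.MP_06c6c1_co.Defs

set_option autoImplicit false

/-! # Upper tail of the number of uncoloured neighbours with long lists -/

namespace MP06c

open Finset Classical

theorem tailUnc_wt_nonneg {V : Type} [Fintype V] {m : ℕ} {lam : ℝ} (hl : 0 ≤ lam)
    (I : V → Option (Fin m)) : 0 ≤ wt lam I := by
  unfold wt
  apply prod_nonneg
  intro x _
  split_ifs
  · exact zero_le_one
  · exact hl

theorem tailUnc_wt_update {V : Type} [Fintype V] {m : ℕ} (lam : ℝ) (I : V → Option (Fin m))
    (u : V) (hu : I u = none) (i : Fin m) :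
    wt lam (Function.update I u (some i)) = lam * wt lam I := by
  unfold wt
  rw [← mul_prod_erase univ _ (mem_univ u),
    ← mul_prod_erase univ (fun x => if I x = none then (1 : ℝ) else lam) (mem_univ u)]
  have h1 : (if Function.update I u (some i) u = none then (1 : ℝ) else lam) = lam := by
    rw [Function.update_self]
    simp
  have h2 : (if I u = none then (1 : ℝ) else lam) = 1 := by simp [hu]
  have h3 : ∏ x ∈ univ.erase u, (if Function.update I u (some i) x = none then (1 : ℝ) else lam) =
      ∏ x ∈ univ.erase u, (if I x = none then (1 : ℝ) else lam) := by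
    apply prod_congr rfl
    intro x hx
    rw [Function.update_of_ne (ne_of_mem_erase hx)]
  rw [h1, h2, h3, one_mul]

theorem tailUnc_mem_avail {V : Type} {m : ℕ} (G : SimpleGraph V)
    (M : V → V → Fin m → Fin m → Prop) (I : V → Option (Fin m)) (v : V) (i : Fin m) :
    i ∈ avail G M I v ↔ ∀ w j, G.Adj v w → I w = some j → ¬ M v w i j := by
  unfold avail
  simp only [mem_filter, mem_univ, true_and]

/-- Colourings in `Loc` leaving all of `S` uncoloured with at least `k` available colours. -/
noncomputable def unc {V : Type} [Fintype V] {m : ℕ} (G : SimpleGraph V)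
    (M : V → V → Fin m → Fin m → Prop) (v : V) (J : V → Option (Fin m)) (S : Finset V) (k : ℕ) :
    Finset (V → Option (Fin m)) :=
  (Loc G M v J).filter (fun I => ∀ u ∈ S, I u = none ∧ k ≤ (avail G M I u).card)

theorem tailUnc_step_mem {V : Type} [Fintype V] {m : ℕ} (G : SimpleGraph V)
    {M : V → V → Fin m → Fin m → Prop} (hM : IsCover M) (v : V) (J : V → Option (Fin m))
    (S : Finset V) (hS : S ⊆ nb G v) (k : ℕ) (u0 : V) (hu0 : u0 ∈ S) (I : V → Option (Fin m))
    (hI : I ∈ unc G M v J S k) (i : Fin m) (hi : i ∈ avail G M I u0) :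
    Function.update I u0 (some i) ∈ unc G M v J (S.erase u0) (k - 1) := by
  have hadj : G.Adj v u0 := by
    have := hS hu0
    unfold nb at this
    simpa using this
  have huv : u0 ≠ v := fun h => G.loopless.irrefl v (h ▸ hadj)
  unfold unc Loc at hI ⊢
  rw [mem_filter, mem_filter] at hI ⊢
  obtain ⟨⟨_, hval, hv, hoff⟩, hall⟩ := hI
  have hnone : I u0 = none := (hall u0 hu0).1
  have hi' : ∀ w j, G.Adj u0 w → I w = some j → ¬ M u0 w i j := (tailUnc_mem_avail G M I u0 i).1 hi
  refine ⟨⟨mem_univ _, ?_, ?_, ?_⟩, ?_⟩
  · intro a b p q hab ha hb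
    by_cases h1 : a = u0
    · subst h1
      have hba : b ≠ a := fun h => G.loopless.irrefl a (h ▸ hab)
      rw [Function.update_self] at ha
      rw [Function.update_of_ne hba] at hb
      have hpi : i = p := Option.some.inj ha
      rw [← hpi]
      exact hi' b q hab hb
    · rw [Function.update_of_ne h1] at ha
      by_cases h2 : b = u0
      · subst h2
        rw [Function.update_self] at hb
        have hqi : i = q := Option.some.inj hb
        rw [← hqi]
        intro hMab
        exact hi' a p hab.symm ha ((hM.symm a b p i).1 hMab)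
      · rw [Function.update_of_ne h2] at hb
        exact hval a b p q hab ha hb
  · rw [Function.update_of_ne (Ne.symm huv)]
    exact hv
  · intro x hx hadjx
    have hxu : x ≠ u0 := fun h => hadjx (h ▸ hadj)
    rw [Function.update_of_ne hxu]
    exact hoff x hx hadjx
  · intro u hu
    have hne : u ≠ u0 := ne_of_mem_erase hu
    have huS : u ∈ S := mem_of_mem_erase hu
    rw [Function.update_of_ne hne]
    refine ⟨(hall u huS).1, ?_⟩
    have hk := (hall u huS).2
    -- at most one colour is lost
    have hsub : avail G M I u ⊆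
        avail G M (Function.update I u0 (some i)) u ∪ univ.filter (fun j => M u u0 j i) := by
      intro j hj
      by_cases hMj : M u u0 j i
      · exact mem_union_right _ (by simpa using hMj)
      · apply mem_union_left
        rw [tailUnc_mem_avail] at hj ⊢
        intro w q hw hq
        by_cases hwu : w = u0
        · subst hwu
          rw [Function.update_self] at hq
          have : i = q := Option.some.inj hq
          rw [← this]
          exact hMj
        · rw [Function.update_of_ne hwu] at hq
          exact hj w q hw hq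
    have hone : (univ.filter (fun j => M u u0 j i)).card ≤ 1 := by
      rw [card_le_one]
      intro a ha b hb
      rw [mem_filter] at ha hb
      exact hM.left u u0 a b i ha.2 hb.2
    have h2 := card_le_card hsub
    have h3 := card_union_le (avail G M (Function.update I u0 (some i)) u)
      (univ.filter (fun j => M u u0 j i))
    omega

theorem tailUnc_step {V : Type} [Fintype V] {m : ℕ} (G : SimpleGraph V)
    {M : V → V → Fin m → Fin m → Prop} (hM : IsCover M) (v : V) (J : V → Option (Fin m))
    {lam : ℝ} (hl : 0 ≤ lam)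
    (S : Finset V) (hS : S ⊆ nb G v) (k : ℕ) (u0 : V) (hu0 : u0 ∈ S) :
    lam * k * ∑ I ∈ unc G M v J S k, wt lam I ≤
      ∑ I ∈ unc G M v J (S.erase u0) (k - 1), wt lam I := by
  have hnone : ∀ I ∈ unc G M v J S k, I u0 = none ∧ k ≤ (avail G M I u0).card := by
    intro I hI
    unfold unc at hI
    rw [mem_filter] at hI
    exact hI.2 u0 hu0
  have h1 : lam * k * ∑ I ∈ unc G M v J S k, wt lam I ≤
      ∑ I ∈ unc G M v J S k, ∑ i ∈ avail G M I u0, wt lam (Function.update I u0 (some i)) := by
    rw [mul_sum]
    apply sum_le_sum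
    intro I hI
    obtain ⟨hn, hk⟩ := hnone I hI
    have : ∑ i ∈ avail G M I u0, wt lam (Function.update I u0 (some i)) =
        ((avail G M I u0).card : ℝ) * (lam * wt lam I) := by
      rw [← nsmul_eq_mul, ← sum_const]
      apply sum_congr rfl
      intro i _
      exact tailUnc_wt_update lam I u0 hn i
    rw [this]
    have hw := tailUnc_wt_nonneg hl I
    have hk' : (k : ℝ) ≤ ((avail G M I u0).card : ℝ) := by exact_mod_cast hk
    have hlw : 0 ≤ lam * wt lam I := mul_nonneg hl hw
    calc lam * k * wt lam I = k * (lam * wt lam I) := by ring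
      _ ≤ _ := mul_le_mul_of_nonneg_right hk' hlw
  refine h1.trans ?_
  rw [sum_sigma' (unc G M v J S k) (fun I => avail G M I u0)
    (fun I i => wt lam (Function.update I u0 (some i)))]
  have hinj : Set.InjOn (fun p : (_ : V → Option (Fin m)) × Fin m =>
      Function.update p.1 u0 (some p.2))
      ((unc G M v J S k).sigma (fun I => avail G M I u0) : Set _) := by
    rintro ⟨I, i⟩ hp ⟨I', i'⟩ hp' heq
    rw [mem_coe, mem_sigma] at hp hp'
    have hn := (hnone I hp.1).1
    have hn' := (hnone I' hp'.1).1
    simp only at heq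
    have hi : i = i' := by
      have := congrFun heq u0
      rw [Function.update_self, Function.update_self] at this
      exact Option.some.inj this
    have hII : I = I' := by
      funext x
      by_cases hx : x = u0
      · rw [hx, hn, hn']
      · have := congrFun heq x
        rwa [Function.update_of_ne hx, Function.update_of_ne hx] at this
    subst hi
    subst hII
    rfl
  have h2 : ∑ p ∈ (unc G M v J S k).sigma (fun I => avail G M I u0),
      wt lam (Function.update p.1 u0 (some p.2)) =
      ∑ I' ∈ ((unc G M v J S k).sigma (fun I => avail G M I u0)).image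
        (fun p => Function.update p.1 u0 (some p.2)), wt lam I' := by
    rw [sum_image hinj]
  rw [h2]
  apply sum_le_sum_of_subset_of_nonneg
  · intro I' hI'
    rw [mem_image] at hI'
    obtain ⟨⟨I, i⟩, hp, rfl⟩ := hI'
    rw [mem_sigma] at hp
    exact tailUnc_step_mem G hM v J S hS k u0 hu0 I hp.1 i hp.2
  · intro I _ _
    exact tailUnc_wt_nonneg hl I

theorem tailUnc_iter {V : Type} [Fintype V] {m : ℕ} (G : SimpleGraph V)
    {M : V → V → Fin m → Fin m → Prop} (hM : IsCover M) (v : V) (J : V → Option (Fin m))
    {lam : ℝ} (hl : 0 ≤ lam) (l s : ℕ) :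
    ∀ (S : Finset V) (k : ℕ), S ⊆ nb G v → S.card = s → l + 2 * s ≤ 2 * k + 2 →
    (lam * l / 2) ^ s * ∑ I ∈ unc G M v J S k, wt lam I ≤ ∑ I ∈ Loc G M v J, wt lam I := by
  induction s with
  | zero =>
    intro S k _ _ _
    rw [pow_zero, one_mul]
    apply sum_le_sum_of_subset_of_nonneg
    · unfold unc
      exact filter_subset _ _
    · intro I _ _
      exact tailUnc_wt_nonneg hl I
  | succ s ih =>
    intro S k hS hc hlk
    have hne : S.Nonempty := by
      rw [← card_pos, hc]
      omega
    obtain ⟨u0, hu0⟩ := hne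
    have hstep := tailUnc_step G hM v J hl S hS k u0 hu0
    have hih := ih (S.erase u0) (k - 1) ((erase_subset _ _).trans hS)
      (by rw [card_erase_of_mem hu0, hc]; rfl) (by omega)
    have hE : 0 ≤ ∑ I ∈ unc G M v J S k, wt lam I :=
      sum_nonneg fun I _ => tailUnc_wt_nonneg hl I
    have hlk' : (l : ℝ) ≤ 2 * k := by
      have : l ≤ 2 * k := by omega
      exact_mod_cast this
    have hpow : 0 ≤ (lam * l / 2) ^ s := by positivity
    calc (lam * l / 2) ^ (s + 1) * ∑ I ∈ unc G M v J S k, wt lam I
        = (lam * l / 2) ^ s * ((lam * l / 2) * ∑ I ∈ unc G M v J S k, wt lam I) := by ring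
      _ ≤ (lam * l / 2) ^ s * (lam * k * ∑ I ∈ unc G M v J S k, wt lam I) := by
          apply mul_le_mul_of_nonneg_left _ hpow
          apply mul_le_mul_of_nonneg_right _ hE
          nlinarith
      _ ≤ (lam * l / 2) ^ s * ∑ I ∈ unc G M v J (S.erase u0) (k - 1), wt lam I :=
          mul_le_mul_of_nonneg_left hstep hpow
      _ ≤ _ := hih

theorem tail_unc {V : Type} [Fintype V] {m : ℕ} (G : SimpleGraph V)
    {M : V → V → Fin m → Fin m → Prop} (hM : IsCover M) (v : V) (J : V → Option (Fin m))
    {lam : ℝ} (hl : 0 ≤ lam) (Δ : ℕ) (hΔ : (nb G v).card ≤ Δ) (l t : ℕ) (htl : 2 * t ≤ l) :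
    (lam * l / 2) ^ t * ∑ I ∈ (Loc G M v J).filter (fun I =>
        t ≤ ((nb G v).filter (fun u => I u = none ∧ l ≤ (avail G M I u).card)).card), wt lam I ≤
      (Δ.choose t : ℝ) * ∑ I ∈ Loc G M v J, wt lam I := by
  have hpow : 0 ≤ (lam * l / 2) ^ t := by positivity
  have hZ : 0 ≤ ∑ I ∈ Loc G M v J, wt lam I := sum_nonneg fun I _ => tailUnc_wt_nonneg hl I
  have h1 : ∑ I ∈ (Loc G M v J).filter (fun I =>
        t ≤ ((nb G v).filter (fun u => I u = none ∧ l ≤ (avail G M I u).card)).card), wt lam I ≤
      ∑ S ∈ (nb G v).powersetCard t, ∑ I ∈ unc G M v J S l, wt lam I := by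
    have h2 : ∀ S : Finset V, ∑ I ∈ unc G M v J S l, wt lam I =
        ∑ I ∈ Loc G M v J, if (∀ u ∈ S, I u = none ∧ l ≤ (avail G M I u).card) then wt lam I
          else 0 := by
      intro S
      unfold unc
      rw [sum_filter]
    simp_rw [h2]
    rw [sum_comm, sum_filter]
    apply sum_le_sum
    intro I _
    have hw := tailUnc_wt_nonneg hl I
    have hnn : ∀ S ∈ (nb G v).powersetCard t, 0 ≤
        (if (∀ u ∈ S, I u = none ∧ l ≤ (avail G M I u).card) then wt lam I else 0) := by
      intro S _
      split_ifs
      · exact hw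
      · exact le_rfl
    split_ifs with hc
    · obtain ⟨S, hS, hSc⟩ := exists_subset_card_eq hc
      have hmem : S ∈ (nb G v).powersetCard t := by
        rw [mem_powersetCard]
        exact ⟨hS.trans (filter_subset _ _), hSc⟩
      have hle := single_le_sum hnn hmem
      refine le_trans (le_of_eq ?_) hle
      rw [if_pos]
      intro u hu
      exact (mem_filter.1 (hS hu)).2
    · exact sum_nonneg hnn
  calc (lam * l / 2) ^ t * ∑ I ∈ (Loc G M v J).filter (fun I =>
        t ≤ ((nb G v).filter (fun u => I u = none ∧ l ≤ (avail G M I u).card)).card), wt lam I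
      ≤ (lam * l / 2) ^ t * ∑ S ∈ (nb G v).powersetCard t, ∑ I ∈ unc G M v J S l, wt lam I :=
        mul_le_mul_of_nonneg_left h1 hpow
    _ = ∑ S ∈ (nb G v).powersetCard t, (lam * l / 2) ^ t * ∑ I ∈ unc G M v J S l, wt lam I :=
        mul_sum _ _ _
    _ ≤ ∑ _S ∈ (nb G v).powersetCard t, ∑ I ∈ Loc G M v J, wt lam I := by
        apply sum_le_sum
        intro S hS
        rw [mem_powersetCard] at hS
        exact tailUnc_iter G hM v J hl l t S l hS.1 hS.2 (by omega)
    _ = ((nb G v).card.choose t : ℝ) * ∑ I ∈ Loc G M v J, wt lam I := by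
        rw [sum_const, card_powersetCard, nsmul_eq_mul]
    _ ≤ (Δ.choose t : ℝ) * ∑ I ∈ Loc G M v J, wt lam I := by
        apply mul_le_mul_of_nonneg_right _ hZ
        exact_mod_cast Nat.choose_le_choose t hΔ

end MP06c
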