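import Pool.Agent.Lib.MP_06c6c1_co.Numeric
import Pool.Agent.Lib.MP_06c6c1_co.TailAvail
import Pool.Agent.Lib.MP_06c6c1_co.TailUnc
import Pool.Agent.Lib.MP_06c6c1_co.Assemble

set_option autoImplicit false

/-!
# MP_06c6c1_co: the local criterion for colourings

If the hard-core sums of all subgraphs of the neighbourhoods satisfy
`SS < (2 Δ / m) ZZ → ZZ ≤ 2 h ^ 2` then every matching cover with `m` colours has a colouring.
-/

namespace MP06c

open Finset Classical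

theorem main_local {V : Type} [Fintype V] {m : ℕ} (G : SimpleGraph V)
    {M : V → V → Fin m → Fin m → Prop} (hM : IsCover M) (Δ : ℕ) (hΔ : ∀ v, (nb G v).card ≤ Δ)
    (h : ℝ) (hh : 100 ≤ h) (hhΔ : h ^ 64 ≤ Δ) (hm : m ≤ Δ) (hm2 : 2 * (Δ : ℝ) ≤ h * m)
    (hloc : ∀ (v : V) (F : SimpleGraph V) (A : Finset V), F ≤ G → A ⊆ nb G v →
      SS F A (h ^ 8 / (4 * Δ)) < (2 * Δ / m) * ZZ F A (h ^ 8 / (4 * Δ)) →
      ZZ F A (h ^ 8 / (4 * Δ)) ≤ 2 * h ^ 2) :
    ∃ φ : V → Fin m, ∀ u v, G.Adj u v → ¬ M u v (φ u) (φ v) := by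
  obtain ⟨l, t, p1, p2, eps, he, h1, h2, htl, hp, hE1, hpos, hE2⟩ :=
    numeric Δ m h hh hhΔ hm hm2
  have hΔ0 : (0 : ℝ) < Δ := lt_of_lt_of_le (by positivity) hhΔ
  have hlam : 0 < h ^ 8 / (4 * (Δ : ℝ)) := by positivity
  have hw : ∀ I : V → Option (Fin m), 0 ≤ wt (h ^ 8 / (4 * (Δ : ℝ))) I := by
    intro I
    refine Finset.prod_nonneg (fun v _ => ?_)
    split_ifs
    · norm_num
    · exact hlam.le
  have hSS : ∀ (F : SimpleGraph V) (A : Finset V), 0 ≤ SS F A (h ^ 8 / (4 * (Δ : ℝ))) := by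
    intro F A
    refine Finset.sum_nonneg (fun T _ => ?_)
    positivity
  refine assemble G hM Δ hΔ (lam := h ^ 8 / (4 * (Δ : ℝ))) hlam l t (by omega) p1 p2 h1 h2
    ?_ ?_ hp
  · intro v J
    refine (tail_avail G hM v J (lam := h ^ 8 / (4 * (Δ : ℝ))) (eps := eps)
      (sig := 4 * h ^ 2 * Δ / m) (kap := 2 * Δ / m) hlam.le he (by positivity) Δ (hΔ v)
      ?_ l).trans ?_
    · intro F A hF hA
      have hs : (0 : ℝ) ≤ 4 * h ^ 2 * Δ / m := by positivity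
      by_cases hc : SS F A (h ^ 8 / (4 * (Δ : ℝ))) <
          2 * Δ / m * ZZ F A (h ^ 8 / (4 * (Δ : ℝ)))
      · have h3 := hloc v F A hF hA hc
        have hk : (0 : ℝ) ≤ 2 * Δ / m := by positivity
        have h4 := mul_le_mul_of_nonneg_left h3 hk
        have h5 : 2 * (Δ : ℝ) / m * (2 * h ^ 2) = 4 * h ^ 2 * Δ / m := by ring
        have := hSS F A
        linarith
      · push Not at hc
        linarith
    · exact mul_le_mul_of_nonneg_right hE1 (Finset.sum_nonneg (fun I _ => hw I))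
  · intro v J
    have h3 := tail_unc G hM v J hlam.le Δ (hΔ v) l t htl
    have hX : 0 ≤ ∑ I ∈ Loc G M v J, wt (h ^ 8 / (4 * (Δ : ℝ))) I :=
      Finset.sum_nonneg (fun I _ => hw I)
    have h4 := mul_le_mul_of_nonneg_right hE2 hX
    have h5 : 0 < (h ^ 8 / (4 * (Δ : ℝ)) * l / 2) ^ t := pow_pos hpos t
    have h6 : (h ^ 8 / (4 * (Δ : ℝ)) * l / 2) ^ t *
        ∑ I ∈ (Loc G M v J).filter (fun I =>
        t ≤ ((nb G v).filter (fun u => I u = none ∧ l ≤ (avail G M I u).card)).card),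
          wt (h ^ 8 / (4 * (Δ : ℝ))) I ≤ (h ^ 8 / (4 * (Δ : ℝ)) * l / 2) ^ t *
          (p2 * ∑ I ∈ Loc G M v J, wt (h ^ 8 / (4 * (Δ : ℝ))) I) := by
      calc _ ≤ _ := h3
        _ ≤ _ := h4
        _ = _ := by ring
    exact le_of_mul_le_mul_left h6 h5

end MP06c
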