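import Pool.Agent.Lib.MP_06c6c1_co.Defs

set_option autoImplicit false

/-!
# Counting homomorphisms of `K_{n,n}` (Sidorenko for complete bipartite graphs)
-/

namespace MP06c

open Finset Classical

theorem knncount_pow_sum_le {α : Type} (s : Finset α) (f : α → ℝ) (hf : ∀ a ∈ s, 0 ≤ f a)
    (k : ℕ) : (∑ a ∈ s, f a) ^ (k + 1) ≤ (s.card : ℝ) ^ k * ∑ a ∈ s, f a ^ (k + 1) := by
  rcases s.eq_empty_or_nonempty with h | h
  · subst h
    simp
  · have h1 : (0 : ℝ) < (s.card : ℝ) ^ k := by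
      have : (0 : ℝ) < s.card := by exact_mod_cast h.card_pos
      positivity
    have h2 := pow_sum_div_card_le_sum_pow hf k
    rw [div_le_iff₀ h1] at h2
    linarith

theorem knncount_card_eq {V : Type} (G : SimpleGraph V) (Y : Finset V) (n : ℕ) :
    (Knn G Y n).card = ∑ a ∈ Fintype.piFinset (fun _ : Fin n => Y),
      (Y.filter fun b => ∀ i, G.Adj (a i) b).card ^ n := by
  have h1 : ∀ a ∈ Fintype.piFinset (fun _ : Fin n => Y),
      (Y.filter fun b => ∀ i, G.Adj (a i) b).card ^ n =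
        ((Fintype.piFinset (fun _ : Fin n => Y)).filter
          fun b => ∀ i j, G.Adj (a i) (b j)).card := by
    intro a _
    rw [← Fintype.card_piFinset_const]
    congr 1
    ext b
    simp only [Fintype.mem_piFinset, mem_filter]
    constructor
    · intro h
      exact ⟨fun j => (h j).1, fun i j => (h j).2 i⟩
    · intro h j
      exact ⟨h.1 j, fun i => h.2 i j⟩
  rw [Finset.sum_congr rfl h1]
  unfold Knn
  rw [Finset.card_filter, Finset.sum_product]
  refine Finset.sum_congr rfl fun a _ => ?_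
  rw [Finset.card_filter]

theorem knncount_sum_cod {V : Type} (G : SimpleGraph V) (Y : Finset V) (n : ℕ) :
    ∑ a ∈ Fintype.piFinset (fun _ : Fin n => Y), (Y.filter fun b => ∀ i, G.Adj (a i) b).card =
      ∑ b ∈ Y, (Y.filter fun x => G.Adj x b).card ^ n := by
  have h1 : ∀ b ∈ Y, (Y.filter fun x => G.Adj x b).card ^ n =
      ((Fintype.piFinset (fun _ : Fin n => Y)).filter fun a => ∀ i, G.Adj (a i) b).card := by
    intro b _
    rw [← Fintype.card_piFinset_const]
    congr 1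
    ext a
    simp only [Fintype.mem_piFinset, mem_filter]
    exact forall_and
  rw [Finset.sum_congr rfl h1]
  simp only [Finset.card_filter]
  rw [Finset.sum_comm]

theorem knn_count {V : Type} (G : SimpleGraph V) (Y : Finset V) (n : ℕ) :
    (∑ x ∈ Y, ((Y.filter (fun y => G.Adj x y)).card : ℝ)) ^ (n ^ 2) ≤
      (Y.card : ℝ) ^ (2 * n * (n - 1)) * ((Knn G Y n).card : ℝ) := by
  rcases n with _ | k
  · rw [knncount_card_eq]
    simp
  · obtain ⟨S, hS⟩ : ∃ S, S = ∑ x ∈ Y, ((Y.filter (fun y => G.Adj x y)).card : ℝ) := ⟨_, rfl⟩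
    obtain ⟨D, hD⟩ : ∃ D, D = ∑ b ∈ Y, ((Y.filter fun x => G.Adj x b).card : ℝ) ^ (k + 1) :=
      ⟨_, rfl⟩
    have hS0 : 0 ≤ S := by
      rw [hS]
      positivity
    have h1 : S = ∑ b ∈ Y, ((Y.filter fun x => G.Adj x b).card : ℝ) := by
      rw [hS]
      refine Finset.sum_congr rfl fun x _ => ?_
      congr 2
      ext y
      simp only [mem_filter, G.adj_comm]
    have h2 : S ^ (k + 1) ≤ (Y.card : ℝ) ^ k * D := by
      rw [h1, hD]
      exact knncount_pow_sum_le Y _ (fun _ _ => Nat.cast_nonneg _) k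
    have h3 : D = ∑ a ∈ Fintype.piFinset (fun _ : Fin (k + 1) => Y),
        ((Y.filter fun b => ∀ i, G.Adj (a i) b).card : ℝ) := by
      rw [hD]
      exact_mod_cast (knncount_sum_cod G Y (k + 1)).symm
    have h4 : D ^ (k + 1) ≤ ((Y.card : ℝ) ^ (k + 1)) ^ k * ((Knn G Y (k + 1)).card : ℝ) := by
      rw [h3, knncount_card_eq]
      push_cast
      refine (knncount_pow_sum_le _ _ (fun _ _ => Nat.cast_nonneg _) k).trans (le_of_eq ?_)
      rw [Fintype.card_piFinset_const]
      push_cast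
      rfl
    have hD0 : 0 ≤ D := by
      rw [hD]
      positivity
    rw [← hS]
    calc S ^ ((k + 1) ^ 2) = (S ^ (k + 1)) ^ (k + 1) := by rw [← pow_mul, sq]
      _ ≤ ((Y.card : ℝ) ^ k * D) ^ (k + 1) := pow_le_pow_left₀ (by positivity) h2 _
      _ = ((Y.card : ℝ) ^ k) ^ (k + 1) * D ^ (k + 1) := mul_pow _ _ _
      _ ≤ ((Y.card : ℝ) ^ k) ^ (k + 1) *
          (((Y.card : ℝ) ^ (k + 1)) ^ k * ((Knn G Y (k + 1)).card : ℝ)) :=
        mul_le_mul_of_nonneg_left h4 (by positivity)
      _ = (Y.card : ℝ) ^ (2 * (k + 1) * (k + 1 - 1)) * ((Knn G Y (k + 1)).card : ℝ) := by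
        rw [Nat.add_sub_cancel, ← mul_assoc, ← pow_mul, ← pow_mul, ← pow_add]
        congr 2
        ring

end MP06c
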