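import Pool.Agent.Lib.MP_06c6c1_co.Defs

set_option autoImplicit false

/-!
# Homomorphisms from `K_{n,n}`: injective and noninjective ones
-/

namespace MP06c

open Finset Classical

theorem card_pair_eq {V : Type} (Y : Finset V) {ι : Type} [Fintype ι] [DecidableEq ι] {a b : ι} (hab : a ≠ b) :
    ((Fintype.piFinset (fun _ : ι => Y)).filter (fun z => z a = z b)).card ≤
      Y.card ^ (Fintype.card ι - 1) := by
  have h1 : ((Fintype.piFinset (fun _ : ι => Y)).filter (fun z => z a = z b)).card ≤
      (Fintype.piFinset (fun _ : {x : ι // x ≠ b} => Y)).card := by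
    refine Finset.card_le_card_of_injOn (fun z x => z x.1) ?_ ?_
    · intro z hz
      have hz' := (Finset.mem_filter.mp (Finset.mem_coe.mp hz)).1
      rw [Fintype.mem_piFinset] at hz'
      rw [Finset.mem_coe, Fintype.mem_piFinset]
      exact fun x => hz' x.1
    · intro z hz z' hz' h
      have e1 := (Finset.mem_filter.mp (Finset.mem_coe.mp hz)).2
      have e2 := (Finset.mem_filter.mp (Finset.mem_coe.mp hz')).2
      funext x
      by_cases hx : x = b
      · rw [hx, ← e1, ← e2]
        exact congrFun h ⟨a, hab⟩
      · exact congrFun h ⟨x, hx⟩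
  refine h1.trans (le_of_eq ?_)
  rw [Fintype.card_piFinset, Finset.prod_const, Finset.card_univ, Fintype.card_subtype_compl,
    Fintype.card_subtype_eq]

theorem card_lt_pairs {ι : Type} [Fintype ι] {N : ℕ} (e : ι ≃ Fin N) :
    2 * ((univ : Finset (ι × ι)).filter (fun q => e q.1 < e q.2)).card ≤ N * N := by
  have h1 : ((univ : Finset (ι × ι)).filter (fun q => e q.1 < e q.2)).card =
      ((univ : Finset (ι × ι)).filter (fun q => e q.2 < e q.1)).card := by
    refine Finset.card_bij' (fun q _ => q.swap) (fun q _ => q.swap) ?_ ?_ ?_ ?_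
    · intro q hq
      rw [Finset.mem_filter] at hq ⊢
      exact ⟨Finset.mem_univ _, hq.2⟩
    · intro q hq
      rw [Finset.mem_filter] at hq ⊢
      exact ⟨Finset.mem_univ _, hq.2⟩
    · intro q _
      exact Prod.swap_swap q
    · intro q _
      exact Prod.swap_swap q
  have h2 : Disjoint ((univ : Finset (ι × ι)).filter (fun q => e q.1 < e q.2))
      ((univ : Finset (ι × ι)).filter (fun q => e q.2 < e q.1)) := by
    rw [Finset.disjoint_filter]
    intro q _ hq hq'
    exact lt_asymm hq hq'
  have h3 := Finset.card_union_of_disjoint h2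
  have h4 := Finset.card_le_univ (((univ : Finset (ι × ι)).filter (fun q => e q.1 < e q.2)) ∪
    ((univ : Finset (ι × ι)).filter (fun q => e q.2 < e q.1)))
  have h5 : Fintype.card (ι × ι) = N * N := by
    rw [Fintype.card_prod, Fintype.card_congr e, Fintype.card_fin]
  rw [h3, ← h1, h5] at h4
  omega

theorem knn_noninj {V : Type} (G : SimpleGraph V) (Y : Finset V) (n : ℕ) (hn : 1 ≤ n) :
    ((Knn G Y n).filter (fun p => ¬ Function.Injective (Sum.elim p.1 p.2))).card ≤
      2 * n ^ 2 * Y.card ^ (2 * n - 1) := by
  set P := (univ : Finset ((Fin n ⊕ Fin n) × (Fin n ⊕ Fin n))).filter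
    (fun q => finSumFinEquiv q.1 < finSumFinEquiv q.2) with hP
  have hPc : P.card ≤ 2 * n ^ 2 := by
    have h1 := card_lt_pairs (finSumFinEquiv : Fin n ⊕ Fin n ≃ Fin (n + n))
    rw [← hP] at h1
    nlinarith
  have h1 : ((Knn G Y n).filter (fun p => ¬ Function.Injective (Sum.elim p.1 p.2))).card ≤
      (P.biUnion fun q => (Fintype.piFinset (fun _ : Fin n ⊕ Fin n => Y)).filter
        (fun z => z q.1 = z q.2)).card := by
    refine Finset.card_le_card_of_injOn (fun p => Sum.elim p.1 p.2) ?_ ?_
    · intro p hp
      rw [Finset.mem_coe, Finset.mem_filter, Knn, Finset.mem_filter, Finset.mem_product,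
        Fintype.mem_piFinset, Fintype.mem_piFinset] at hp
      obtain ⟨⟨⟨hp1, hp2⟩, -⟩, hp3⟩ := hp
      have hmem : Sum.elim p.1 p.2 ∈ Fintype.piFinset (fun _ : Fin n ⊕ Fin n => Y) := by
        rw [Fintype.mem_piFinset]
        rintro (i | i)
        · exact hp1 i
        · exact hp2 i
      simp only [Function.Injective, not_forall] at hp3
      obtain ⟨a, b, hab, hne⟩ := hp3
      have hne' : (finSumFinEquiv a : Fin (n + n)) ≠ finSumFinEquiv b :=
        fun h => hne (finSumFinEquiv.injective h)
      rw [Finset.mem_coe, Finset.mem_biUnion]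
      rcases lt_or_gt_of_ne hne' with h | h
      · exact ⟨(a, b), Finset.mem_filter.mpr ⟨Finset.mem_univ _, h⟩,
          Finset.mem_filter.mpr ⟨hmem, hab⟩⟩
      · exact ⟨(b, a), Finset.mem_filter.mpr ⟨Finset.mem_univ _, h⟩,
          Finset.mem_filter.mpr ⟨hmem, hab.symm⟩⟩
    · intro p _ p' _ h
      refine Prod.ext ?_ ?_
      · funext i
        exact congrFun h (Sum.inl i)
      · funext i
        exact congrFun h (Sum.inr i)
  have h2 : (P.biUnion fun q => (Fintype.piFinset (fun _ : Fin n ⊕ Fin n => Y)).filter
        (fun z => z q.1 = z q.2)).card ≤ P.card * Y.card ^ (2 * n - 1) := by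
    refine Finset.card_biUnion_le_card_mul _ _ _ ?_
    intro q hq
    have hne : q.1 ≠ q.2 := by
      intro h
      have h3 := (Finset.mem_filter.mp hq).2
      rw [h] at h3
      exact lt_irrefl _ h3
    have h3 := card_pair_eq Y hne
    rw [Fintype.card_sum, Fintype.card_fin, ← two_mul] at h3
    exact h3
  exact h1.trans (h2.trans (Nat.mul_le_mul_right _ hPc))

theorem knn_inj {n : ℕ} (F : SimpleGraph (Fin n)) (hF : F.Colorable 2) {V : Type}
    (G : SimpleGraph V) (Y : Finset V) :
    ((Knn G Y n).filter (fun p => Function.Injective (Sum.elim p.1 p.2))).card ≤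
      Y.card ^ n * (injH F G Y).card := by
  obtain ⟨col⟩ := hF
  have h1 : Y.card ^ n * (injH F G Y).card =
      ((Fintype.piFinset (fun _ : Fin n => Y)) ×ˢ injH F G Y).card := by
    rw [Finset.card_product, Fintype.card_piFinset_const]
  rw [h1]
  refine Finset.card_le_card_of_injOn
    (fun p => ((fun a => if col a = 0 then p.2 a else p.1 a),
      (fun a => if col a = 0 then p.1 a else p.2 a))) ?_ ?_
  · intro p hp
    rw [Finset.mem_coe, Finset.mem_filter, Knn, Finset.mem_filter, Finset.mem_product,
      Fintype.mem_piFinset, Fintype.mem_piFinset] at hp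
    obtain ⟨⟨⟨hp1, hp2⟩, hp3⟩, hp4⟩ := hp
    rw [Finset.mem_coe, Finset.mem_product, Fintype.mem_piFinset, injH, Finset.mem_filter,
      Fintype.mem_piFinset]
    refine ⟨?_, ?_, ?_, ?_⟩
    · intro a
      dsimp only
      split_ifs
      · exact hp2 a
      · exact hp1 a
    · intro a
      dsimp only
      split_ifs
      · exact hp1 a
      · exact hp2 a
    · intro a b hab
      have h2 : ∀ c : Fin n, (if col c = 0 then p.1 c else p.2 c) =
          Sum.elim p.1 p.2 (if col c = 0 then Sum.inl c else Sum.inr c) := by
        intro c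
        split_ifs <;> rfl
      have h3 : Sum.elim p.1 p.2 (if col a = 0 then Sum.inl a else Sum.inr a) =
          Sum.elim p.1 p.2 (if col b = 0 then Sum.inl b else Sum.inr b) := by
        rw [← h2, ← h2]
        exact hab
      have h4 := hp4 h3
      split_ifs at h4
      · exact Sum.inl.inj h4
      · exact Sum.inr.inj h4
    · intro a b hab
      have hne : col a ≠ col b := col.valid hab
      dsimp only
      by_cases ha : col a = 0
      · have hb : col b ≠ 0 := fun h => hne (ha.trans h.symm)
        rw [if_pos ha, if_neg hb]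
        exact hp3 a b
      · have hb : col b = 0 := by
          by_contra hb
          apply hne
          generalize col a = x at ha
          generalize col b = y at hb
          omega
        rw [if_neg ha, if_pos hb]
        exact (hp3 b a).symm
  · intro p _ p' _ h
    have e1 := congrArg Prod.fst h
    have e2 := congrArg Prod.snd h
    refine Prod.ext ?_ ?_
    · funext a
      have f1 := congrFun e1 a
      have f2 := congrFun e2 a
      dsimp only at f1 f2
      by_cases ha : col a = 0
      · rwa [if_pos ha, if_pos ha] at f2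
      · rwa [if_neg ha, if_neg ha] at f1
    · funext a
      have f1 := congrFun e1 a
      have f2 := congrFun e2 a
      dsimp only at f1 f2
      by_cases ha : col a = 0
      · rwa [if_pos ha, if_pos ha] at f1
      · rwa [if_neg ha, if_neg ha] at f2

end MP06c
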