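import Pool.Agent.Lib.MP_06c6c1_co.InjH
import Pool.Agent.Lib.MP_06c6c1_co.KnnCount
import Pool.Agent.Lib.MP_06c6c1_co.KnnInj

set_option autoImplicit false

namespace MP06c

open Finset Classical

theorem supersat {n : ℕ} (F : SimpleGraph (Fin n)) (hn : 1 ≤ n) (hF : F.Colorable 2) {V : Type}
    [Fintype V] (G : SimpleGraph V) (v : V) (Δ : ℕ) (hΔ : (nb G v).card ≤ Δ) (hΔ0 : 0 < Δ) (k : ℝ)
    (hk : ((({H : G.Subgraph | H.verts ⊆ G.neighborSet v ∧ Nonempty (F ≃g H.coe)} :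
          Set G.Subgraph).ncard : ℝ) ≤ k)) :
    ((∑ x ∈ nb G v, (((nb G v).filter (fun y => G.Adj x y)).card : ℝ)) / (Δ : ℝ) ^ 2) ^ (n ^ 2) ≤
      n.factorial * k / (Δ : ℝ) ^ n + 2 * (n : ℝ) ^ 2 / Δ := by
  set E : ℝ := ∑ x ∈ nb G v, (((nb G v).filter (fun y => G.Adj x y)).card : ℝ) with hE
  have h1 := knn_count G (nb G v) n
  rw [← hE] at h1
  have h2 := knn_noninj G (nb G v) n hn
  have h3 := knn_inj F hF G (nb G v)
  have h4 := injH_le_copies F G v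
  set N := (({H : G.Subgraph | H.verts ⊆ G.neighborSet v ∧ Nonempty (F ≃g H.coe)} :
          Set G.Subgraph).ncard) with hN
  have hD : (0 : ℝ) < (Δ : ℝ) := by exact_mod_cast hΔ0
  have hk0 : (0 : ℝ) ≤ k := le_trans (Nat.cast_nonneg _) hk
  have h5 : (Knn G (nb G v) n).card ≤
      (nb G v).card ^ n * (n.factorial * N) + 2 * n ^ 2 * (nb G v).card ^ (2 * n - 1) := by
    rw [← Finset.card_filter_add_card_filter_not
      (s := Knn G (nb G v) n) (fun p => Function.Injective (Sum.elim p.1 p.2))]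
    exact add_le_add (h3.trans (Nat.mul_le_mul_left _ h4)) h2
  have hy : ((nb G v).card : ℝ) ≤ (Δ : ℝ) := by exact_mod_cast hΔ
  have hy0 : (0 : ℝ) ≤ ((nb G v).card : ℝ) := Nat.cast_nonneg _
  have h6 : ((Knn G (nb G v) n).card : ℝ) ≤
      (Δ : ℝ) ^ n * (n.factorial * k) + 2 * (n : ℝ) ^ 2 * (Δ : ℝ) ^ (2 * n - 1) := by
    have h5' : ((Knn G (nb G v) n).card : ℝ) ≤
        ((nb G v).card : ℝ) ^ n * (n.factorial * N) +
          2 * (n : ℝ) ^ 2 * ((nb G v).card : ℝ) ^ (2 * n - 1) := by exact_mod_cast h5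
    refine h5'.trans (add_le_add ?_ ?_)
    · apply mul_le_mul (pow_le_pow_left₀ hy0 hy n) _ (by positivity) (by positivity)
      exact mul_le_mul_of_nonneg_left hk (by positivity)
    · exact mul_le_mul_of_nonneg_left (pow_le_pow_left₀ hy0 hy _) (by positivity)
  have h7 : E ^ (n ^ 2) ≤ (Δ : ℝ) ^ (2 * n * (n - 1)) *
      ((Δ : ℝ) ^ n * (n.factorial * k) + 2 * (n : ℝ) ^ 2 * (Δ : ℝ) ^ (2 * n - 1)) := by
    refine h1.trans (mul_le_mul (pow_le_pow_left₀ hy0 hy _) h6 (by positivity) (by positivity))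
  have e1 : ((Δ : ℝ) ^ 2) ^ (n ^ 2) = (Δ : ℝ) ^ (2 * n * (n - 1)) * ((Δ : ℝ) ^ n * (Δ : ℝ) ^ n) := by
    rw [← pow_mul, ← pow_add, ← pow_add]
    congr 1
    obtain ⟨j, rfl⟩ : ∃ j, n = j + 1 := ⟨n - 1, by omega⟩
    simp only [Nat.add_sub_cancel]
    ring
  have e2 : (Δ : ℝ) ^ n * (Δ : ℝ) ^ n = (Δ : ℝ) ^ (2 * n - 1) * Δ := by
    rw [← pow_add, ← pow_succ]
    congr 1
    omega
  rw [div_pow, e1, div_le_iff₀ (by positivity)]
  refine h7.trans (le_of_eq ?_)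
  have e3 : (n.factorial * k / (Δ : ℝ) ^ n + 2 * (n : ℝ) ^ 2 / Δ) *
      ((Δ : ℝ) ^ (2 * n * (n - 1)) * ((Δ : ℝ) ^ n * (Δ : ℝ) ^ n)) =
      (Δ : ℝ) ^ (2 * n * (n - 1)) * ((n.factorial * k / (Δ : ℝ) ^ n) * ((Δ : ℝ) ^ n * (Δ : ℝ) ^ n)
        + (2 * (n : ℝ) ^ 2 / Δ) * ((Δ : ℝ) ^ n * (Δ : ℝ) ^ n)) := by ring
  rw [e3]
  congr 1
  congr 1
  · field_simp
  · rw [e2]; field_simp

end MP06c
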