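import Pool.Agent.Lib.MP_06c6c1_co.Basic
import Pool.Agent.Lib.MP_06c6c1_co.MainLocal
import Pool.Agent.Lib.MP_06c6c1_co.GraphA
import Pool.Agent.Lib.MP_06c6c1_co.Supersat

set_option autoImplicit false

/-!
# MP_06c6c1_co: bipartite `F`, full range of `k`
-/

namespace MP06c

open Finset Classical

/-- Edge sums of subgraphs inside subsets are smaller. -/
theorem edge_mono {V : Type} [Fintype V] (G F : SimpleGraph V) (hF : F ≤ G) (Y A : Finset V)
    (hA : A ⊆ Y) :
    ∑ x ∈ A, ((A.filter (fun y => F.Adj x y)).card : ℝ) ≤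
      ∑ x ∈ Y, ((Y.filter (fun y => G.Adj x y)).card : ℝ) := by
  calc ∑ x ∈ A, ((A.filter (fun y => F.Adj x y)).card : ℝ)
      ≤ ∑ x ∈ A, ((Y.filter (fun y => G.Adj x y)).card : ℝ) := by
        refine Finset.sum_le_sum (fun x _ => ?_)
        have : (A.filter (fun y => F.Adj x y)).card ≤ (Y.filter (fun y => G.Adj x y)).card := by
          refine Finset.card_le_card (fun y hy => ?_)
          rw [Finset.mem_filter] at hy ⊢
          exact ⟨hA hy.1, hF hy.2⟩
        exact_mod_cast this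
    _ ≤ _ := Finset.sum_le_sum_of_subset_of_nonneg hA (fun _ _ _ => by positivity)

/-- The case of large `g`. -/
theorem caseA {n : ℕ} (hn : 2 ≤ n) (F : SimpleGraph (Fin n)) (hF : F.Colorable 2) {Δ : ℕ}
    {g h : ℝ} (hg1 : 1 < g) (hg2 : g ≤ 2 * Δ) (hh : 150 ≤ h) (hhΔ : h ^ 64 ≤ Δ)
    (hhg : h ^ (16 * n ^ 2) ≤ g / ((n.factorial : ℝ) + 4 * (n : ℝ) ^ 2)) {k : ℝ}
    (hk : k = ((Δ : ℝ) / g) ^ n)
    {V : Type} [Fintype V] (G : SimpleGraph V) (hΔ : ∀ v, (nb G v).card ≤ Δ)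
    (hcop : ∀ v, (cop F G v : ℝ) ≤ k) :
    ∃ m : ℕ, (m : ℝ) ≤ 5 * Δ / Real.log h ∧
        ∀ M : V → V → Fin m → Fin m → Prop, IsCover M →
          ∃ φ : V → Fin m, ∀ u v, G.Adj u v → ¬ M u v (φ u) (φ v) := by
  have hΔ0 : (0 : ℝ) < Δ := lt_of_lt_of_le (by positivity) hhΔ
  have hΔ0' : 0 < Δ := by exact_mod_cast hΔ0
  have hhΔ1 : h ≤ Δ := by
    calc h = h ^ 1 := (pow_one h).symm
      _ ≤ h ^ 64 := pow_le_pow_right₀ (by linarith) (by norm_num)
      _ ≤ Δ := hhΔ
  have hlog5 : 5 ≤ Real.log h := by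
    rw [Real.le_log_iff_exp_le (by linarith)]
    have h1 : Real.exp 5 = Real.exp 1 ^ 5 := by
      rw [← Real.exp_nat_mul]; norm_num
    have h2 : Real.exp 1 < 2.7182818286 := Real.exp_one_lt_d9
    have h3 : Real.exp 1 ^ 5 ≤ 2.7182818286 ^ 5 :=
      pow_le_pow_left₀ (Real.exp_pos 1).le h2.le 5
    rw [h1]
    norm_num at h3 ⊢
    linarith
  have hlogh : Real.log h ≤ h := by
    have := Real.log_le_sub_one_of_pos (show (0 : ℝ) < h by linarith)
    linarith
  have hlog0 : 0 < Real.log h := by linarith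
  set m : ℕ := ⌈4 * Δ / Real.log h⌉₊ with hm
  have hm1 : 4 * Δ / Real.log h ≤ m := Nat.le_ceil _
  have hm2 : (m : ℝ) < 4 * Δ / Real.log h + 1 := Nat.ceil_lt_add_one (by positivity)
  have hm0 : (0 : ℝ) < m := lt_of_lt_of_le (by positivity) hm1
  refine ⟨m, ?_, ?_⟩
  · have h1 : 1 ≤ Δ / Real.log h := by
      rw [le_div_iff₀ hlog0]; linarith
    have h2 : 5 * (Δ : ℝ) / Real.log h = 4 * Δ / Real.log h + Δ / Real.log h := by ring
    linarith
  · intro M hM
    have hmΔ : m ≤ Δ := by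
      have h1 : 4 * (Δ : ℝ) / Real.log h ≤ 4 * Δ / 5 := by gcongr
      have h2 : (m : ℝ) ≤ Δ := by linarith
      exact_mod_cast h2
    have hhm : 2 * (Δ : ℝ) ≤ h * m := by
      rw [div_le_iff₀ hlog0] at hm1
      nlinarith
    refine main_local G hM Δ hΔ h (by linarith) hhΔ hmΔ hhm ?_
    intro v F' A hF' hA hS
    refine graphA F' A Δ h (2 * Δ / m) (by linarith) hhΔ ?_ ?_ ?_ hS
    · have : A.card ≤ Δ := (Finset.card_le_card hA).trans (hΔ v)
      exact_mod_cast this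
    · rw [div_le_iff₀ hm0]
      rw [div_le_iff₀ hlog0] at hm1
      linarith
    · refine (edge_mono G F' hF' (nb G v) A hA).trans ?_
      set E : ℝ := ∑ x ∈ nb G v, (((nb G v).filter (fun y => G.Adj x y)).card : ℝ) with hE
      have hE0 : 0 ≤ E := Finset.sum_nonneg (fun _ _ => by positivity)
      have hs := supersat F (by omega) hF G v Δ (hΔ v) hΔ0' k (hcop v)
      rw [← hE] at hs
      have hg0 : 0 < g := by linarith
      have hkd : k / (Δ : ℝ) ^ n ≤ 1 / g := by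
        rw [hk, div_pow, div_div, mul_comm (g ^ n), ← div_div, div_self (by positivity)]
        rw [div_le_div_iff₀ (by positivity) hg0]
        have : g ^ 1 ≤ g ^ n := pow_le_pow_right₀ hg1.le (by omega)
        rw [pow_one] at this
        linarith
      have h1 : (n.factorial : ℝ) * k / (Δ : ℝ) ^ n ≤ n.factorial / g := by
        rw [mul_div_assoc]
        calc (n.factorial : ℝ) * (k / (Δ : ℝ) ^ n) ≤ n.factorial * (1 / g) := by gcongr
          _ = _ := by ring
      have h2 : 2 * (n : ℝ) ^ 2 / Δ ≤ 4 * (n : ℝ) ^ 2 / g := by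
        rw [div_le_div_iff₀ hΔ0 hg0]
        have : 0 ≤ (n : ℝ) ^ 2 := by positivity
        nlinarith
      have h3 : (E / (Δ : ℝ) ^ 2) ^ (n ^ 2) ≤ (1 / h ^ 16) ^ (n ^ 2) := by
        calc (E / (Δ : ℝ) ^ 2) ^ (n ^ 2) ≤ _ := hs
          _ ≤ n.factorial / g + 4 * (n : ℝ) ^ 2 / g := add_le_add h1 h2
          _ = (g / ((n.factorial : ℝ) + 4 * (n : ℝ) ^ 2))⁻¹ := by
            rw [inv_div]; ring
          _ ≤ (h ^ (16 * n ^ 2))⁻¹ := by
            refine inv_anti₀ (by positivity) hhg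
          _ = (1 / h ^ 16) ^ (n ^ 2) := by
            rw [one_div, inv_pow, ← pow_mul]
      have h4 : E / (Δ : ℝ) ^ 2 ≤ 1 / h ^ 16 := by
        refine le_of_pow_le_pow_left₀ (n := n ^ 2) ?_ (by positivity) h3
        positivity
      rw [div_le_div_iff₀ (by positivity) (by positivity)] at h4
      rw [le_div_iff₀ (by positivity)]
      have : 0 ≤ (Δ : ℝ) ^ 2 := by positivity
      linarith

/-- Bipartite `F`: the bound of the problem, in the full range of `k`. -/
theorem finalA (n : ℕ) (F : SimpleGraph (Fin n)) (hF : F.Colorable 2) :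
    ∃ C : ℝ, ∃ Δ₀ : ℕ, ∀ Δ : ℕ, Δ₀ ≤ Δ →
    ∀ k : ℝ, 1 / 2 ≤ k → k < (Δ : ℝ) ^ n →
    ∀ (V : Type) [Fintype V] (G : SimpleGraph V),
      (∀ v : V, (G.neighborSet v).ncard ≤ Δ) →
      (∃ v : V, (G.neighborSet v).ncard = Δ) →
      (∀ v : V, ((({H : G.Subgraph | H.verts ⊆ G.neighborSet v ∧ Nonempty (F ≃g H.coe)} :
          Set G.Subgraph).ncard : ℝ) ≤ k)) →
      ∃ m : ℕ, (m : ℝ) ≤ C * (Δ : ℝ) / Real.log ((Δ : ℝ) * k ^ (-(1 : ℝ) / (n : ℝ))) ∧
        ∀ M : V → V → Fin m → Fin m → Prop,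
          (∀ u v i j, M u v i j ↔ M v u j i) →
          (∀ u v i j j', M u v i j → M u v i j' → j = j') →
          (∀ u v i i' j, M u v i j → M u v i' j → i = i') →
          ∃ φ : V → Fin m, ∀ u v, G.Adj u v → ¬ M u v (φ u) (φ v) := by
  set Cn : ℝ := (n.factorial : ℝ) + 4 * (n : ℝ) ^ 2 with hCn
  have hCn1 : 1 ≤ Cn := by
    have : (1 : ℝ) ≤ n.factorial := by exact_mod_cast Nat.one_le_iff_ne_zero.2 (Nat.factorial_ne_zero n)
    have h2 : (0 : ℝ) ≤ 4 * (n : ℝ) ^ 2 := by positivity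
    linarith
  set g0 : ℝ := Cn ^ 2 * 150 ^ (16 * n ^ 2) with hg0
  have hg01 : 1 ≤ g0 := by
    rw [hg0]
    have h1 : 1 ≤ Cn ^ 2 := one_le_pow₀ hCn1
    have h2 : (1 : ℝ) ≤ 150 ^ (16 * n ^ 2) := one_le_pow₀ (by norm_num)
    nlinarith
  have hlg0 : 0 ≤ Real.log g0 := Real.log_nonneg hg01
  refine ⟨640 * (n : ℝ) ^ 2 + 2 * Real.log g0, 150 ^ 64, ?_⟩
  intro Δ hΔ0 k hk1 hk2 V _ G hdeg hmax hcop
  have hΔb : (150 : ℝ) ^ 64 ≤ Δ := by exact_mod_cast hΔ0
  have hΔpos : 0 < Δ := lt_of_lt_of_le (by positivity) hΔ0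
  have hΔr : (0 : ℝ) < Δ := by exact_mod_cast hΔpos
  have hΔ : ∀ v, (nb G v).card ≤ Δ := fun v => by rw [nb_card]; exact hdeg v
  obtain ⟨v0, hv0⟩ := hmax
  have hn : 2 ≤ n := two_le F hk2 G (v := v0) (by rw [nb_card]; exact hv0) (hcop v0)
  obtain ⟨hg1, hg2, hgk⟩ := gfacts (by omega) hΔpos hk1 hk2
  set g : ℝ := (Δ : ℝ) * k ^ (-(1 : ℝ) / (n : ℝ)) with hg
  have hgpos : 0 < g := by linarith
  have hlg : 0 < Real.log g := Real.log_pos hg1
  have hn2 : (1 : ℝ) ≤ (n : ℝ) ^ 2 := by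
    have : (1 : ℝ) ≤ n := by exact_mod_cast (by omega : 1 ≤ n)
    nlinarith
  rcases lt_or_ge g g0 with hc | hc
  · -- small `g`
    refine ⟨Δ + 1, ?_, ?_⟩
    · rw [le_div_iff₀ hlg]
      have h1 : Real.log g ≤ Real.log g0 := Real.log_le_log hgpos hc.le
      have h2 : (1 : ℝ) ≤ Δ := by exact_mod_cast hΔpos
      push_cast
      have h3 : ((Δ : ℝ) + 1) * Real.log g ≤ (2 * Δ) * Real.log g0 := by
        apply mul_le_mul (by linarith) h1 hlg.le (by linarith)
      have h4 : 0 ≤ 640 * (n : ℝ) ^ 2 * Δ := by positivity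
      nlinarith
    · intro M h1 h2 h3
      exact greedy_case G ⟨h1, h2, h3⟩ (fun v => Nat.lt_succ_of_le (hΔ v))
  · -- large `g`
    have hgC : Cn * 150 ^ (16 * n ^ 2) ≤ g / Cn := by
      rw [le_div_iff₀ (by linarith)]
      calc Cn * 150 ^ (16 * n ^ 2) * Cn = g0 := by rw [hg0]; ring
        _ ≤ g := hc
    have hgC2 : (150 : ℝ) ^ (16 * n ^ 2) ≤ g / Cn := by
      refine le_trans ?_ hgC
      have : (0 : ℝ) < 150 ^ (16 * n ^ 2) := by positivity
      nlinarith
    have hgCpos : 0 < g / Cn := by positivity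
    set a : ℝ := (g / Cn) ^ (((16 * n ^ 2 : ℕ) : ℝ)⁻¹) with ha
    set b : ℝ := (Δ : ℝ) ^ (((64 : ℕ) : ℝ)⁻¹) with hb
    have hne : 16 * n ^ 2 ≠ 0 := by positivity
    have hapow : a ^ (16 * n ^ 2) = g / Cn := Real.rpow_inv_natCast_pow hgCpos.le hne
    have hbpow : b ^ 64 = Δ := Real.rpow_inv_natCast_pow hΔr.le (by norm_num)
    have ha0 : 0 < a := Real.rpow_pos_of_pos hgCpos _
    have hb0 : 0 < b := Real.rpow_pos_of_pos hΔr _
    have ha150 : 150 ≤ a := by
      refine le_of_pow_le_pow_left₀ (n := 16 * n ^ 2) hne ha0.le ?_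
      rw [hapow]; exact hgC2
    have hb150 : 150 ≤ b := by
      refine le_of_pow_le_pow_left₀ (n := 64) (by norm_num) hb0.le ?_
      rw [hbpow]; exact hΔb
    have hloga : Real.log g / (128 * (n : ℝ) ^ 2) ≤ Real.log a := by
      have h1 : Real.log a = (((16 * n ^ 2 : ℕ) : ℝ)⁻¹) * Real.log (g / Cn) := by
        rw [ha, Real.log_rpow hgCpos]
      have h2 : Real.log (g / Cn) = Real.log g - Real.log Cn :=
        Real.log_div hgpos.ne' (by linarith)
      have h3 : Real.log (Cn ^ 2) ≤ Real.log g := by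
        refine Real.log_le_log (by positivity) (le_trans ?_ hc)
        rw [hg0]
        have h2 : (1 : ℝ) ≤ 150 ^ (16 * n ^ 2) := one_le_pow₀ (by norm_num)
        have h1 : 0 < Cn ^ 2 := by positivity
        nlinarith
      rw [Real.log_pow] at h3
      push_cast at h3 h1
      rw [h1, h2, div_le_iff₀ (by positivity)]
      have h4 : (16 * (n : ℝ) ^ 2)⁻¹ * (Real.log g - Real.log Cn) * (128 * (n : ℝ) ^ 2) =
          8 * (Real.log g - Real.log Cn) := by
        field_simp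
        ring
      rw [h4]
      linarith
    have hlogb : Real.log g / (128 * (n : ℝ) ^ 2) ≤ Real.log b := by
      have h1 : Real.log b = (((64 : ℕ) : ℝ)⁻¹) * Real.log Δ := by
        rw [hb, Real.log_rpow hΔr]
      have h2 : g ^ (1 / 2 : ℝ) ≤ Δ := by
        have h4 : (4 : ℝ) ≤ g := by
          refine le_trans ?_ hc
          rw [hg0]
          have h1 : 1 ≤ Cn ^ 2 := one_le_pow₀ hCn1
          have h2 : (150 : ℝ) ≤ 150 ^ (16 * n ^ 2) := by
            calc (150 : ℝ) = 150 ^ 1 := (pow_one _).symm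
              _ ≤ 150 ^ (16 * n ^ 2) := pow_le_pow_right₀ (by norm_num) (by omega)
          nlinarith
        have h5 : (g ^ (1 / 2 : ℝ)) * (g ^ (1 / 2 : ℝ)) = g := by
          rw [← Real.rpow_add hgpos]; norm_num
        have h6 : 0 < g ^ (1 / 2 : ℝ) := Real.rpow_pos_of_pos hgpos _
        have h7 : 2 ≤ g ^ (1 / 2 : ℝ) := by
          by_contra hcc
          push Not at hcc
          nlinarith
        nlinarith
      have h3 : Real.log g / 2 ≤ Real.log Δ := by
        have := Real.log_le_log (Real.rpow_pos_of_pos hgpos _) h2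
        rw [Real.log_rpow hgpos] at this
        linarith
      rw [h1, div_le_iff₀ (by positivity)]
      push_cast
      have h4 : 0 ≤ Real.log Δ := by linarith
      nlinarith
    obtain ⟨m, hm1, hm2⟩ := caseA hn F hF (h := min a b) hg1 hg2 (le_min ha150 hb150) (by
      calc (min a b) ^ 64 ≤ b ^ 64 :=
            pow_le_pow_left₀ (by positivity) (min_le_right a b) 64
        _ = Δ := hbpow) (by
      calc (min a b) ^ (16 * n ^ 2) ≤ a ^ (16 * n ^ 2) :=
            pow_le_pow_left₀ (by positivity) (min_le_left a b) _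
        _ = g / Cn := hapow) hgk G hΔ hcop
    refine ⟨m, hm1.trans ?_, ?_⟩
    · have h1 : Real.log g / (128 * (n : ℝ) ^ 2) ≤ Real.log (min a b) := by
        rcases min_choice a b with h | h
        · rw [h]; exact hloga
        · rw [h]; exact hlogb
      have h2 : 0 < Real.log g / (128 * (n : ℝ) ^ 2) := by positivity
      calc 5 * (Δ : ℝ) / Real.log (min a b) ≤ 5 * Δ / (Real.log g / (128 * (n : ℝ) ^ 2)) := by
            gcongr
        _ = (640 * (n : ℝ) ^ 2) * Δ / Real.log g := by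
            field_simp
            ring
        _ ≤ _ := by
            gcongr
            linarith
    · intro M h1 h2 h3
      exact hm2 M ⟨h1, h2, h3⟩

end MP06c
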