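import Pool.Agent.Lib.MP_06c6c1_co.Defs

set_option autoImplicit false

namespace MP06c

open Finset Classical

theorem log_ineq (K u : ℝ) (hK : 2 ≤ K) (hu : 1 ≤ u) (h : u ≤ 4 + K * Real.logb 2 u) :
    u ≤ 8 * K * Real.logb 2 (8 * K) := by
  have hl1 : (0.6931 : ℝ) < Real.log 2 := by linarith [Real.log_two_gt_d9]
  have hl2 : Real.log 2 < 0.6932 := by linarith [Real.log_two_lt_d9]
  have hl0 : (0 : ℝ) < Real.log 2 := by linarith
  have hK0 : (0 : ℝ) < K := by linarith
  have hu0 : (0 : ℝ) < u := by linarith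
  have h1 := Real.log_le_sub_one_of_pos (show 0 < u / (4 * K) by positivity)
  rw [Real.log_div hu0.ne' (by positivity)] at h1
  -- log u ≤ u / (4 K) + log (4 K) - 1
  have h2 : Real.log (8 * K) = Real.log 2 + Real.log (4 * K) := by
    rw [← Real.log_mul (by norm_num) (by positivity)]
    congr 1
    ring
  have h3 : 3 * Real.log 2 ≤ Real.log (4 * K) := by
    have : Real.log (2 ^ 3) ≤ Real.log (4 * K) :=
      Real.log_le_log (by norm_num) (by linarith)
    rw [Real.log_pow] at this
    exact_mod_cast this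
  have h4 : u * Real.log 2 ≤ 4 * Real.log 2 + K * Real.log u := by
    unfold Real.logb at h
    have := mul_le_mul_of_nonneg_right h hl0.le
    have e : (4 + K * (Real.log u / Real.log 2)) * Real.log 2 = 4 * Real.log 2 + K * Real.log u := by
      field_simp
    rwa [e] at this
  have h5 : K * Real.log u ≤ u / 4 + K * Real.log (4 * K) - K := by
    have := mul_le_mul_of_nonneg_left h1 hK0.le
    have e : K * (u / (4 * K) - 1) = u / 4 - K := by field_simp
    rw [e] at this
    linarith
  have h6 : u * (Real.log 2 - 1 / 4) ≤ 4 * Real.log 2 - K + K * Real.log (4 * K) := by linarith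
  have h7 : 4 * Real.log 2 - K ≤ K * Real.log (4 * K) := by nlinarith
  have h8 : u * (Real.log 2 - 1 / 4) ≤ 2 * (K * Real.log (4 * K)) := by linarith
  have h9 : 0 ≤ K * Real.log (4 * K) := by
    have : 0 ≤ Real.log (4 * K) := by linarith
    positivity
  have h10 : u * 0.44 ≤ 2 * (K * Real.log (4 * K)) := by nlinarith
  have h11 : u ≤ 8 * (K * Real.log (4 * K)) := by linarith
  have h12 : K * Real.log (4 * K) ≤ K * Real.logb 2 (8 * K) := by
    apply mul_le_mul_of_nonneg_left _ hK0.le
    unfold Real.logb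
    rw [le_div_iff₀ hl0]
    nlinarith
  calc u ≤ 8 * (K * Real.log (4 * K)) := h11
    _ ≤ 8 * (K * Real.logb 2 (8 * K)) := by linarith
    _ = 8 * K * Real.logb 2 (8 * K) := by ring

end MP06c
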