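import Pool.Agent.Lib.MP_06c6c1_co.Markov
import Pool.Agent.Lib.MP_06c6c1_co.Ramsey
import Pool.Agent.Lib.MP_06c6c1_co.AvgLower
import Pool.Agent.Lib.MP_06c6c1_co.LogIneq

set_option autoImplicit false

namespace MP06c

open Finset Classical


theorem graphB_logb_le {x : ℝ} (hx : 80 ≤ x) : Real.logb 2 (8 * x) ≤ x / 8 := by
  have h2 : (0 : ℝ) < Real.log 2 := Real.log_pos (by norm_num)
  have h3 : Real.logb 2 (8 * x) = Real.logb 2 640 + Real.logb 2 (x / 80) := by
    rw [← Real.logb_mul (by norm_num) (by positivity)]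
    congr 1
    ring
  have h4 : Real.logb 2 640 ≤ 10 := by
    have : Real.logb 2 640 ≤ Real.logb 2 (2 ^ (10 : ℝ)) :=
      Real.logb_le_logb_of_le (by norm_num) (by norm_num) (by norm_num)
    rwa [Real.logb_rpow (by norm_num) (by norm_num)] at this
  have h5 : Real.logb 2 (x / 80) ≤ 10 * (x / 80 - 1) := by
    unfold Real.logb
    rw [div_le_iff₀ h2]
    have h6 := Real.log_le_sub_one_of_pos (show 0 < x / 80 by positivity)
    have h7 : (0.1 : ℝ) ≤ Real.log 2 := by linarith [Real.log_two_gt_d9]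
    have h8 : 0 ≤ x / 80 - 1 := by linarith
    nlinarith
  rw [h3]
  linarith

theorem graphB_logb_le_self {z : ℝ} (hz : 0 < z) : Real.logb 2 z ≤ z := by
  have h2 : (0 : ℝ) < Real.log 2 := Real.log_pos (by norm_num)
  unfold Real.logb
  rw [div_le_iff₀ h2]
  -- log z ≤ z * log 2
  have h1 := Real.log_le_sub_one_of_pos (show 0 < z / 2 by positivity)
  rw [Real.log_div hz.ne' (by norm_num)] at h1
  have h3 : (0.5 : ℝ) ≤ Real.log 2 := by linarith [Real.log_two_gt_d9]
  have h4 : Real.log 2 < 1 := by linarith [Real.log_two_lt_d9]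
  nlinarith

theorem graphB {V : Type} (F : SimpleGraph V) (A : Finset V) (s : ℕ) (hs : 2 ≤ s)
    (Δ h kap : ℝ) (hh : (2 : ℝ) ^ 80 ≤ h) (hΔ : h ^ 64 ≤ Δ) (hA : (A.card : ℝ) ≤ Δ)
    (hk0 : 0 < kap)
    (hkap : 2 * s * kap ≤ Real.logb 2 h / (4 * Real.logb 2 (8 * Real.logb 2 h)))
    (hcl : (((A.powersetCard s).filter (fun T : Finset V => F.IsClique (T : Set V))).card : ℝ) ≤
      (Δ / h ^ 16) ^ s)
    (hS : SS F A (h ^ 8 / (4 * Δ)) < kap * ZZ F A (h ^ 8 / (4 * Δ))) :
    ZZ F A (h ^ 8 / (4 * Δ)) ≤ 2 * h ^ 2 := by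
  have hh1 : (1 : ℝ) ≤ h := by
    have : (1 : ℝ) ≤ 2 ^ 80 := one_le_pow₀ (by norm_num)
    linarith
  have hh0 : (0 : ℝ) < h := by linarith
  have hΔ0 : (0 : ℝ) < Δ := lt_of_lt_of_le (by positivity) hΔ
  set lam : ℝ := h ^ 8 / (4 * Δ) with hlam
  have hl0 : 0 < lam := by positivity
  have hl1 : lam ≤ 1 := by
    rw [hlam, div_le_one (by positivity)]
    have : h ^ 8 ≤ h ^ 64 := pow_le_pow_right₀ hh1 (by norm_num)
    linarith
  -- the radius
  set r : ℕ := ⌊lam * A.card⌋₊ with hr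
  have hrl : (r : ℝ) ≤ lam * A.card := Nat.floor_le (by positivity)
  have hrA : r ≤ A.card := by
    have : (r : ℝ) ≤ A.card := hrl.trans (by nlinarith [(Nat.cast_nonneg A.card : (0 : ℝ) ≤ A.card)])
    exact_mod_cast this
  have hr1 : lam * A.card < r + 1 := Nat.lt_floor_add_one _
  -- cliques
  have hcl' : (((A.powersetCard s).filter (fun T : Finset V => F.IsClique (T : Set V))).card : ℝ) * lam ^ s ≤
      1 / 2 := by
    calc (((A.powersetCard s).filter (fun T : Finset V => F.IsClique (T : Set V))).card : ℝ) * lam ^ s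
        ≤ (Δ / h ^ 16) ^ s * lam ^ s := by gcongr
      _ = (1 / (4 * h ^ 8)) ^ s := by
          rw [← mul_pow, hlam]
          congr 1
          field_simp
          try ring
      _ ≤ (1 / 2) ^ s := by
          apply pow_le_pow_left₀ (by positivity)
          apply one_div_le_one_div_of_le (by norm_num)
          have : (1 : ℝ) ≤ h ^ 8 := one_le_pow₀ hh1
          linarith
      _ ≤ (1 / 2) ^ 1 := pow_le_pow_of_le_one (by norm_num) (by norm_num) (by omega)
      _ = 1 / 2 := by norm_num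
  -- the independence number
  have hex : ∃ t : ℕ, r < (t + 1) ^ (s - 1) := by
    refine ⟨r, ?_⟩
    calc r < r + 1 := Nat.lt_succ_self r
      _ = (r + 1) ^ 1 := (pow_one _).symm
      _ ≤ (r + 1) ^ (s - 1) := Nat.pow_le_pow_right (by omega) (by omega)
  obtain ⟨t, ht1, ht2⟩ : ∃ t : ℕ, r < (t + 1) ^ (s - 1) ∧ t ^ (s - 1) ≤ r := by
    refine ⟨Nat.find hex, Nat.find_spec hex, ?_⟩
    rcases Nat.eq_zero_or_pos (Nat.find hex) with h0 | h0
    · rw [h0, zero_pow (by omega)]
      exact Nat.zero_le _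
    · have := Nat.find_min hex (m := Nat.find hex - 1) (by omega)
      rw [not_lt, Nat.sub_add_cancel h0] at this
      exact this
  have havg : ∀ N : ℝ, 0 ≤ N → (∀ R : Finset V, R ⊆ A → R.card = r →
      (∀ T : Finset V, T ⊆ R → T.card = s → ¬ F.IsClique (T : Set V)) → N ≤ (ind F R).card) →
      N / 2 ≤ ZZ F A lam := by
    first
      | exact avg_lower F A hl0.le r hrA hrl s (by omega) hcl'
      | exact avg_lower F A hl0.le r hrA hrl s (by omega) (by rw [card_cliques]; exact hcl')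
  have hlow : (2 : ℝ) ^ t / 2 ≤ ZZ F A lam := by
    refine havg _ (by positivity) ?_
    intro R hRA hRr hfree
    obtain ⟨T, hTR, hTt, hTi⟩ := ramsey F s t (by omega) R (by rw [hRr]; exact ht2) hfree
    have h1 : T.powerset ⊆ ind F R := by
      intro U hU
      rw [mem_powerset] at hU
      rw [ind, mem_filter, mem_powerset]
      exact ⟨hU.trans hTR, fun x hx y hy => hTi x (hU hx) y (hU hy)⟩
    have h2 := card_le_card h1
    rw [card_powerset, hTt] at h2
    exact_mod_cast h2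
  have hup := markov_poly F A hl0.le hk0 hS
  set q : ℕ := ⌊2 * kap⌋₊ with hq
  have hq1 : (q : ℝ) ≤ 2 * kap := Nat.floor_le (by positivity)
  set u : ℝ := (t : ℝ) + 2 with hu
  have hu2 : 2 ≤ u := by rw [hu]; linarith [(Nat.cast_nonneg t : (0 : ℝ) ≤ t)]
  have hu0 : 0 < u := by linarith
  have hbase : 1 + lam * A.card ≤ u ^ (s - 1) := by
    have h1 : r + 1 ≤ (t + 1) ^ (s - 1) := ht1
    have h2 : (t + 1) ^ (s - 1) + 1 ≤ (t + 2) ^ (s - 1) :=
      Nat.pow_lt_pow_left (by omega) (by omega)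
    have h3 : r + 2 ≤ (t + 2) ^ (s - 1) := by omega
    have h4 : (r : ℝ) + 2 ≤ u ^ (s - 1) := by
      rw [hu]
      exact_mod_cast h3
    linarith
  have hup2 : ZZ F A lam ≤ 2 * u ^ ((s - 1) * q) := by
    refine hup.trans ?_
    rw [pow_mul]
    gcongr
  have hup3 : u ^ ((s - 1) * q) = (2 : ℝ) ^ ((((s - 1) * q : ℕ) : ℝ) * Real.logb 2 u) := by
    rw [mul_comm (((s - 1) * q : ℕ) : ℝ), Real.rpow_mul (by norm_num),
      Real.rpow_logb (by norm_num) (by norm_num) hu0, Real.rpow_natCast]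
  -- constants
  set Lh : ℝ := Real.logb 2 h with hLh
  have hLh80 : 80 ≤ Lh := by
    rw [hLh, Real.le_logb_iff_rpow_le (by norm_num) hh0]
    have : (2 : ℝ) ^ (80 : ℝ) = 2 ^ (80 : ℕ) := by
      rw [← Real.rpow_natCast]
      norm_num
    rw [this]
    exact hh
  have hlL := graphB_logb_le hLh80
  have hlL1 : 1 ≤ Real.logb 2 (8 * Lh) := by
    rw [Real.le_logb_iff_rpow_le (by norm_num) (by positivity), Real.rpow_one]
    linarith
  set K : ℝ := Lh / (4 * Real.logb 2 (8 * Lh)) with hK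
  have hK2 : 2 ≤ K := by
    rw [hK, le_div_iff₀ (by positivity)]
    linarith
  have hKL : K ≤ Lh := by
    rw [hK, div_le_iff₀ (by positivity)]
    nlinarith
  have hKmul : K * (4 * Real.logb 2 (8 * Lh)) = Lh := by
    rw [hK]
    exact div_mul_cancel₀ _ (by positivity)
  have hsqK : (((s - 1) * q : ℕ) : ℝ) ≤ K := by
    have h1 : (((s - 1) * q : ℕ) : ℝ) ≤ s * q := by
      push_cast
      have : ((s - 1 : ℕ) : ℝ) ≤ s := by exact_mod_cast Nat.sub_le s 1
      gcongr
    have h2 : (s : ℝ) * q ≤ s * (2 * kap) := by gcongr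
    calc (((s - 1) * q : ℕ) : ℝ) ≤ s * (2 * kap) := h1.trans h2
      _ = 2 * s * kap := by ring
      _ ≤ K := hkap
  have hlu0 : 0 ≤ Real.logb 2 u := Real.logb_nonneg (by norm_num) (by linarith)
  have huK : u ≤ 4 + K * Real.logb 2 u := by
    have h1 : (2 : ℝ) ^ t ≤ 4 * u ^ ((s - 1) * q) := by linarith
    have h2 : Real.logb 2 ((2 : ℝ) ^ t) ≤ Real.logb 2 (4 * u ^ ((s - 1) * q)) :=
      Real.logb_le_logb_of_le (by norm_num) (by positivity) h1
    have h3 : Real.logb 2 ((2 : ℝ) ^ t) = t := by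
      rw [Real.logb_pow, Real.logb_self_eq_one (by norm_num), mul_one]
    have h4 : Real.logb 2 (4 * u ^ ((s - 1) * q)) =
        2 + (((s - 1) * q : ℕ) : ℝ) * Real.logb 2 u := by
      rw [Real.logb_mul (by norm_num) (by positivity), Real.logb_pow]
      congr 1
      rw [show (4 : ℝ) = 2 ^ (2 : ℕ) by norm_num, Real.logb_pow,
        Real.logb_self_eq_one (by norm_num)]
      norm_num
    rw [h3, h4] at h2
    have h5 : (((s - 1) * q : ℕ) : ℝ) * Real.logb 2 u ≤ K * Real.logb 2 u := by gcongr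
    rw [hu]
    rw [hu] at h5 h2
    linarith
  have huu := log_ineq K u hK2 (by linarith) huK
  have h8K : 1 ≤ Real.logb 2 (8 * K) := by
    rw [Real.le_logb_iff_rpow_le (by norm_num) (by positivity), Real.rpow_one]
    linarith
  have hlu : Real.logb 2 u ≤ 2 * Real.logb 2 (8 * Lh) := by
    have h1 : Real.logb 2 u ≤ Real.logb 2 (8 * K * Real.logb 2 (8 * K)) :=
      Real.logb_le_logb_of_le (by norm_num) hu0 huu
    rw [Real.logb_mul (by positivity) (by positivity)] at h1
    have h2 := graphB_logb_le_self (show 0 < Real.logb 2 (8 * K) by linarith)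
    have h3 : Real.logb 2 (8 * K) ≤ Real.logb 2 (8 * Lh) :=
      Real.logb_le_logb_of_le (by norm_num) (by positivity) (by linarith)
    linarith
  have hexp : (((s - 1) * q : ℕ) : ℝ) * Real.logb 2 u ≤ Lh / 2 := by
    calc (((s - 1) * q : ℕ) : ℝ) * Real.logb 2 u ≤ K * Real.logb 2 u := by gcongr
      _ ≤ K * (2 * Real.logb 2 (8 * Lh)) := by gcongr
      _ = Lh / 2 := by linarith
  have hfin : u ^ ((s - 1) * q) ≤ h := by
    rw [hup3]
    calc (2 : ℝ) ^ ((((s - 1) * q : ℕ) : ℝ) * Real.logb 2 u) ≤ (2 : ℝ) ^ Lh :=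
          Real.rpow_le_rpow_of_exponent_le (by norm_num) (by linarith)
      _ = h := Real.rpow_logb (by norm_num) (by norm_num) hh0
  calc ZZ F A lam ≤ 2 * u ^ ((s - 1) * q) := hup2
    _ ≤ 2 * h := by gcongr
    _ ≤ 2 * h ^ 2 := by nlinarith

end MP06c
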