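import Pool.Agent.Lib.MP_06c6c1_co.Basic
import Pool.Agent.Lib.MP_06c6c1_co.MainLocal
import Pool.Agent.Lib.MP_06c6c1_co.GraphB

set_option autoImplicit false

/-!
# MP_06c6c1_co: every `F`, bound with an additional iterated logarithm, full range of `k`
-/

namespace MP06c

open Finset Classical

theorem logb_eight_le {n : ℕ} (hn : 1 ≤ n) {x : ℝ} (hx : 90000 * (n : ℝ) ^ 2 ≤ x) :
    32 * (n : ℝ) * Real.logb 2 (8 * x) ≤ x := by
  have hn1 : (1 : ℝ) ≤ n := by exact_mod_cast hn
  have hx0 : 0 < x := lt_of_lt_of_le (by positivity) hx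
  have hl2 : 0.6931471803 < Real.log 2 := Real.log_two_gt_d9
  set s : ℝ := Real.sqrt (8 * x) with hs
  have hs0 : 0 < s := Real.sqrt_pos.2 (by linarith)
  have hss : s * s = 8 * x := Real.mul_self_sqrt (by linarith)
  have h1 : Real.log (8 * x) = 2 * Real.log s := by
    rw [← hss, Real.log_mul hs0.ne' hs0.ne']; ring
  have h2 : Real.log s ≤ s := by
    have := Real.log_le_sub_one_of_pos hs0
    linarith
  have h3 : 800 * (n : ℝ) ≤ s := by
    rw [hs]
    refine Real.le_sqrt_of_sq_le ?_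
    nlinarith
  have h4 : Real.logb 2 (8 * x) = Real.log (8 * x) / Real.log 2 := rfl
  rw [h4, h1, mul_div_assoc', div_le_iff₀ (by linarith)]
  have h5 : 32 * (n : ℝ) * (2 * Real.log s) ≤ 32 * (n : ℝ) * (2 * s) := by gcongr
  have h6 : x = s * s / 8 := by linarith
  have h7 : 800 * (n : ℝ) * s ≤ s * s := mul_le_mul_of_nonneg_right h3 hs0.le
  have h8 : (0.69 : ℝ) * (s * s / 8) ≤ s * s / 8 * Real.log 2 := by
    have : 0 ≤ s * s / 8 := by positivity
    nlinarith
  rw [h6]
  nlinarith

/-- The case of large `g`. -/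
theorem caseB {n : ℕ} (hn : 2 ≤ n) (F : SimpleGraph (Fin n)) {Δ : ℕ}
    {g h : ℝ} (hg1 : 1 < g) (hh : (2 : ℝ) ^ 80 ≤ h) (hhn : 90000 * (n : ℝ) ^ 2 ≤ Real.logb 2 h)
    (hhΔ : h ^ 64 ≤ Δ) (hhg : h ^ 16 ≤ g) {k : ℝ} (hk : k = ((Δ : ℝ) / g) ^ n)
    {V : Type} [Fintype V] (G : SimpleGraph V) (hΔ : ∀ v, (nb G v).card ≤ Δ)
    (hcop : ∀ v, (cop F G v : ℝ) ≤ k) :
    ∃ m : ℕ, (m : ℝ) ≤ 32 * n * Δ * Real.logb 2 (8 * Real.logb 2 h) / Real.logb 2 h ∧
        ∀ M : V → V → Fin m → Fin m → Prop, IsCover M →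
          ∃ φ : V → Fin m, ∀ u v, G.Adj u v → ¬ M u v (φ u) (φ v) := by
  have hh0 : (1 : ℝ) < h := lt_of_lt_of_le (by norm_num) hh
  have hh100 : (100 : ℝ) ≤ h := le_trans (by norm_num) hh
  have hΔ0 : (0 : ℝ) < Δ := lt_of_lt_of_le (by positivity) hhΔ
  have hn1 : (2 : ℝ) ≤ n := by exact_mod_cast hn
  have hhΔ1 : h ≤ Δ := by
    calc h = h ^ 1 := (pow_one h).symm
      _ ≤ h ^ 64 := pow_le_pow_right₀ (by linarith) (by norm_num)
      _ ≤ Δ := hhΔ
  set L : ℝ := Real.logb 2 h with hL
  have hL80 : 80 ≤ L := by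
    rw [hL, Real.le_logb_iff_rpow_le (by norm_num) (by linarith)]
    exact_mod_cast hh
  set q : ℝ := Real.logb 2 (8 * L) with hq
  have hq1 : 1 ≤ q := by
    rw [hq, Real.le_logb_iff_rpow_le (by norm_num) (by linarith)]
    norm_num
    linarith
  have hqL : 32 * (n : ℝ) * q ≤ L := logb_eight_le (by omega) hhn
  have hLh : L ≤ 2 * h := by
    have h1 : L = Real.log h / Real.log 2 := rfl
    have h2 : Real.log h ≤ h := by
      have := Real.log_le_sub_one_of_pos (show (0 : ℝ) < h by linarith)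
      linarith
    have hl2 : 0.6931471803 < Real.log 2 := Real.log_two_gt_d9
    rw [h1, div_le_iff₀ (by linarith)]
    nlinarith
  have hL0 : 0 < L := by linarith
  have hq0 : 0 < q := by linarith
  set m : ℕ := ⌈16 * n * Δ * q / L⌉₊ with hm
  have hm1 : 16 * n * Δ * q / L ≤ m := Nat.le_ceil _
  have hm2 : (m : ℝ) < 16 * n * Δ * q / L + 1 := Nat.ceil_lt_add_one (by positivity)
  have hm0 : (0 : ℝ) < m := lt_of_lt_of_le (by positivity) hm1
  have hm1' := hm1
  rw [div_le_iff₀ hL0] at hm1'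
  refine ⟨m, ?_, ?_⟩
  · have h1 : 1 ≤ 16 * n * Δ * q / L := by
      rw [le_div_iff₀ hL0]
      have h2 : 2 * (Δ : ℝ) ≤ n * Δ := by nlinarith
      have h3 : n * (Δ : ℝ) * 1 ≤ n * Δ * q := by
        apply mul_le_mul_of_nonneg_left hq1; positivity
      nlinarith
    have h2 : 32 * (n : ℝ) * Δ * q / L = 16 * n * Δ * q / L + 16 * n * Δ * q / L := by ring
    linarith
  · intro M hM
    have hmΔ : m ≤ Δ := by
      have h1 : 16 * (n : ℝ) * Δ * q / L ≤ Δ / 2 := by
        rw [div_le_iff₀ hL0]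
        nlinarith
      have h2 : (m : ℝ) ≤ Δ := by linarith
      exact_mod_cast h2
    have hhm : 2 * (Δ : ℝ) ≤ h * m := by
      have h1 : 16 * (n : ℝ) * Δ * q ≤ m * (2 * h) := hm1'.trans (by gcongr)
      have h2 : 2 * (Δ : ℝ) ≤ n * Δ := by nlinarith
      have h3 : n * (Δ : ℝ) * 1 ≤ n * Δ * q := by
        apply mul_le_mul_of_nonneg_left hq1; positivity
      nlinarith
    refine main_local G hM Δ hΔ h hh100 hhΔ hmΔ hhm ?_
    intro v F' A hF' hA hS
    refine graphB F' A n hn Δ h (2 * Δ / m) hh hhΔ ?_ (by positivity) ?_ ?_ hS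
    · have : A.card ≤ Δ := (Finset.card_le_card hA).trans (hΔ v)
      exact_mod_cast this
    · rw [← hL, ← hq]
      have h1 : 2 * (n : ℝ) * (2 * Δ / m) = 4 * n * Δ / m := by ring
      rw [h1, div_le_div_iff₀ hm0 (by positivity)]
      nlinarith
    · have h1 : (((A.powersetCard n).filter (fun T : Finset V => F'.IsClique (T : Set V))).card) ≤
          (((nb G v).powersetCard n).filter (fun T : Finset V => G.IsClique (T : Set V))).card := by
        refine Finset.card_le_card (fun T hT => ?_)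
        rw [Finset.mem_filter, Finset.mem_powersetCard] at hT ⊢
        refine ⟨⟨hT.1.1.trans hA, hT.1.2⟩, ?_⟩
        intro x hx y hy hxy
        exact hF' (hT.2 hx hy hxy)
      have h2 := cliques_le_copies' F G v
      have h3 : ((((A.powersetCard n).filter
          (fun T : Finset V => F'.IsClique (T : Set V))).card : ℕ) : ℝ) ≤ (cop F G v : ℝ) := by
        exact_mod_cast h1.trans h2
      refine h3.trans ((hcop v).trans ?_)
      rw [hk]
      refine pow_le_pow_left₀ (by positivity) ?_ n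
      exact div_le_div_of_nonneg_left hΔ0.le (by positivity) hhg

/-- Every `F`: bound with an additional iterated logarithm of `g = Δ k ^ (-1/n)`, in the full
range of `k`. -/
theorem finalB (n : ℕ) (F : SimpleGraph (Fin n)) :
    ∃ C : ℝ, ∃ Δ₀ : ℕ, ∀ Δ : ℕ, Δ₀ ≤ Δ →
    ∀ k : ℝ, 1 / 2 ≤ k → k < (Δ : ℝ) ^ n →
    ∀ (V : Type) [Fintype V] (G : SimpleGraph V),
      (∀ v : V, (G.neighborSet v).ncard ≤ Δ) →
      (∃ v : V, (G.neighborSet v).ncard = Δ) →
      (∀ v : V, ((({H : G.Subgraph | H.verts ⊆ G.neighborSet v ∧ Nonempty (F ≃g H.coe)} :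
          Set G.Subgraph).ncard : ℝ) ≤ k)) →
      ∃ m : ℕ, (m : ℝ) ≤ C * (Δ : ℝ) *
          Real.log (3 + Real.log ((Δ : ℝ) * k ^ (-(1 : ℝ) / (n : ℝ)))) /
          Real.log ((Δ : ℝ) * k ^ (-(1 : ℝ) / (n : ℝ))) ∧
        ∀ M : V → V → Fin m → Fin m → Prop,
          (∀ u v i j, M u v i j ↔ M v u j i) →
          (∀ u v i j j', M u v i j → M u v i j' → j = j') →
          (∀ u v i i' j, M u v i j → M u v i' j → i = i') →
          ∃ φ : V → Fin m, ∀ u v, G.Adj u v → ¬ M u v (φ u) (φ v) := by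
  set N : ℕ := 90000 * n ^ 2 + 80 with hN
  set g0 : ℝ := 2 ^ (16 * N) with hg0
  have hg01 : 1 ≤ g0 := by rw [hg0]; exact one_le_pow₀ (by norm_num)
  have hlg0 : 0 ≤ Real.log g0 := Real.log_nonneg hg01
  refine ⟨8192 * (n : ℝ) + 2 * Real.log g0, 2 ^ (64 * N), ?_⟩
  intro Δ hΔ0 k hk1 hk2 V _ G hdeg hmax hcop
  have hΔb : (2 : ℝ) ^ (64 * N) ≤ Δ := by exact_mod_cast hΔ0
  have hΔpos : 0 < Δ := lt_of_lt_of_le (by positivity) hΔ0
  have hΔr : (0 : ℝ) < Δ := by exact_mod_cast hΔpos
  have hΔ : ∀ v, (nb G v).card ≤ Δ := fun v => by rw [nb_card]; exact hdeg v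
  obtain ⟨v0, hv0⟩ := hmax
  have hn : 2 ≤ n := two_le F hk2 G (v := v0) (by rw [nb_card]; exact hv0) (hcop v0)
  obtain ⟨hg1, hg2, hgk⟩ := gfacts (by omega) hΔpos hk1 hk2
  set g : ℝ := (Δ : ℝ) * k ^ (-(1 : ℝ) / (n : ℝ)) with hg
  have hgpos : 0 < g := by linarith
  have hlg : 0 < Real.log g := Real.log_pos hg1
  have hll : 1 ≤ Real.log (3 + Real.log g) := by
    rw [Real.le_log_iff_exp_le (by linarith)]
    have : Real.exp 1 < 2.7182818286 := Real.exp_one_lt_d9
    linarith
  rcases lt_or_ge g g0 with hc | hc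
  · -- small `g`
    refine ⟨Δ + 1, ?_, ?_⟩
    · rw [le_div_iff₀ hlg]
      have h1 : Real.log g ≤ Real.log g0 := Real.log_le_log hgpos hc.le
      have h2 : (1 : ℝ) ≤ Δ := by exact_mod_cast hΔpos
      push_cast
      have h3 : ((Δ : ℝ) + 1) * Real.log g ≤ (2 * Δ) * Real.log g0 := by
        apply mul_le_mul (by linarith) h1 hlg.le (by linarith)
      have h4 : 0 ≤ 8192 * (n : ℝ) * Δ := by positivity
      have h5 : (8192 * (n : ℝ) + 2 * Real.log g0) * Δ * 1 ≤
          (8192 * (n : ℝ) + 2 * Real.log g0) * Δ * Real.log (3 + Real.log g) := by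
        apply mul_le_mul_of_nonneg_left hll
        positivity
      nlinarith
    · intro M h1 h2 h3
      exact greedy_case G ⟨h1, h2, h3⟩ (fun v => Nat.lt_succ_of_le (hΔ v))
  · -- large `g`
    set a : ℝ := g ^ (((16 : ℕ) : ℝ)⁻¹) with ha
    set b : ℝ := (Δ : ℝ) ^ (((64 : ℕ) : ℝ)⁻¹) with hb
    have hapow : a ^ 16 = g := Real.rpow_inv_natCast_pow hgpos.le (by norm_num)
    have hbpow : b ^ 64 = Δ := Real.rpow_inv_natCast_pow hΔr.le (by norm_num)
    have ha0 : 0 < a := Real.rpow_pos_of_pos hgpos _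
    have hb0 : 0 < b := Real.rpow_pos_of_pos hΔr _
    have haN : (2 : ℝ) ^ N ≤ a := by
      refine le_of_pow_le_pow_left₀ (n := 16) (by norm_num) ha0.le ?_
      rw [hapow, ← pow_mul, mul_comm N 16]; exact hc
    have hbN : (2 : ℝ) ^ N ≤ b := by
      refine le_of_pow_le_pow_left₀ (n := 64) (by norm_num) hb0.le ?_
      rw [hbpow, ← pow_mul, mul_comm N 64]; exact hΔb
    have hhN : (2 : ℝ) ^ N ≤ min a b := le_min haN hbN
    have hmin0 : 0 < min a b := lt_min ha0 hb0
    have hLN : (N : ℝ) ≤ Real.logb 2 (min a b) := by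
      rw [Real.le_logb_iff_rpow_le (by norm_num) hmin0, Real.rpow_natCast]
      exact hhN
    have hl2 : 0.6931471803 < Real.log 2 := Real.log_two_gt_d9
    have hl2' : Real.log 2 < 0.6931471808 := Real.log_two_lt_d9
    have hloga : Real.log a = Real.log g / 16 := by
      rw [ha, Real.log_rpow hgpos]; push_cast; ring
    have hlogb : Real.log g / 128 ≤ Real.log b := by
      have h1 : Real.log b = Real.log Δ / 64 := by
        rw [hb, Real.log_rpow hΔr]; push_cast; ring
      have h4 : (4 : ℝ) ≤ g := by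
        refine le_trans ?_ hc
        rw [hg0]
        calc (4 : ℝ) = 2 ^ 2 := by norm_num
          _ ≤ 2 ^ (16 * N) := pow_le_pow_right₀ (by norm_num) (by omega)
      have h5 : Real.log (g / 2) ≤ Real.log Δ := Real.log_le_log (by linarith) (by linarith)
      have h6 : Real.log (g / 2) = Real.log g - Real.log 2 :=
        Real.log_div hgpos.ne' (by norm_num)
      have h7 : 2 * Real.log 2 ≤ Real.log g := by
        have h8 : Real.log (2 ^ 2 : ℝ) ≤ Real.log g := Real.log_le_log (by norm_num) (by linarith)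
        rw [Real.log_pow] at h8
        push_cast at h8
        exact h8
      rw [h1]
      linarith
    have hlogmin : Real.log g / 128 ≤ Real.log (min a b) := by
      rcases min_choice a b with h | h
      · rw [h, hloga]
        linarith
      · rw [h]; exact hlogb
    have hlogmin2 : Real.log (min a b) ≤ Real.log g / 16 := by
      rw [← hloga]
      exact Real.log_le_log hmin0 (min_le_left a b)
    obtain ⟨m, hm1, hm2⟩ := caseB hn F (h := min a b) hg1 (by
      refine le_trans ?_ hhN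
      exact pow_le_pow_right₀ (by norm_num) (by omega)) (by
      refine le_trans ?_ hLN
      rw [hN]
      push_cast
      linarith) (by
      calc (min a b) ^ 64 ≤ b ^ 64 :=
            pow_le_pow_left₀ (by positivity) (min_le_right a b) 64
        _ = Δ := hbpow) (by
      calc (min a b) ^ 16 ≤ a ^ 16 :=
            pow_le_pow_left₀ (by positivity) (min_le_left a b) _
        _ = g := hapow) hgk G hΔ hcop
    refine ⟨m, hm1.trans ?_, ?_⟩
    · have hlpos : 0 < Real.log (min a b) := by linarith [div_pos hlg (by norm_num : (0:ℝ) < 128)]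
      have h1 : Real.log g / 128 ≤ Real.logb 2 (min a b) := by
        have h2 : Real.logb 2 (min a b) = Real.log (min a b) / Real.log 2 := rfl
        rw [h2, le_div_iff₀ (by linarith)]
        nlinarith
      have h2 : Real.logb 2 (8 * Real.logb 2 (min a b)) ≤ 2 * Real.log (3 + Real.log g) := by
        have h3 : 8 * Real.logb 2 (min a b) ≤ 3 + Real.log g := by
          have h4 : Real.logb 2 (min a b) = Real.log (min a b) / Real.log 2 := rfl
          have h5 : Real.log (min a b) / Real.log 2 ≤ Real.log g / 8 := by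
            rw [div_le_iff₀ (by linarith)]
            nlinarith
          rw [h4]
          linarith
        have h4 : 0 < 8 * Real.logb 2 (min a b) := by
          have : 0 < Real.log g / 128 := by positivity
          linarith
        have h5 : Real.log (8 * Real.logb 2 (min a b)) ≤ Real.log (3 + Real.log g) :=
          Real.log_le_log h4 h3
        have h6 : Real.logb 2 (8 * Real.logb 2 (min a b)) =
            Real.log (8 * Real.logb 2 (min a b)) / Real.log 2 := rfl
        rw [h6, div_le_iff₀ (by linarith)]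
        nlinarith
      have h3 : 0 < Real.log g / 128 := by positivity
      calc 32 * (n : ℝ) * Δ * Real.logb 2 (8 * Real.logb 2 (min a b)) / Real.logb 2 (min a b)
          ≤ 32 * n * Δ * (2 * Real.log (3 + Real.log g)) / (Real.log g / 128) := by
            gcongr
        _ = (8192 * (n : ℝ)) * Δ * Real.log (3 + Real.log g) / Real.log g := by
            field_simp
            ring
        _ ≤ _ := by
            gcongr
            linarith
    · intro M h1 h2 h3
      exact hm2 M ⟨h1, h2, h3⟩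

end MP06c
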