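import Pool.Agent.Lib.MP_06c6c1_co.Defs

set_option autoImplicit false

/-!
# MP_06c6c1_co: injective homomorphisms and copies
-/

namespace MP06c

open Finset Classical

namespace InjHAux

variable {n : ℕ} {V : Type}

/-- the image of `f` as a subgraph -/
def img (F : SimpleGraph (Fin n)) (G : SimpleGraph V) (f : Fin n → V) : G.Subgraph where
  verts := Set.range f
  Adj u w := G.Adj u w ∧ ∃ a b, F.Adj a b ∧ f a = u ∧ f b = w
  adj_sub h := h.1
  edge_vert h := by
    obtain ⟨-, a, b, -, rfl, -⟩ := h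
    exact ⟨a, rfl⟩
  symm := ⟨by
    rintro u w ⟨h, a, b, h1, h2, h3⟩
    exact ⟨h.symm, b, a, h1.symm, h3, h2⟩⟩

theorem iso (F : SimpleGraph (Fin n)) (G : SimpleGraph V) (f : Fin n → V)
    (hf : Function.Injective f) (hF : ∀ a b, F.Adj a b → G.Adj (f a) (f b)) :
    Nonempty (F ≃g (img F G f).coe) := by
  refine ⟨⟨Equiv.ofInjective f hf, ?_⟩⟩
  intro a b
  change (G.Adj (f a) (f b) ∧ ∃ a' b', F.Adj a' b' ∧ f a' = f a ∧ f b' = f b) ↔ F.Adj a b
  constructor
  · rintro ⟨-, a', b', h1, h2, h3⟩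
    rw [← hf h2, ← hf h3]
    exact h1
  · intro h
    exact ⟨hF a b h, a, b, h, rfl, rfl⟩

theorem fibre_card (s : Finset (Fin n → V)) (hs : ∀ f ∈ s, Function.Injective f)
    (R : Set V) (hR : ∀ f ∈ s, Set.range f = R) : s.card ≤ n.factorial := by
  rcases s.eq_empty_or_nonempty with h | ⟨f0, h0⟩
  · rw [h, Finset.card_empty]
    exact Nat.zero_le _
  · have h1 : s ⊆ (univ : Finset (Equiv.Perm (Fin n))).image
        (fun σ : Equiv.Perm (Fin n) => f0 ∘ ⇑σ) := by
      intro f hf
      have h2 : ∀ a, ∃ b, f0 b = f a := by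
        intro a
        have h3 : f a ∈ Set.range f0 := by
          rw [hR f0 h0, ← hR f hf]
          exact ⟨a, rfl⟩
        exact h3
      choose σ hσ using h2
      have h4 : Function.Injective σ := by
        intro a b hab
        apply hs f hf
        rw [← hσ a, ← hσ b, hab]
      rw [Finset.mem_image]
      refine ⟨Equiv.ofBijective σ (Finite.injective_iff_bijective.1 h4), mem_univ _, ?_⟩
      funext a
      exact hσ a
    refine (Finset.card_le_card h1).trans (Finset.card_image_le.trans ?_)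
    rw [Finset.card_univ, Fintype.card_perm, Fintype.card_fin]

end InjHAux

open InjHAux in
theorem injH_le_copies {n : ℕ} (F : SimpleGraph (Fin n)) {V : Type} [Fintype V]
    (G : SimpleGraph V) (v : V) :
    (injH F G (nb G v)).card ≤ n.factorial *
      ({H : G.Subgraph | H.verts ⊆ G.neighborSet v ∧ Nonempty (F ≃g H.coe)} :
          Set G.Subgraph).ncard := by
  obtain ⟨S, hS⟩ : ∃ S : Set G.Subgraph, S =
    {H : G.Subgraph | H.verts ⊆ G.neighborSet v ∧ Nonempty (F ≃g H.coe)} := ⟨_, rfl⟩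
  rw [← hS, Set.ncard_eq_toFinset_card S]
  have h0 : ∀ f ∈ injH F G (nb G v), (∀ a, G.Adj v (f a)) ∧ Function.Injective f ∧
      ∀ a b, F.Adj a b → G.Adj (f a) (f b) := by
    intro f hf
    unfold injH nb at hf
    simpa using hf
  apply Finset.card_le_mul_card_image_of_maps_to (f := img F G)
  · intro f hf
    obtain ⟨h1, h2, h3⟩ := h0 f hf
    rw [Set.Finite.mem_toFinset, hS]
    refine ⟨?_, iso F G f h2 h3⟩
    rintro _ ⟨a, rfl⟩
    exact h1 a
  · intro H _
    apply fibre_card _ _ H.verts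
    · intro f hf
      rw [← (Finset.mem_filter.1 hf).2]
      rfl
    · intro f hf
      exact (h0 f (Finset.mem_filter.1 hf).1).2.1

end MP06c
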