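import Pool.Agent.Lib.MP_06c6c1_co.Defs

set_option autoImplicit false

/-!
# MP_06c6c1_co, file Lll: the lopsided local lemma for weighted finite sets
-/

namespace MP06c

open Finset Classical

namespace LllAux

variable {Ω V : Type} [Fintype Ω]

/-- The weight of the event `P`. -/
noncomputable def W (w : Ω → ℝ) (P : Ω → Prop) : ℝ := ∑ x, if P x then w x else 0

theorem W_eq (w : Ω → ℝ) (P : Ω → Prop) [DecidablePred P] :
    ∑ x ∈ univ.filter (fun x => P x), w x = W w P := by
  rw [Finset.sum_filter]
  unfold W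
  refine Finset.sum_congr rfl (fun x _ => ?_)
  by_cases h : P x <;> simp [h]

theorem W_nonneg (w : Ω → ℝ) (hw : ∀ x, 0 ≤ w x) (P : Ω → Prop) : 0 ≤ W w P := by
  unfold W
  refine Finset.sum_nonneg (fun x _ => ?_)
  split_ifs
  · exact hw x
  · exact le_rfl

theorem W_mono (w : Ω → ℝ) (hw : ∀ x, 0 ≤ w x) (P Q : Ω → Prop) (h : ∀ x, P x → Q x) :
    W w P ≤ W w Q := by
  unfold W
  refine Finset.sum_le_sum (fun x _ => ?_)
  by_cases hP : P x
  · simp [hP, h x hP]
  · simp only [hP, if_false]
    split_ifs
    · exact hw x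
    · exact le_rfl

/-- `good S x`: no event of `S` happens at `x`. -/
def good (B : V → Ω → Prop) (S : Finset V) (x : Ω) : Prop := ∀ u ∈ S, ¬ B u x

/-- Union bound. -/
theorem W_union (w : Ω → ℝ) (hw : ∀ x, 0 ≤ w x) (B : V → Ω → Prop) (S S1 S2 : Finset V)
    (hS : ∀ u ∈ S, u ∈ S1 ∨ u ∈ S2) :
    W w (good B S2) ≤ W w (good B S) + ∑ u ∈ S1, W w (fun x => B u x ∧ good B S2 x) := by
  unfold W
  rw [Finset.sum_comm, ← Finset.sum_add_distrib]
  refine Finset.sum_le_sum (fun x _ => ?_)
  have hnn : ∀ u ∈ S1, 0 ≤ (if B u x ∧ good B S2 x then w x else 0) := by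
    intro u _
    split_ifs
    · exact hw x
    · exact le_rfl
  have hs0 := Finset.sum_nonneg hnn
  by_cases h2 : good B S2 x
  · simp only [h2, if_true]
    by_cases h : good B S x
    · simp only [h, if_true]
      simp only [h2] at hs0
      linarith
    · simp only [h, if_false]
      unfold good at h
      push Not at h
      obtain ⟨u, hu, hBu⟩ := h
      have hu1 : u ∈ S1 := by
        rcases hS u hu with h1 | h1
        · exact h1
        · exact absurd hBu (h2 u h1)
      have := Finset.single_le_sum hnn hu1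
      simp only [h2, hBu, and_self, if_true] at this
      simp only [and_true] at this ⊢
      linarith
  · simp only [h2, if_false]
    simp only [h2] at hs0
    have : 0 ≤ (if good B S x then w x else 0) := by
      split_ifs
      · exact hw x
      · exact le_rfl
    linarith

theorem claim (w : Ω → ℝ) (hw : ∀ x, 0 ≤ w x)
    (hpos : 0 < ∑ x, w x) (B : V → Ω → Prop) (Γ : V → Finset V) (d : ℕ)
    (hd : ∀ v, (Γ v).card ≤ d) (p : ℝ) (hp0 : 0 ≤ p) (hp : 4 * p * d ≤ 1) (hp4 : 4 * p ≤ 1)
    (h : ∀ (v : V) (S : Finset V), Disjoint S (Γ v) →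
      W w (fun x => B v x ∧ good B S x) ≤ p * W w (good B S)) :
    ∀ (n : ℕ) (S : Finset V), S.card = n → 0 < W w (good B S) ∧
      ∀ v, W w (fun x => B v x ∧ good B S x) ≤ 2 * p * W w (good B S) := by
  intro n
  induction n using Nat.strong_induction_on with
  | _ n ih =>
    intro S hn
    -- positivity
    have hpS : 0 < W w (good B S) := by
      rcases S.eq_empty_or_nonempty with hE | ⟨u, hu⟩
      · subst hE
        have : W w (good B (∅ : Finset V)) = ∑ x, w x := by
          unfold W good
          simp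
        rw [this]
        exact hpos
      · have hc : (S.erase u).card < n := by
          rw [← hn]
          exact Finset.card_erase_lt_of_mem hu
        obtain ⟨h1, h2⟩ := ih _ hc (S.erase u) rfl
        have h3 := W_union w hw B S {u} (S.erase u) (by
          intro x hx
          by_cases hxu : x = u
          · left
            simp [hxu]
          · right
            exact Finset.mem_erase.2 ⟨hxu, hx⟩)
        rw [Finset.sum_singleton] at h3
        have h4 := h2 u
        nlinarith
    refine ⟨hpS, ?_⟩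
    intro v
    set S1 := S.filter (fun u => u ∈ Γ v) with hS1
    set S2 := S.filter (fun u => u ∉ Γ v) with hS2
    have hdis : Disjoint S2 (Γ v) := by
      rw [Finset.disjoint_left]
      intro u hu
      rw [hS2, Finset.mem_filter] at hu
      exact hu.2
    have hcov : ∀ u ∈ S, u ∈ S1 ∨ u ∈ S2 := by
      intro u hu
      by_cases hG : u ∈ Γ v
      · left
        exact Finset.mem_filter.2 ⟨hu, hG⟩
      · right
        exact Finset.mem_filter.2 ⟨hu, hG⟩
    have hm : W w (fun x => B v x ∧ good B S x) ≤ W w (fun x => B v x ∧ good B S2 x) := by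
      refine W_mono w hw _ _ (fun x hx => ⟨hx.1, fun u hu => hx.2 u ?_⟩)
      exact (Finset.mem_filter.1 hu).1
    have hb := h v S2 hdis
    rcases S1.eq_empty_or_nonempty with hE | hN
    · have hSS : S2 = S := by
        apply Finset.Subset.antisymm (Finset.filter_subset _ _)
        intro u hu
        rcases hcov u hu with h1 | h1
        · rw [hE] at h1
          exact absurd h1 (Finset.notMem_empty u)
        · exact h1
      rw [hSS] at hb
      have : 0 ≤ p * W w (good B S) := mul_nonneg hp0 hpS.le
      linarith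
    · have hc : S2.card < n := by
        have hadd : S1.card + S2.card = S.card := by
          rw [hS1, hS2]
          exact Finset.card_filter_add_card_filter_not (s := S) (fun u => u ∈ Γ v)
        have : 0 < S1.card := hN.card_pos
        omega
      obtain ⟨h1, h2⟩ := ih _ hc S2 rfl
      have h3 := W_union w hw B S S1 S2 hcov
      have h4 : ∑ u ∈ S1, W w (fun x => B u x ∧ good B S2 x)
          ≤ (S1.card : ℝ) * (2 * p * W w (good B S2)) := by
        rw [← nsmul_eq_mul]
        exact Finset.sum_le_card_nsmul _ _ _ (fun u _ => h2 u)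
      have hcard : (S1.card : ℝ) ≤ d := by
        have hsub : S1 ⊆ Γ v := fun u hu => (Finset.mem_filter.1 hu).2
        exact_mod_cast (Finset.card_le_card hsub).trans (hd v)
      have h5 : (S1.card : ℝ) * (2 * p * W w (good B S2)) ≤ d * (2 * p * W w (good B S2)) :=
        mul_le_mul_of_nonneg_right hcard (by positivity)
      have h6 : (d : ℝ) * (2 * p * W w (good B S2)) ≤ W w (good B S2) / 2 := by
        have : (d : ℝ) * (2 * p * W w (good B S2)) = (4 * p * d) * W w (good B S2) / 2 := by ring
        rw [this]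
        have h7 : (4 * p * d) * W w (good B S2) ≤ 1 * W w (good B S2) :=
          mul_le_mul_of_nonneg_right hp h1.le
        linarith
      have h8 : W w (good B S2) ≤ 2 * W w (good B S) := by linarith
      have h9 : p * W w (good B S2) ≤ p * (2 * W w (good B S)) :=
        mul_le_mul_of_nonneg_left h8 hp0
      linarith

end LllAux

theorem lll {Ω V : Type} [Fintype Ω] [Fintype V] (w : Ω → ℝ) (hw : ∀ x, 0 ≤ w x)
    (hpos : 0 < ∑ x, w x) (B : V → Ω → Prop) (Γ : V → Finset V) (d : ℕ)
    (hd : ∀ v, (Γ v).card ≤ d) (p : ℝ) (hp0 : 0 ≤ p) (hp : 4 * p * d ≤ 1) (hp4 : 4 * p ≤ 1)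
    (h : ∀ (v : V) (S : Finset V), Disjoint S (Γ v) →
      ∑ x ∈ univ.filter (fun x => B v x ∧ ∀ u ∈ S, ¬ B u x), w x ≤
        p * ∑ x ∈ univ.filter (fun x => ∀ u ∈ S, ¬ B u x), w x) :
    ∃ x, 0 < w x ∧ ∀ v, ¬ B v x := by
  have h' : ∀ (v : V) (S : Finset V), Disjoint S (Γ v) →
      LllAux.W w (fun x => B v x ∧ LllAux.good B S x) ≤ p * LllAux.W w (LllAux.good B S) := by
    intro v S hS
    have h1 := h v S hS
    rw [LllAux.W_eq w (fun x => B v x ∧ ∀ u ∈ S, ¬ B u x),
      LllAux.W_eq w (fun x => ∀ u ∈ S, ¬ B u x)] at h1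
    exact h1
  have hc := (LllAux.claim w hw hpos B Γ d hd p hp0 hp hp4 h' _ (univ : Finset V) rfl).1
  unfold LllAux.W at hc
  obtain ⟨x, _, hx⟩ := Finset.exists_lt_of_sum_lt (f := fun _ : Ω => (0 : ℝ)) (s := univ)
    (by simpa using hc)
  refine ⟨x, ?_, ?_⟩
  · split_ifs at hx
    · exact hx
    · exact absurd hx (lt_irrefl _)
  · intro v
    split_ifs at hx with hg
    · exact hg v (Finset.mem_univ v)
    · exact absurd hx (lt_irrefl _)

end MP06c
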