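import Pool.Agent.Lib.MP_06c6c1_co.Defs

set_option autoImplicit false

/-!
# Markov inequality and the polynomial bound for the hard-core sum
-/

namespace MP06c

open Finset Classical

theorem markov_poly {V : Type} (F : SimpleGraph V) (A : Finset V) {lam kap : ℝ} (hl : 0 ≤ lam)
    (hk : 0 < kap) (hS : SS F A lam < kap * ZZ F A lam) :
    ZZ F A lam ≤ 2 * (1 + lam * A.card) ^ ⌊2 * kap⌋₊ := by
  set q := ⌊2 * kap⌋₊ with hq
  have h2k : (0 : ℝ) ≤ 2 * kap := by linarith
  have hsplit : ZZ F A lam = ∑ T ∈ (ind F A).filter (fun T => T.card ≤ q), lam ^ T.card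
      + ∑ T ∈ (ind F A).filter (fun T => ¬ T.card ≤ q), lam ^ T.card := by
    unfold ZZ
    rw [Finset.sum_filter_add_sum_filter_not]
  have hbig : 2 * kap * ∑ T ∈ (ind F A).filter (fun T => ¬ T.card ≤ q), lam ^ T.card
      ≤ SS F A lam := by
    unfold SS
    rw [Finset.mul_sum]
    calc ∑ T ∈ (ind F A).filter (fun T => ¬ T.card ≤ q), 2 * kap * lam ^ T.card
        ≤ ∑ T ∈ (ind F A).filter (fun T => ¬ T.card ≤ q), (T.card : ℝ) * lam ^ T.card := by
          refine Finset.sum_le_sum fun T hT => ?_
          rw [Finset.mem_filter, not_le] at hT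
          have h1 : 2 * kap < T.card := (Nat.floor_lt h2k).1 hT.2
          exact mul_le_mul_of_nonneg_right h1.le (pow_nonneg hl _)
      _ ≤ ∑ T ∈ ind F A, (T.card : ℝ) * lam ^ T.card := by
          refine Finset.sum_le_sum_of_subset_of_nonneg (Finset.filter_subset _ _) fun T _ _ => ?_
          exact mul_nonneg (Nat.cast_nonneg _) (pow_nonneg hl _)
  have hsmall : ∑ T ∈ (ind F A).filter (fun T => T.card ≤ q), lam ^ T.card
      ≤ (1 + lam * A.card) ^ q := by
    calc ∑ T ∈ (ind F A).filter (fun T => T.card ≤ q), lam ^ T.card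
        ≤ ∑ T ∈ A.powerset.filter (fun T => T.card ≤ q), lam ^ T.card := by
          refine Finset.sum_le_sum_of_subset_of_nonneg ?_ fun T _ _ => pow_nonneg hl _
          exact Finset.filter_subset_filter _ (Finset.filter_subset _ _)
      _ = ∑ T ∈ A.powerset, (fun j : ℕ => if j ≤ q then lam ^ j else 0) T.card := by
          rw [Finset.sum_filter]
      _ = ∑ j ∈ range (A.card + 1), A.card.choose j • (if j ≤ q then lam ^ j else 0) := by
          exact Finset.sum_powerset_apply_card (fun j : ℕ => if j ≤ q then lam ^ j else 0)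
      _ = ∑ j ∈ (range (A.card + 1)).filter (fun j => j ≤ q), (A.card.choose j : ℝ) * lam ^ j := by
          rw [Finset.sum_filter]
          refine Finset.sum_congr rfl fun j _ => ?_
          split_ifs <;> simp
      _ ≤ ∑ j ∈ range (q + 1), (A.card.choose j : ℝ) * lam ^ j := by
          refine Finset.sum_le_sum_of_subset_of_nonneg ?_ fun j _ _ =>
            mul_nonneg (Nat.cast_nonneg _) (pow_nonneg hl _)
          intro j hj
          rw [Finset.mem_filter] at hj
          rw [Finset.mem_range]
          omega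
      _ ≤ ∑ j ∈ range (q + 1), (lam * A.card) ^ j * 1 ^ (q - j) * (q.choose j : ℝ) := by
          refine Finset.sum_le_sum fun j hj => ?_
          rw [Finset.mem_range] at hj
          have h1 : (A.card.choose j : ℝ) ≤ (A.card : ℝ) ^ j := by
            exact_mod_cast Nat.choose_le_pow A.card j
          have h2 : (1 : ℝ) ≤ (q.choose j : ℝ) := by
            exact_mod_cast Nat.choose_pos (by omega : j ≤ q)
          rw [one_pow, mul_one, mul_pow]
          calc (A.card.choose j : ℝ) * lam ^ j ≤ (A.card : ℝ) ^ j * lam ^ j :=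
                mul_le_mul_of_nonneg_right h1 (pow_nonneg hl _)
            _ = lam ^ j * (A.card : ℝ) ^ j * 1 := by ring
            _ ≤ lam ^ j * (A.card : ℝ) ^ j * (q.choose j : ℝ) :=
                mul_le_mul_of_nonneg_left h2 (by positivity)
      _ = (lam * A.card + 1) ^ q := (add_pow _ _ _).symm
      _ = (1 + lam * A.card) ^ q := by rw [add_comm]
  have h3 : 2 * kap * ∑ T ∈ (ind F A).filter (fun T => ¬ T.card ≤ q), lam ^ T.card
      < kap * ZZ F A lam := lt_of_le_of_lt hbig hS
  have h4 : 2 * ∑ T ∈ (ind F A).filter (fun T => ¬ T.card ≤ q), lam ^ T.card < ZZ F A lam := by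
    refine lt_of_not_ge fun hcon => ?_
    have := mul_le_mul_of_nonneg_left hcon hk.le
    linarith
  linarith

end MP06c
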