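import Pool.Agent.Lib.MP_06c6c1_co.Defs

set_option autoImplicit false

namespace MP06c

open Finset Classical

theorem numeric (Δ m : ℕ) (h : ℝ) (hh : 100 ≤ h) (hhΔ : h ^ 64 ≤ Δ) (hm : m ≤ Δ)
    (hm2 : 2 * (Δ : ℝ) ≤ h * m) :
    ∃ (l t : ℕ) (p1 p2 eps : ℝ), 0 ≤ eps ∧ 0 ≤ p1 ∧ 0 ≤ p2 ∧ 2 * t ≤ l ∧
      4 * (p1 + p2) * ((Δ : ℝ) + 1) ^ 3 ≤ 1 ∧
      Real.exp (eps * ((4 * h ^ 2 * Δ / m) * l + Δ) -
        m * (eps * (2 * Δ / m) -
          eps ^ 2 * ((4 * h ^ 2 * Δ / m) ^ 2 + h ^ 8 / (4 * Δ) * Δ +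
            (h ^ 8 / (4 * Δ) * Δ) ^ 2) / 2)) ≤ p1 ∧
      0 < h ^ 8 / (4 * (Δ : ℝ)) * l / 2 ∧
      (Δ.choose t : ℝ) ≤ p2 * (h ^ 8 / (4 * (Δ : ℝ)) * l / 2) ^ t := by
  have h0 : (0 : ℝ) < h := by linarith
  have h1 : (1 : ℝ) ≤ h := by linarith
  have hpow : ∀ n : ℕ, (0 : ℝ) < h ^ n := fun n => pow_pos h0 n
  have hlow : ∀ n : ℕ, (100 : ℝ) ^ n ≤ h ^ n := fun n =>
    pow_le_pow_left₀ (by norm_num) hh n
  set D : ℝ := (Δ : ℝ) with hD
  set M : ℝ := (m : ℝ) with hM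
  have hD0 : 0 < D := lt_of_lt_of_le (hpow 64) hhΔ
  have hMD : M ≤ D := by rw [hM, hD]; exact_mod_cast hm
  have hM0 : 0 < M := by
    by_contra hc
    have : h * M ≤ 0 := mul_nonpos_of_nonneg_of_nonpos h0.le (not_lt.1 hc)
    linarith
  -- square root
  set x : ℝ := Real.sqrt D with hx
  have hx2 : x ^ 2 = D := Real.sq_sqrt hD0.le
  have hx32 : h ^ 32 ≤ x := by
    apply Real.le_sqrt_of_sq_le
    calc (h ^ 32) ^ 2 = h ^ 64 := by ring
      _ ≤ D := hhΔ
  have hx0 : 0 < x := lt_of_lt_of_le (hpow 32) hx32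
  -- l and t
  set L : ℝ := M / (8 * h ^ 2) with hL
  have hL0 : 0 ≤ L := by positivity
  set l : ℕ := ⌊L⌋₊ with hl
  have hlL : (l : ℝ) ≤ L := Nat.floor_le hL0
  have hlL' : L < l + 1 := Nat.lt_floor_add_one L
  set t : ℕ := l / 2 with ht
  have ht2 : 2 * t ≤ l := by omega
  have ht3 : l ≤ 2 * t + 1 := by omega
  have ht3' : (l : ℝ) ≤ 2 * t + 1 := by exact_mod_cast ht3
  -- D / h^3 is huge
  have hDh : 40 * h ^ 3 ≤ D := by
    have e1 : h ^ 64 = h ^ 3 * h ^ 61 := by ring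
    have e2 : (40 : ℝ) ≤ h ^ 61 := le_trans (by norm_num) (hlow 61)
    have e3 : h ^ 3 * 40 ≤ h ^ 3 * h ^ 61 := mul_le_mul_of_nonneg_left e2 (hpow 3).le
    linarith
  have hL1 : D / (4 * h ^ 3) ≤ L := by
    rw [hL, div_le_div_iff₀ (by positivity) (by positivity)]
    have e1 : h ^ 2 * (2 * D) ≤ h ^ 2 * (h * M) := mul_le_mul_of_nonneg_left hm2 (hpow 2).le
    calc D * (8 * h ^ 2) = 4 * (h ^ 2 * (2 * D)) := by ring
      _ ≤ 4 * (h ^ 2 * (h * M)) := by linarith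
      _ = M * (4 * h ^ 3) := by ring
  have hDh' : 40 ≤ D / h ^ 3 := by rw [le_div_iff₀ (hpow 3)]; exact hDh
  set R : ℝ := D / h ^ 3 with hR
  have hR4 : D / (4 * h ^ 3) = R / 4 := by rw [hR]; field_simp
  have hl5 : R / 5 ≤ l := by rw [hR4] at hL1; linarith
  have ht10 : R / 10 ≤ t := by rw [hR4] at hL1; linarith
  have hR0 : 0 < R := by linarith
  have htx : x ≤ t := by
    have e1 : x * h ^ 32 ≤ D := by
      rw [← hx2, pow_two]; exact mul_le_mul_of_nonneg_left hx32 hx0.le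
    have e2 : 10 * h ^ 3 ≤ h ^ 32 := by
      have e3 : h ^ 32 = h ^ 3 * h ^ 29 := by ring
      have e4 : (10 : ℝ) ≤ h ^ 29 := le_trans (by norm_num) (hlow 29)
      rw [e3]; nlinarith [hpow 3]
    have e3 : x * (10 * h ^ 3) ≤ D := le_trans (mul_le_mul_of_nonneg_left e2 hx0.le) e1
    have e4 : x ≤ R / 10 := by
      rw [hR, div_div, le_div_iff₀ (by positivity)]; linarith
    linarith
  have htpos : (0 : ℝ) < t := lt_of_lt_of_le hx0 htx
  have hlpos : (0 : ℝ) < l := by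
    have : (2 : ℝ) * t ≤ l := by exact_mod_cast ht2
    linarith
  -- sigma and B
  set σ : ℝ := 4 * h ^ 2 * D / M with hσ
  have hσ0 : 0 ≤ σ := by positivity
  have hσ3 : σ ≤ 2 * h ^ 3 := by
    rw [hσ, div_le_iff₀ hM0]
    have e1 : h ^ 2 * (2 * D) ≤ h ^ 2 * (h * M) := mul_le_mul_of_nonneg_left hm2 (hpow 2).le
    calc 4 * h ^ 2 * D = 2 * (h ^ 2 * (2 * D)) := by ring
      _ ≤ 2 * (h ^ 2 * (h * M)) := by linarith
      _ = 2 * h ^ 3 * M := by ring
  have hlamD : h ^ 8 / (4 * D) * D = h ^ 8 / 4 := by field_simp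
  set B : ℝ := σ ^ 2 + h ^ 8 / (4 * D) * D + (h ^ 8 / (4 * D) * D) ^ 2 with hB
  have hB1 : B = σ ^ 2 + h ^ 8 / 4 + h ^ 16 / 16 := by rw [hB, hlamD]; ring
  have hB0 : 0 < B := by rw [hB1]; positivity
  have hB2 : B ≤ h ^ 16 / 8 := by
    have e0 : σ ^ 2 ≤ (2 * h ^ 3) ^ 2 := pow_le_pow_left₀ hσ0 hσ3 2
    have e1 : (2 * h ^ 3) ^ 2 = 4 * h ^ 6 := by ring
    have e2 : h ^ 16 = h ^ 6 * h ^ 10 := by ring
    have e3 : h ^ 16 = h ^ 8 * h ^ 8 := by ring
    have e4 : (128 : ℝ) ≤ h ^ 10 := le_trans (by norm_num) (hlow 10)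
    have e5 : (8 : ℝ) ≤ h ^ 8 := le_trans (by norm_num) (hlow 8)
    have e6 : h ^ 6 * 128 ≤ h ^ 16 := by
      rw [e2]; exact mul_le_mul_of_nonneg_left e4 (hpow 6).le
    have e7 : h ^ 8 * 8 ≤ h ^ 16 := by
      rw [e3]; exact mul_le_mul_of_nonneg_left e5 (hpow 8).le
    rw [hB1]; linarith
  -- D / (8 B) ≥ x
  have hDB : x ≤ D / (8 * B) := by
    rw [le_div_iff₀ (by positivity)]
    have e1 : x * (8 * B) ≤ x * h ^ 16 := mul_le_mul_of_nonneg_left (by linarith) hx0.le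
    have e2 : h ^ 16 ≤ h ^ 32 := pow_le_pow_right₀ h1 (by norm_num)
    have e3 : x * h ^ 16 ≤ x * x := mul_le_mul_of_nonneg_left (e2.trans hx32) hx0.le
    have e4 : x * x = D := by rw [← hx2]; ring
    linarith
  refine ⟨l, t, Real.exp (-(D / (8 * B))), (1 / 2) ^ t, 1 / (2 * B), by positivity,
    (Real.exp_pos _).le, by positivity, ht2, ?_, ?_, by positivity, ?_⟩
  · -- 4 (p1 + p2) (D+1)^3 ≤ 1
    have p1 : Real.exp (-(D / (8 * B))) ≤ Real.exp (-(x / 2)) := by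
      apply Real.exp_le_exp.2; linarith
    have p2 : ((1 : ℝ) / 2) ^ t ≤ Real.exp (-(x / 2)) := by
      have e1 : (1 : ℝ) / 2 ≤ Real.exp (-(1 / 2)) := by
        have := Real.add_one_le_exp (-(1 / 2 : ℝ))
        linarith
      calc ((1 : ℝ) / 2) ^ t ≤ (Real.exp (-(1 / 2))) ^ t :=
            pow_le_pow_left₀ (by norm_num) e1 t
        _ = Real.exp (-(t / 2)) := by rw [← Real.exp_nat_mul]; congr 1; ring
        _ ≤ _ := by apply Real.exp_le_exp.2; linarith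
    have q1 : (D + 1) ^ 3 ≤ 8 * x ^ 6 := by
      have : D + 1 ≤ 2 * x ^ 2 := by
        rw [hx2]
        have : (1 : ℝ) ≤ D := by
          have := hlow 64
          have h3 : (1 : ℝ) ≤ 100 ^ 64 := by norm_num
          linarith
        linarith
      calc (D + 1) ^ 3 ≤ (2 * x ^ 2) ^ 3 := pow_le_pow_left₀ (by linarith) this 3
        _ = _ := by ring
    have q2 : 64 * x ^ 6 ≤ Real.exp (x / 2) := by
      have e1 := Real.pow_div_factorial_le_exp (x / 2) (by positivity) 7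
      have e2 : ((7).factorial : ℝ) = 5040 := by norm_num [Nat.factorial]
      rw [e2] at e1
      refine le_trans ?_ e1
      have e3 : (41287680 : ℝ) ≤ x := by
        refine le_trans ?_ hx32
        exact le_trans (by norm_num) (hlow 32)
      have e4 : x ^ 6 * 41287680 ≤ x ^ 6 * x := mul_le_mul_of_nonneg_left e3 (by positivity)
      have e5 : (x / 2) ^ 7 / 5040 = x ^ 6 * x / 645120 := by ring
      rw [e5]
      linarith
    have e0 : Real.exp (-(x / 2)) * Real.exp (x / 2) = 1 := by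
      rw [← Real.exp_add]; simp
    have hex := Real.exp_pos (-(x / 2))
    calc 4 * (Real.exp (-(D / (8 * B))) + (1 / 2) ^ t) * (D + 1) ^ 3
        ≤ 4 * (Real.exp (-(x / 2)) + Real.exp (-(x / 2))) * (8 * x ^ 6) := by
          apply mul_le_mul _ q1 (by positivity) (by positivity)
          linarith
      _ = Real.exp (-(x / 2)) * (64 * x ^ 6) := by ring
      _ ≤ Real.exp (-(x / 2)) * Real.exp (x / 2) := mul_le_mul_of_nonneg_left q2 hex.le
      _ = 1 := e0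
  · -- the exponent
    apply Real.exp_le_exp.2
    have e1 : σ * l ≤ D / 2 := by
      calc σ * l ≤ σ * L := mul_le_mul_of_nonneg_left hlL hσ0
        _ = D / 2 := by rw [hσ, hL]; field_simp; ring
    have e2 : M * (1 / (2 * B) * (2 * D / M) - (1 / (2 * B)) ^ 2 * B / 2) =
        (1 / (2 * B)) * (2 * D - M / 4) := by
      field_simp
      ring
    have e3 : -(D / (8 * B)) = (1 / (2 * B)) * (-(D / 4)) := by field_simp; ring
    rw [e2, e3]
    have e4 : (0 : ℝ) ≤ 1 / (2 * B) := by positivity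
    calc 1 / (2 * B) * (σ * l + D) - 1 / (2 * B) * (2 * D - M / 4)
        = 1 / (2 * B) * (σ * l + D - (2 * D - M / 4)) := by ring
      _ ≤ 1 / (2 * B) * (-(D / 4)) := by
        apply mul_le_mul_of_nonneg_left _ e4
        linarith
  · -- the binomial coefficient
    have c1 : (Δ.choose t : ℝ) ≤ D ^ t / (t.factorial : ℝ) := Nat.choose_le_pow_div t Δ
    have c2 := Real.pow_div_factorial_le_exp (t : ℝ) htpos.le t
    have c3 : (1 : ℝ) / (t.factorial : ℝ) ≤ (3 / t) ^ t := by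
      have f0 : (0 : ℝ) < (t.factorial : ℝ) := by exact_mod_cast t.factorial_pos
      have f1 : Real.exp (t : ℝ) ≤ 3 ^ t := by
        have : Real.exp (t : ℝ) = (Real.exp 1) ^ t := by
          rw [← Real.exp_nat_mul]; simp
        rw [this]
        apply pow_le_pow_left₀ (Real.exp_pos 1).le
        exact (Real.exp_one_lt_d9.trans (by norm_num)).le
      have f2 : (t : ℝ) ^ t / (t.factorial : ℝ) ≤ 3 ^ t := c2.trans f1
      rw [div_pow, div_le_div_iff₀ f0 (by positivity), one_mul]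
      rw [div_le_iff₀ f0] at f2
      exact f2
    have c4 : D * (3 / t) ≤ 1 / 2 * (h ^ 8 / (4 * D) * l / 2) := by
      have g1 : R / 5 * (R / 10) ≤ l * t :=
        mul_le_mul hl5 ht10 (by positivity) hlpos.le
      have g2 : h ^ 8 * (R / 5 * (R / 10)) = h ^ 2 * D ^ 2 / 50 := by
        rw [hR]; field_simp; ring
      have g3 : h ^ 8 * (R / 5 * (R / 10)) ≤ h ^ 8 * (l * t) :=
        mul_le_mul_of_nonneg_left g1 (hpow 8).le
      have g4 : (100 : ℝ) ^ 2 ≤ h ^ 2 := hlow 2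
      have g5 : 48 * D ^ 2 ≤ h ^ 8 * (l * t) := by
        rw [g2] at g3
        have : 200 * D ^ 2 ≤ h ^ 2 * D ^ 2 / 50 := by
          have := mul_le_mul_of_nonneg_right g4 (by positivity : (0 : ℝ) ≤ D ^ 2)
          linarith
        have h6 : (0 : ℝ) ≤ D ^ 2 := by positivity
        linarith
      have e1 : D * (3 / t) = 3 * D / t := by ring
      have e2 : 1 / 2 * (h ^ 8 / (4 * D) * l / 2) = h ^ 8 * l / (16 * D) := by
        field_simp; ring
      rw [e1, e2, div_le_div_iff₀ htpos (by positivity)]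
      calc 3 * D * (16 * D) = 48 * D ^ 2 := by ring
        _ ≤ h ^ 8 * (l * t) := g5
        _ = h ^ 8 * l * t := by ring
    calc (Δ.choose t : ℝ) ≤ D ^ t / (t.factorial : ℝ) := c1
      _ = D ^ t * (1 / (t.factorial : ℝ)) := by ring
      _ ≤ D ^ t * (3 / t) ^ t := mul_le_mul_of_nonneg_left c3 (by positivity)
      _ = (D * (3 / t)) ^ t := by rw [mul_pow]
      _ ≤ (1 / 2 * (h ^ 8 / (4 * D) * l / 2)) ^ t :=
          pow_le_pow_left₀ (by positivity) c4 t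
      _ = _ := by rw [mul_pow]

end MP06c
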