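import Mathlib

/-!
Lower bound for the constant in Q1 of MP_06c6c1_co: random parts on a triangle-free linear space.

Take `V = Fin A × K × K` with `K` the field with `P` elements, and for every slope `m < r` cut `V` into the
blocks given by `(x * m - y, x ^ 2 * m - z)`.  Every vertex is in `r` blocks, every block has `A` vertices,
two blocks share at most one vertex and no three blocks form a triangle.  For every slope and vertex choose
one of `s` parts, and join two vertices when they are in a common block and in different parts there.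
Such a graph has no clique on `s + 1` vertices and maximum degree at most `r * A`.  If it has a proper
colouring with `q` colours, then the part of a vertex in a block is determined by the block and the colour
of the vertex.  So, for `A = 2 * q`, if all these graphs were `q`-colourable, counting would give
`s ^ r ≤ q ^ 2`.  Hence for `q ^ 2 < s ^ r` one of them has chromatic number above `q`, which is at least
`(log s / 4 - o(1)) * Δ / log Δ`.
-/

set_option autoImplicit false

namespace Pool.Agent.Lib.MP_06c6c1_co.RandParts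

open Finset

/-- The vertices. -/
abbrev Vx (A P : ℕ) : Type := Fin A × ZMod P × ZMod P

/-- The block of slope `m` through a vertex. -/
def bk {A r P : ℕ} (m : Fin r) (v : Vx A P) : ZMod P × ZMod P :=
  (((v.1 : ℕ) : ZMod P) * ((m : ℕ) : ZMod P) - v.2.1,
    ((v.1 : ℕ) : ZMod P) ^ 2 * ((m : ℕ) : ZMod P) - v.2.2)

/-- The graph of an assignment of parts. -/
def gr {A r P s : ℕ} (τ : Fin r → Vx A P → Fin s) : SimpleGraph (Vx A P) where
  Adj v w := ∃ m, bk m v = bk m w ∧ τ m v ≠ τ m w
  symm := ⟨fun _ _ ⟨m, h1, h2⟩ => ⟨m, h1.symm, h2.symm⟩⟩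
  loopless := ⟨fun _ ⟨_, _, h⟩ => h rfl⟩

lemma gr_adj {A r P s : ℕ} {τ : Fin r → Vx A P → Fin s} {v w : Vx A P} :
    (gr τ).Adj v w ↔ ∃ m, bk m v = bk m w ∧ τ m v ≠ τ m w := Iff.rfl

/-- A vertex is determined by its first coordinate and its block. -/
lemma bk_inj {A r P : ℕ} {m : Fin r} {v w : Vx A P} (h : bk m v = bk m w) (h1 : v.1 = w.1) :
    v = w := by
  obtain ⟨x, y, z⟩ := v
  obtain ⟨x', y', z'⟩ := w
  simp only at h1
  subst h1
  unfold bk at h
  simp only [Prod.mk.injEq] at h
  rw [sub_right_inj.1 h.1, sub_right_inj.1 h.2]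

lemma cast_sub_ne {n P : ℕ} [NeZero P] (hn : n ≤ P) {t t' : Fin n} (h : t ≠ t') :
    ((t : ℕ) : ZMod P) - ((t' : ℕ) : ZMod P) ≠ 0 := by
  intro h0
  have h1 : ((t : ℕ) : ZMod P) = ((t' : ℕ) : ZMod P) := sub_eq_zero.1 h0
  rw [ZMod.natCast_eq_natCast_iff'] at h1
  rw [Nat.mod_eq_of_lt (lt_of_lt_of_le t.2 hn), Nat.mod_eq_of_lt (lt_of_lt_of_le t'.2 hn)] at h1
  exact h (Fin.ext h1)

/-- No triangles of blocks. -/
lemma tri {A r P : ℕ} [Fact P.Prime] (hA : A ≤ P) (hr : r ≤ P) {a b c : Fin r} {u v w : Vx A P}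
    (h1 : bk a u = bk a v) (h2 : bk b v = bk b w) (h3 : bk c w = bk c u) (huv : u.1 ≠ v.1)
    (huw : u.1 ≠ w.1) : a = c := by
  have : NeZero P := ⟨(Fact.out : P.Prime).ne_zero⟩
  by_contra hac
  have e1 := cast_sub_ne (P := P) hA huv
  have e2 := cast_sub_ne (P := P) hA huw
  have e3 := cast_sub_ne (P := P) hr hac
  unfold bk at h1 h2 h3
  simp only [Prod.mk.injEq] at h1 h2 h3
  obtain ⟨h1, h1'⟩ := h1
  obtain ⟨h2, h2'⟩ := h2
  obtain ⟨h3, h3'⟩ := h3
  refine mul_ne_zero (mul_ne_zero e1 e2) e3 ?_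
  linear_combination h1' + h2' + h3' - (((v.1 : ℕ) : ZMod P) + ((w.1 : ℕ) : ZMod P)) * (h1 + h2 + h3)

/-- The graph has no clique on `s + 1` vertices. -/
lemma gr_free {A r P s : ℕ} [Fact P.Prime] (hA : A ≤ P) (hr : r ≤ P)
    (τ : Fin r → Vx A P → Fin s) (hs : 0 < s) : (⊤ : SimpleGraph (Fin (s + 1))).Free (gr τ) := by
  rintro ⟨f⟩
  have hadj : ∀ i j : Fin (s + 1), i ≠ j → ∃ m, bk m (f i) = bk m (f j) ∧
      τ m (f i) ≠ τ m (f j) := fun i j hij => gr_adj.1 (f.toHom.map_adj ((SimpleGraph.top_adj i j).2 hij))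
  have hfst : ∀ i j : Fin (s + 1), i ≠ j → (f i).1 ≠ (f j).1 := by
    intro i j hij h
    obtain ⟨m, h1, -⟩ := hadj i j hij
    exact hij (f.injective (bk_inj h1 h))
  -- two pairs with a common vertex have the same slope
  have key : ∀ i j k : Fin (s + 1), i ≠ j → i ≠ k → j ≠ k → ∀ a c : Fin r,
      bk a (f i) = bk a (f j) → bk c (f i) = bk c (f k) → a = c := by
    intro i j k hij hik hjk a c ha hc
    obtain ⟨b, hb, -⟩ := hadj j k hjk
    exact tri hA hr ha hb hc.symm (hfst i j hij) (hfst i k hik)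
  have h01 : (0 : Fin (s + 1)) ≠ Fin.last s := by
    intro h
    have := congrArg Fin.val h
    simp at this
    omega
  obtain ⟨a, ha, ha'⟩ := hadj 0 (Fin.last s) h01
  have hinj : Function.Injective (fun i => τ a (f i)) := by
    refine Function.Injective.of_lt_imp_ne (fun i j hij => ?_)
    have hj0 : j ≠ 0 := by
      rintro rfl
      exact absurd hij (Fin.not_lt_zero i)
    -- the slope of `0` and any other vertex
    have h0 : ∀ k : Fin (s + 1), k ≠ 0 → ∀ m, bk m (f 0) = bk m (f k) →
        τ m (f 0) ≠ τ m (f k) → k ≠ Fin.last s → m = a := by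
      intro k hk m hm _ hkl
      exact key 0 k (Fin.last s) hk.symm h01 hkl m a hm ha
    by_cases hi0 : i = 0
    · subst hi0
      by_cases hjl : j = Fin.last s
      · subst hjl; exact ha'
      · obtain ⟨m, hm, hm'⟩ := hadj 0 j hj0.symm
        rw [← h0 j hj0 m hm hm' hjl]
        exact hm'
    · have hil : i ≠ Fin.last s := by
        rintro rfl
        exact absurd hij (not_lt.2 (Fin.le_last j))
      obtain ⟨m, hm, hm'⟩ := hadj i j (ne_of_lt hij)
      obtain ⟨m0, hm0, hm0'⟩ := hadj 0 i (Ne.symm hi0)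
      have e1 : m0 = a := h0 i hi0 m0 hm0 hm0' hil
      have e2 : m = m0 := key i j 0 (ne_of_lt hij) hi0 hj0 m m0 hm hm0.symm
      rw [← e1, ← e2]
      exact hm'
  have := Fintype.card_le_of_injective _ hinj
  simp at this

/-- The degrees are at most `r * A`. -/
lemma gr_degree {A r P s : ℕ} (τ : Fin r → Vx A P → Fin s) (v : Vx A P) [NeZero P] :
    ((gr τ).neighborSet v).ncard ≤ r * A := by
  classical
  have h1 : (gr τ).neighborSet v ⊆
      (((Finset.univ : Finset (Fin r)).biUnion
        (fun m => Finset.univ.filter (fun w => bk m v = bk m w)) : Finset (Vx A P)) : Set (Vx A P)) := by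
    intro w hw
    rw [SimpleGraph.mem_neighborSet] at hw
    obtain ⟨m, hm, -⟩ := gr_adj.1 hw
    exact Finset.mem_coe.2 (Finset.mem_biUnion.2 ⟨m, Finset.mem_univ _, by simp [hm]⟩)
  refine le_trans (Set.ncard_le_ncard h1 (Finset.finite_toSet _)) ?_
  rw [Set.ncard_coe_finset]
  refine le_trans Finset.card_biUnion_le ?_
  have h2 : ∀ m : Fin r, (Finset.univ.filter (fun w : Vx A P => bk m v = bk m w)).card ≤ A := by
    intro m
    have h3 : (Finset.univ.filter (fun w : Vx A P => bk m v = bk m w)).card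
        ≤ (Finset.univ : Finset (Fin A)).card := by
      refine Finset.card_le_card_of_injOn (fun w => w.1) (fun _ _ => Finset.mem_univ _) ?_
      intro w hw w' hw' hww
      have e1 := (Finset.mem_filter.1 (Finset.mem_coe.1 hw)).2
      have e2 := (Finset.mem_filter.1 (Finset.mem_coe.1 hw')).2
      exact bk_inj (e1.symm.trans e2) hww
    simpa using h3
  calc ∑ m : Fin r, (Finset.univ.filter (fun w : Vx A P => bk m v = bk m w)).card
      ≤ ∑ _m : Fin r, A := Finset.sum_le_sum (fun m _ => h2 m)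
    _ = r * A := by simp

/-- The counting: if all the graphs are `q`-colourable and blocks have `2 * q` vertices then
`s ^ r ≤ q ^ 2`. -/
lemma count {q r P s : ℕ} [NeZero P] (hq : 0 < q) (hs : 0 < s)
    (h : ∀ τ : Fin r → Vx (2 * q) P → Fin s, (gr τ).Colorable q) : s ^ r ≤ q ^ 2 := by
  classical
  have : NeZero s := ⟨hs.ne'⟩
  have hφ : ∀ τ : Fin r → Vx (2 * q) P → Fin s, ∃ φ : Vx (2 * q) P → Fin q,
      ∀ m v w, bk m v = bk m w → φ v = φ w → τ m v = τ m w := by
    intro τ
    obtain ⟨C⟩ := h τ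
    refine ⟨C, fun m v w hb hc => ?_⟩
    by_contra hne
    exact C.valid (gr_adj.2 ⟨m, hb, hne⟩) hc
  choose φ hφ using hφ
  let F : (Fin r → Vx (2 * q) P → Fin s) → Fin r → ZMod P × ZMod P → Fin q → Fin s :=
    fun τ m b c => if hex : ∃ v, bk m v = b ∧ φ τ v = c then τ m (Classical.choose hex) else 0
  have hF : ∀ τ m v, F τ m (bk m v) (φ τ v) = τ m v := by
    intro τ m v
    have hex : ∃ w, bk m w = bk m v ∧ φ τ w = φ τ v := ⟨v, rfl, rfl⟩
    simp only [F]
    rw [dif_pos hex]
    exact hφ τ m _ _ (Classical.choose_spec hex).1 (Classical.choose_spec hex).2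
  let enc : (Fin r → Vx (2 * q) P → Fin s) →
      (Vx (2 * q) P → Fin q) × (Fin r → ZMod P × ZMod P → Fin q → Fin s) := fun τ => (φ τ, F τ)
  have hinj : Function.Injective enc := by
    intro τ τ' hττ
    have h1 : φ τ = φ τ' := congrArg Prod.fst hττ
    have h2 : F τ = F τ' := congrArg Prod.snd hττ
    funext m v
    rw [← hF τ m v, ← hF τ' m v, h1, h2]
  have hcard := Fintype.card_le_of_injective enc hinj
  simp only [Fintype.card_prod, Fintype.card_fun, Fintype.card_fin, ZMod.card, Vx] at hcard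
  have hP : 0 < P := Nat.pos_of_ne_zero (NeZero.ne P)
  have hn : q * (P * P) ≠ 0 := by positivity
  have h1 : s ^ (q * (P * P) * r) * s ^ (q * (P * P) * r)
      ≤ (q ^ 2) ^ (q * (P * P)) * s ^ (q * (P * P) * r) := by
    calc s ^ (q * (P * P) * r) * s ^ (q * (P * P) * r) = (s ^ (2 * q * (P * P))) ^ r := by
          rw [← pow_add, ← pow_mul]; ring_nf
      _ ≤ q ^ (2 * q * (P * P)) * ((s ^ q) ^ (P * P)) ^ r := hcard
      _ = (q ^ 2) ^ (q * (P * P)) * s ^ (q * (P * P) * r) := by
          rw [← pow_mul, ← pow_mul, ← pow_mul]; ring_nf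
  have h2 : s ^ (q * (P * P) * r) ≤ (q ^ 2) ^ (q * (P * P)) :=
    Nat.le_of_mul_le_mul_right h1 (by positivity)
  have h3 : (s ^ r) ^ (q * (P * P)) ≤ (q ^ 2) ^ (q * (P * P)) := by
    rw [← pow_mul, mul_comm r]; exact h2
  exact (Nat.pow_le_pow_iff_left hn).1 h3


/-- The star with `n` leaves. -/
def star (n : ℕ) : SimpleGraph (Option (Fin n)) where
  Adj u v := u ≠ v ∧ (u = none ∨ v = none)
  symm := ⟨fun _ _ h => ⟨h.1.symm, h.2.symm⟩⟩
  loopless := ⟨fun _ h => h.1 rfl⟩

lemma star_adj {n : ℕ} {u v : Option (Fin n)} :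
    (star n).Adj u v ↔ u ≠ v ∧ (u = none ∨ v = none) := Iff.rfl

/-- The graph with a disjoint star added. -/
def big {A r P s : ℕ} (τ : Fin r → Vx A P → Fin s) (n : ℕ) :
    SimpleGraph (Vx A P ⊕ Option (Fin n)) := SimpleGraph.sum (gr τ) (star n)

lemma big_degree {A r P s n : ℕ} (τ : Fin r → Vx A P → Fin s) [NeZero P] (h : r * A ≤ n)
    (hn : 1 ≤ n) (v : Vx A P ⊕ Option (Fin n)) : ((big τ n).neighborSet v).ncard ≤ n := by
  rcases v with v | v
  · have h1 : (big τ n).neighborSet (.inl v) = Sum.inl '' ((gr τ).neighborSet v) := by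
      ext w
      rcases w with w | w <;> simp [big]
    rw [h1, Set.ncard_image_of_injective _ Sum.inl_injective]
    exact le_trans (gr_degree τ v) h
  · rcases v with _ | v
    · have h1 : (big τ n).neighborSet (.inr none) ⊆ Set.range (fun i : Fin n => .inr (some i)) := by
        intro w hw
        rcases w with w | w
        · simp [big] at hw
        · rcases w with _ | w
          · exact absurd hw (by simp [big])
          · exact ⟨w, rfl⟩
      refine le_trans (Set.ncard_le_ncard h1 (Set.toFinite _)) ?_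
      rw [← Set.image_univ]
      refine le_trans (Set.ncard_image_le (Set.toFinite _)) ?_
      simp
    · have h1 : (big τ n).neighborSet (.inr (some v)) ⊆ {.inr none} := by
        intro w hw
        rcases w with w | w
        · simp [big] at hw
        · rcases w with _ | w
          · rfl
          · exact absurd hw (by simp [big, star_adj])
      refine le_trans (Set.ncard_le_ncard h1 (Set.toFinite _)) ?_
      simpa using hn

lemma big_degree_eq {A r P s n : ℕ} (τ : Fin r → Vx A P → Fin s) :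
    ((big τ n).neighborSet (.inr none)).ncard = n := by
  have h1 : (big τ n).neighborSet (.inr none) = (fun i : Fin n => (.inr (some i) :
      Vx A P ⊕ Option (Fin n))) '' Set.univ := by
    ext w
    rcases w with w | w
    · simp [big]
    · rcases w with _ | w
      · simp [big, star_adj]
      · simp [big, star_adj]
  rw [h1, Set.ncard_image_of_injective _ (fun a b hab => by simpa using hab)]
  simp

/-- No neighbourhood contains a clique on `s` vertices. -/
lemma big_free {A r P s n : ℕ} [Fact P.Prime] (hA : A ≤ P) (hr : r ≤ P)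
    (τ : Fin r → Vx A P → Fin s) (hs : 2 ≤ s) (v : Vx A P ⊕ Option (Fin n)) :
    ((big τ n).induce ((big τ n).neighborSet v)).CliqueFree s := by
  rw [SimpleGraph.cliqueFree_iff]
  refine ⟨fun f => ?_⟩
  -- the vertices of the clique
  let g : Fin s → Vx A P ⊕ Option (Fin n) := fun i => (f i).1
  have hgv : ∀ i, (big τ n).Adj v (g i) := fun i => (f i).2
  have hgg : ∀ i j, i ≠ j → (big τ n).Adj (g i) (g j) := fun i j hij =>
    f.toHom.map_adj ((SimpleGraph.top_adj i j).2 hij)
  rcases v with v | v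
  · -- all the vertices are on the left
    have hl : ∀ i, ∃ w, g i = .inl w ∧ (gr τ).Adj v w := by
      intro i
      have := hgv i
      rcases hgi : g i with w | w
      · rw [hgi] at this
        exact ⟨w, rfl, by simpa [big] using this⟩
      · rw [hgi] at this
        simp [big] at this
    choose w hw1 hw2 using hl
    have hww : ∀ i j, i ≠ j → (gr τ).Adj (w i) (w j) := by
      intro i j hij
      have := hgg i j hij
      rw [hw1 i, hw1 j] at this
      simpa [big] using this
    let k : Fin (s + 1) → Vx A P := Fin.cons v w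
    have hk : ∀ i j, i ≠ j → (gr τ).Adj (k i) (k j) := by
      intro i j hij
      induction i using Fin.cases with
      | zero =>
        induction j using Fin.cases with
        | zero => exact absurd rfl hij
        | succ j => simpa [k] using hw2 j
      | succ i =>
        induction j using Fin.cases with
        | zero => simpa [k] using (hw2 i).symm
        | succ j => simpa [k] using hww i j (fun h => hij (by rw [h]))
    refine gr_free hA hr τ (by omega) ⟨⟨⟨k, fun {i j} hij => hk i j hij.ne⟩, ?_⟩⟩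
    intro i j hij
    have hij' : k i = k j := hij
    by_contra hne
    have := hk i j hne
    rw [hij'] at this
    exact (gr τ).loopless.irrefl _ this
  · -- on the right there are two adjacent neighbours of a vertex of a star
    have h01 := hgg ⟨0, by omega⟩ ⟨1, by omega⟩ (by simp)
    have h0 := hgv ⟨0, by omega⟩
    have h1 := hgv ⟨1, by omega⟩
    rcases hg0 : g ⟨0, by omega⟩ with a | a
    · rw [hg0] at h0
      simp [big] at h0
    · rcases hg1 : g ⟨1, by omega⟩ with b | b
      · rw [hg1] at h1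
        simp [big] at h1
      · rw [hg0, hg1] at h01
        rw [hg0] at h0
        rw [hg1] at h1
        simp only [big, SimpleGraph.sum_adj_inr, star_adj] at h0 h1 h01
        obtain ⟨n0, h0⟩ := h0
        obtain ⟨n1, h1⟩ := h1
        obtain ⟨n01, h01⟩ := h01
        rcases h0 with h0 | h0 <;> rcases h1 with h1 | h1 <;> rcases h01 with h01 | h01 <;>
          simp_all

/-- The graphs with many colours, for positive constants. -/
theorem main_pos (s : ℕ) (hs : 2 ≤ s) (c : ℝ) (hc0 : 0 < c) (hc : c < Real.log s / 4) :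
    ∃ Δ₀ : ℕ, ∀ Δ : ℕ, Δ₀ ≤ Δ → ∃ (V : Type) (_ : Fintype V) (G : SimpleGraph V),
      (∀ v : V, (G.neighborSet v).ncard ≤ Δ) ∧ (∃ v : V, (G.neighborSet v).ncard = Δ) ∧
      (∀ v : V, (G.induce (G.neighborSet v)).CliqueFree s) ∧
      ∀ m : ℕ, G.Colorable m → c * Δ / Real.log Δ < m := by
  classical
  obtain ⟨L, hL⟩ : ∃ L, L = Real.log s := ⟨_, rfl⟩
  have hs0 : (0 : ℝ) < s := by exact_mod_cast (by omega : 0 < s)
  have hL0 : 0 < L := by rw [hL]; exact Real.log_pos (by exact_mod_cast (by omega : 1 < s))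
  obtain ⟨ε, hε⟩ : ∃ ε, ε = L / 4 - c := ⟨_, rfl⟩
  have hε0 : 0 < ε := by rw [hε, hL]; linarith
  -- the sizes that are large enough
  have hcast : Filter.Tendsto (fun n : ℕ => (n : ℝ)) Filter.atTop Filter.atTop :=
    tendsto_natCast_atTop_atTop
  have hlog : Filter.Tendsto (fun n : ℕ => Real.log (n : ℝ)) Filter.atTop Filter.atTop :=
    Real.tendsto_log_atTop.comp hcast
  have e1 : ∀ᶠ n : ℕ in Filter.atTop, L ^ 2 / (4 * ε) + 1 ≤ Real.log (n : ℝ) :=
    hlog.eventually_ge_atTop _
  have e2 : ∀ᶠ n : ℕ in Filter.atTop, Real.log (n : ℝ) ≤ ε / 2 * n := by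
    have h1 := (Real.isLittleO_log_id_atTop.comp_tendsto hcast).bound (half_pos hε0)
    filter_upwards [h1, e1] with n hn hn1
    have h2 : 0 ≤ Real.log (n : ℝ) := le_trans (by positivity) hn1
    simp only [Function.comp_apply, Real.norm_eq_abs, id] at hn
    rw [abs_of_nonneg h2, abs_of_nonneg (by positivity)] at hn
    exact hn
  obtain ⟨Δ₀, hΔ₀⟩ := Filter.eventually_atTop.1 (e1.and (e2.and (Filter.eventually_ge_atTop 2)))
  refine ⟨Δ₀, fun Δ hΔ => ?_⟩
  obtain ⟨f1, f2, f3⟩ := hΔ₀ Δ hΔ
  obtain ⟨x, hx⟩ : ∃ x, x = Real.log (Δ : ℝ) := ⟨_, rfl⟩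
  rw [← hx] at f1 f2
  have hΔ0 : (0 : ℝ) < Δ := by exact_mod_cast (by omega : 0 < Δ)
  have hx1 : 1 ≤ x := by
    have : 0 ≤ L ^ 2 / (4 * ε) := by positivity
    linarith
  -- the number of blocks at a vertex
  obtain ⟨r, hr⟩ : ∃ r, r = ⌊2 * x / L⌋₊ + 1 := ⟨_, rfl⟩
  have hr1 : 2 * x / L < r := by rw [hr]; push_cast; exact Nat.lt_floor_add_one _
  have hr2 : (r : ℝ) ≤ 2 * x / L + 1 := by
    rw [hr]; push_cast
    have := Nat.floor_le (show 0 ≤ 2 * x / L by positivity)
    linarith
  have hr0 : 0 < r := by omega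
  have hr0' : (0 : ℝ) < r := by exact_mod_cast hr0
  -- the number of colours
  obtain ⟨q, hq⟩ : ∃ q, q = Δ / (2 * r) := ⟨_, rfl⟩
  have hqΔ : r * (2 * q) ≤ Δ := by
    calc r * (2 * q) = Δ / (2 * r) * (2 * r) := by rw [hq]; ring
      _ ≤ Δ := Nat.div_mul_le_self _ _
  have hq1 : (Δ : ℝ) / (2 * r) - 1 ≤ q := by
    have h1 : Δ < (q + 1) * (2 * r) := by
      rw [hq]
      have := Nat.lt_div_mul_add (a := Δ) (b := 2 * r) (by omega)
      calc Δ < Δ / (2 * r) * (2 * r) + 2 * r := this
        _ = (Δ / (2 * r) + 1) * (2 * r) := by ring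
    have h2 : (Δ : ℝ) < ((q : ℝ) + 1) * (2 * r) := by exact_mod_cast h1
    have h3 : (Δ : ℝ) / (2 * r) < (q : ℝ) + 1 := by
      rw [div_lt_iff₀ (by positivity)]; exact h2
    linarith
  -- the main inequality
  have hqc : c * Δ / x ≤ q := by
    refine le_trans ?_ hq1
    have h1 : (2 : ℝ) * r ≤ (4 * x + 2 * L) / L := by
      calc (2 : ℝ) * r ≤ 2 * (2 * x / L + 1) := by linarith
        _ = (4 * x + 2 * L) / L := by field_simp; ring
    have h2 : (Δ : ℝ) * L / (4 * x + 2 * L) ≤ (Δ : ℝ) / (2 * r) := by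
      rw [div_le_div_iff₀ (by positivity) (by positivity)]
      calc (Δ : ℝ) * L * (2 * r) ≤ (Δ : ℝ) * L * ((4 * x + 2 * L) / L) :=
            mul_le_mul_of_nonneg_left h1 (by positivity)
        _ = (Δ : ℝ) * (4 * x + 2 * L) := by field_simp
    refine le_trans ?_ (sub_le_sub_right h2 1)
    -- multiply by `x / Δ`
    have h3 : c + x / Δ ≤ x * L / (4 * x + 2 * L) := by
      have h4 : x / Δ ≤ ε / 2 := by
        rw [div_le_iff₀ hΔ0]; exact f2
      have h5 : L ^ 2 / (8 * x) ≤ ε / 2 := by
        rw [div_le_iff₀ (by positivity)]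
        have h6 : L ^ 2 / (4 * ε) ≤ x := by linarith
        rw [div_le_iff₀ (by positivity)] at h6
        nlinarith
      have h7 : L / 4 - L ^ 2 / (8 * x) ≤ x * L / (4 * x + 2 * L) := by
        rw [le_div_iff₀ (by positivity)]
        have h8 : (L / 4 - L ^ 2 / (8 * x)) * (4 * x + 2 * L) = x * L - L ^ 3 / (4 * x) := by
          field_simp
          ring
        rw [h8]
        have : 0 ≤ L ^ 3 / (4 * x) := by positivity
        linarith
      have h9 : c = L / 4 - ε := by rw [hε]; ring
      rw [h9]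
      linarith
    have h4 : c * Δ / x + 1 = (c + x / Δ) * (Δ / x) := by field_simp
    have h5 : (Δ : ℝ) * L / (4 * x + 2 * L) = x * L / (4 * x + 2 * L) * (Δ / x) := by field_simp
    have h6 : (c + x / Δ) * (Δ / x) ≤ x * L / (4 * x + 2 * L) * (Δ / x) :=
      mul_le_mul_of_nonneg_right h3 (by positivity)
    linarith
  have hq0 : 0 < q := by
    have h1 : (0 : ℝ) < c * Δ / x := by positivity
    exact_mod_cast lt_of_lt_of_le h1 hqc
  -- few colours compared with the number of choices
  have hqs : q ^ 2 < s ^ r := by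
    have h1 : q ≤ Δ := by
      calc q ≤ r * (2 * q) := by nlinarith
        _ ≤ Δ := hqΔ
    refine lt_of_le_of_lt (Nat.pow_le_pow_left h1 2) ?_
    have h2 : 2 * x < r * L := by rw [div_lt_iff₀ hL0] at hr1; exact hr1
    have h3 : Real.log ((Δ : ℝ) ^ 2) < Real.log ((s : ℝ) ^ r) := by
      rw [Real.log_pow, Real.log_pow, ← hL, ← hx]
      push_cast
      exact h2
    have h4 := (Real.log_lt_log_iff (by positivity) (by positivity)).1 h3
    exact_mod_cast h4
  obtain ⟨P, hP, hPp⟩ := Nat.exists_infinite_primes (max (2 * q) r)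
  have hPq : 2 * q ≤ P := le_trans (le_max_left _ _) hP
  have hPr : r ≤ P := le_trans (le_max_right _ _) hP
  have : Fact P.Prime := ⟨hPp⟩
  have : NeZero P := ⟨hPp.ne_zero⟩
  obtain ⟨τ, hτ⟩ : ∃ τ : Fin r → Vx (2 * q) P → Fin s, ¬ (gr τ).Colorable q := by
    by_contra hcon
    push Not at hcon
    exact absurd (count hq0 (by omega) hcon) (not_le.2 hqs)
  refine ⟨Vx (2 * q) P ⊕ Option (Fin Δ), inferInstance, big τ Δ,
    big_degree τ hqΔ (by omega), ⟨.inr none, big_degree_eq τ⟩, big_free hPq hPr τ hs, ?_⟩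
  intro m hm
  have h1 : q < m := by
    by_contra hlt
    exact hτ (hm.of_sum_left.mono (by omega))
  rw [← hx]
  calc c * Δ / x ≤ q := hqc
    _ < m := by exact_mod_cast h1

/-- The graphs with many colours. -/
theorem main (s : ℕ) (hs : 2 ≤ s) (c : ℝ) (hc : c < Real.log s / 4) :
    ∃ Δ₀ : ℕ, ∀ Δ : ℕ, Δ₀ ≤ Δ → ∃ (V : Type) (_ : Fintype V) (G : SimpleGraph V),
      (∀ v : V, (G.neighborSet v).ncard ≤ Δ) ∧ (∃ v : V, (G.neighborSet v).ncard = Δ) ∧
      (∀ v : V, (G.induce (G.neighborSet v)).CliqueFree s) ∧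
      ∀ m : ℕ, G.Colorable m → c * Δ / Real.log Δ < m := by
  have hL : 0 < Real.log s := Real.log_pos (by exact_mod_cast (by omega : 1 < s))
  obtain ⟨Δ₀, h⟩ := main_pos s hs (max c (Real.log s / 8))
    (lt_of_lt_of_le (by positivity) (le_max_right _ _)) (max_lt hc (by linarith))
  refine ⟨max Δ₀ 1, fun Δ hΔ => ?_⟩
  obtain ⟨V, hV, G, h1, h2, h3, h4⟩ := h Δ (le_trans (le_max_left _ _) hΔ)
  refine ⟨V, hV, G, h1, h2, h3, fun m hm => lt_of_le_of_lt ?_ (h4 m hm)⟩
  have h5 : 0 ≤ Real.log (Δ : ℝ) :=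
    Real.log_nonneg (by exact_mod_cast le_trans (le_max_right _ _) hΔ)
  refine div_le_div_of_nonneg_right ?_ h5
  exact mul_le_mul_of_nonneg_right (le_max_left _ _) (by positivity)

end Pool.Agent.Lib.MP_06c6c1_co.RandParts
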